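import Pool.Agent.LibMX34.IDefs

set_option autoImplicit false

/-! ROW MX34 I1 (MEDIUM). Chain rule for d/ds.
PLAN. As in Pool/Agent/LibMF6/B4.lean (`pderiv_subst`, same proof scheme, it is on main: copy and adapt): for polynomials (coe of MvPolynomial) by
induction (dS is additive, Leibniz: dS (a b) = dS a * b + a * dS b, prove it first by coeff_mul and PowerSeries derivative of a product; dS of X i = 0,
dS (C c) = C (derivative c); subst F of the polynomial = aeval F), in general: truncate, the tail has large order and dS does not lower the order. -/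

namespace Pool.Agent.LibMX34

open MvPowerSeries in
private theorem I1_coeff {k : Type} [Field k] {σ : Type} (a : MvPowerSeries σ (PowerSeries k)) (e : σ →₀ ℕ) :
    coeff e (dS k a) = PowerSeries.derivative k (coeff e a) := rfl

theorem dS_add {k : Type} [Field k] {σ : Type} (a b : MvPowerSeries σ (PowerSeries k)) : dS k (a + b) = dS k a + dS k b := by
  ext1 e
  rw [I1_coeff, map_add, map_add, map_add, I1_coeff, I1_coeff]

theorem dS_mul {k : Type} [Field k] {σ : Type} (a b : MvPowerSeries σ (PowerSeries k)) :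
    dS k (a * b) = dS k a * b + a * dS k b := by
  classical
  ext1 e
  rw [I1_coeff, MvPowerSeries.coeff_mul, map_sum, map_add, MvPowerSeries.coeff_mul, MvPowerSeries.coeff_mul,
    ← Finset.sum_add_distrib]
  refine Finset.sum_congr rfl fun x _ => ?_
  rw [Derivation.leibniz, smul_eq_mul, smul_eq_mul, I1_coeff, I1_coeff]
  ring

open MvPowerSeries

private def I1_Q {k : Type} [Field k] {σ τ : Type} [Fintype σ] (F : σ → MvPowerSeries τ (PowerSeries k))
    (h : MvPowerSeries σ (PowerSeries k)) : Prop :=
  dS k (subst F h) = subst F (dS k h) + ∑ j, subst F (pderiv (PowerSeries k) j h) * dS k (F j)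

private theorem I1_add {k : Type} [Field k] {σ τ : Type} [Fintype σ] (F : σ → MvPowerSeries τ (PowerSeries k))
    (hS : HasSubst F) {a b : MvPowerSeries σ (PowerSeries k)} (ha : I1_Q F a) (hb : I1_Q F b) : I1_Q F (a + b) := by
  unfold I1_Q at ha hb ⊢
  have e : ∑ j, subst F (pderiv (PowerSeries k) j (a + b)) * dS k (F j)
      = ∑ j, subst F (pderiv (PowerSeries k) j a) * dS k (F j) + ∑ j, subst F (pderiv (PowerSeries k) j b) * dS k (F j) := by
    rw [← Finset.sum_add_distrib]
    refine Finset.sum_congr rfl fun j _ => ?_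
    rw [map_add, subst_add hS, add_mul]
  rw [subst_add hS, dS_add, ha, hb, dS_add, subst_add hS, e]
  ring

private theorem I1_mul {k : Type} [Field k] {σ τ : Type} [Fintype σ] (F : σ → MvPowerSeries τ (PowerSeries k))
    (hS : HasSubst F) {a b : MvPowerSeries σ (PowerSeries k)} (ha : I1_Q F a) (hb : I1_Q F b) : I1_Q F (a * b) := by
  unfold I1_Q at ha hb ⊢
  have e : ∑ j, subst F (pderiv (PowerSeries k) j (a * b)) * dS k (F j)
      = subst F a * (∑ j, subst F (pderiv (PowerSeries k) j b) * dS k (F j))
        + subst F b * ∑ j, subst F (pderiv (PowerSeries k) j a) * dS k (F j) := by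
    rw [Finset.mul_sum, Finset.mul_sum, ← Finset.sum_add_distrib]
    refine Finset.sum_congr rfl fun j _ => ?_
    rw [Derivation.leibniz, smul_eq_mul, smul_eq_mul, subst_add hS, subst_mul hS, subst_mul hS]
    ring
  rw [subst_mul hS, dS_mul, ha, hb, dS_mul, subst_add hS, subst_mul hS, subst_mul hS, e]
  ring

private theorem I1_dC {k : Type} [Field k] {σ : Type} (c : PowerSeries k) :
    dS k (C c : MvPowerSeries σ (PowerSeries k)) = C (PowerSeries.derivative k c) := by
  classical
  ext1 e
  rw [I1_coeff, coeff_C, coeff_C]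
  split_ifs
  · rfl
  · rw [map_zero]

private theorem I1_dX {k : Type} [Field k] {σ : Type} (i : σ) : dS k (X i : MvPowerSeries σ (PowerSeries k)) = 0 := by
  classical
  ext1 e
  rw [I1_coeff, coeff_X, map_zero]
  split_ifs
  · exact Derivation.map_one_eq_zero _
  · rw [map_zero]

private theorem I1_C {k : Type} [Field k] {σ τ : Type} [Fintype σ] (F : σ → MvPowerSeries τ (PowerSeries k))
    (hS : HasSubst F) (c : PowerSeries k) : I1_Q F (C c) := by
  unfold I1_Q
  have e : ∑ j, subst F (pderiv (PowerSeries k) j (C c)) * dS k (F j) = 0 := by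
    apply Finset.sum_eq_zero
    intro j _
    rw [pderiv_C, ← coe_substAlgHom hS, map_zero, zero_mul]
  rw [subst_C, I1_dC, I1_dC, subst_C, e, add_zero]

private theorem I1_X {k : Type} [Field k] {σ τ : Type} [Fintype σ] (F : σ → MvPowerSeries τ (PowerSeries k))
    (hS : HasSubst F) (i : σ) : I1_Q F (X i) := by
  classical
  unfold I1_Q
  have e : ∀ j, subst F (pderiv (PowerSeries k) j (X i)) * dS k (F j) = if j = i then dS k (F i) else 0 := by
    intro j
    split_ifs with h
    · subst h
      rw [pderiv_X_self, ← coe_substAlgHom hS, map_one, one_mul]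
    · rw [pderiv_X_of_ne (Ne.symm h), ← coe_substAlgHom hS, map_zero, zero_mul]
  rw [Finset.sum_congr rfl fun j _ => e j, Finset.sum_ite_eq' Finset.univ i, if_pos (Finset.mem_univ i), subst_X hS, I1_dX,
    ← coe_substAlgHom hS, map_zero, zero_add]

private theorem I1_poly {k : Type} [Field k] {σ τ : Type} [Fintype σ] (F : σ → MvPowerSeries τ (PowerSeries k))
    (hS : HasSubst F) (p : MvPolynomial σ (PowerSeries k)) : I1_Q F (p : MvPowerSeries σ (PowerSeries k)) := by
  induction p using MvPolynomial.induction_on with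
  | C a =>
    rw [MvPolynomial.coe_C]
    exact I1_C F hS a
  | add p q hp hq =>
    rw [MvPolynomial.coe_add]
    exact I1_add F hS hp hq
  | mul_X p i hp =>
    rw [MvPolynomial.coe_mul, MvPolynomial.coe_X]
    exact I1_mul F hS hp (I1_X F hS i)

private theorem I1_order {R : Type*} [CommRing R] {σ τ : Type*} [Finite σ] (F : σ → MvPowerSeries τ R)
    (hF : ∀ j, constantCoeff (F j) = 0) (h : MvPowerSeries σ R) (N : ℕ) (hN : (N : ℕ∞) ≤ h.order) :
    (N : ℕ∞) ≤ (subst F h).order := by
  refine le_trans ?_ (le_order_subst (hasSubst_of_constantCoeff_zero hF) h)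
  have h1 : (1 : ℕ∞) ≤ ⨅ i, (F i).order := le_iInf fun i => one_le_order_iff_constCoeff_eq_zero.2 (hF i)
  calc (N : ℕ∞) ≤ h.order := hN
    _ = 1 * h.order := (one_mul _).symm
    _ ≤ _ := mul_le_mul_left h1 _

private theorem I1_pderiv {R : Type*} [CommRing R] {σ : Type*} (h : MvPowerSeries σ R) (N : ℕ)
    (hN : ((N + 1 : ℕ) : ℕ∞) ≤ h.order) (j : σ) : (N : ℕ∞) ≤ (pderiv R j h).order := by
  apply nat_le_order
  intro d hd
  rw [coeff_pderiv, coeff_of_lt_order, zero_mul]
  refine lt_of_lt_of_le ?_ hN
  rw [map_add, Finsupp.degree_single]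
  exact_mod_cast Nat.succ_lt_succ hd

private theorem I1_dS {k : Type} [Field k] {σ : Type} (h : MvPowerSeries σ (PowerSeries k)) (N : ℕ)
    (hN : (N : ℕ∞) ≤ h.order) : (N : ℕ∞) ≤ (dS k h).order := by
  apply nat_le_order
  intro d hd
  rw [I1_coeff, coeff_of_lt_order, map_zero]
  exact lt_of_lt_of_le (by exact_mod_cast hd) hN

theorem dS_subst {k : Type} [Field k] {σ τ : Type} [Fintype σ] [Finite τ] (F : σ → MvPowerSeries τ (PowerSeries k))
    (hF : ∀ j, MvPowerSeries.constantCoeff (F j) = 0) (h : MvPowerSeries σ (PowerSeries k)) :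
    dS k (MvPowerSeries.subst F h) = MvPowerSeries.subst F (dS k h) +
      ∑ j, MvPowerSeries.subst F (MvPowerSeries.pderiv (PowerSeries k) j h) * dS k (F j) := by
  have hS : HasSubst F := hasSubst_of_constantCoeff_zero hF
  ext1 e
  set N := e.degree + 1 with hNdef
  set p : MvPolynomial σ (PowerSeries k) := truncTotal (N + 1) h with hp
  set r : MvPowerSeries σ (PowerSeries k) := h - (p : MvPowerSeries σ (PowerSeries k)) with hr
  have hsplit : h = (p : MvPowerSeries σ (PowerSeries k)) + r := by rw [hr]; ring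
  have hord : ((N + 1 : ℕ) : ℕ∞) ≤ r.order := by
    apply nat_le_order
    intro d hd
    rw [hr, map_sub, MvPolynomial.coeff_coe, hp, coeff_truncTotal _ hd, sub_self]
  have hord' : (N : ℕ∞) ≤ r.order := le_trans (by exact_mod_cast Nat.le_succ N) hord
  have hrel : ∀ j, (N : ℕ∞) ≤ (pderiv (PowerSeries k) j r).order := I1_pderiv r N hord
  have hlt : (e.degree : ℕ∞) < (N : ℕ∞) := by exact_mod_cast Nat.lt_succ_self _
  have h0 : coeff e (dS k (subst F r)) = 0 := by
    apply coeff_of_lt_order
    exact lt_of_lt_of_le hlt (I1_dS _ N (I1_order F hF r N hord'))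
  have h1 : coeff e (subst F (dS k r)) = 0 := by
    apply coeff_of_lt_order
    exact lt_of_lt_of_le hlt (I1_order F hF _ N (I1_dS _ N hord'))
  have h2 : ∀ j, coeff e (subst F (pderiv (PowerSeries k) j r) * dS k (F j)) = 0 := by
    intro j
    apply coeff_of_lt_order
    exact lt_of_lt_of_le hlt (le_trans (le_trans (I1_order F hF _ N (hrel j)) le_self_add) le_order_mul)
  have hQ : I1_Q F (p : MvPowerSeries σ (PowerSeries k)) := I1_poly F hS p
  have hQ' : dS k (subst F (p : MvPowerSeries σ (PowerSeries k))) = subst F (dS k (p : MvPowerSeries σ (PowerSeries k))) +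
      ∑ j, subst F (pderiv (PowerSeries k) j (p : MvPowerSeries σ (PowerSeries k))) * dS k (F j) := hQ
  rw [hsplit, subst_add hS, dS_add, dS_add, subst_add hS, map_add, h0, add_zero, hQ', map_add, map_add, map_add, h1, add_zero]
  congr 1
  rw [map_sum, map_sum]
  refine Finset.sum_congr rfl fun j _ => ?_
  rw [map_add, subst_add hS, add_mul, map_add, h2, add_zero]

end Pool.Agent.LibMX34
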