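import Pool.Agent.LibMX34.I2

set_option autoImplicit false

/-! ROW MX34 I3 (MEDIUM). The unfolding form: minors, conductor, Hilbert-Burch for `unf R Φ`.
PLAN. Index sets: Fin (r+3) = {0,1,2} ∪ {a.succ.succ.succ}, Fin (r+4) = {0,1,2,3} ∪ {a.succ.succ.succ.succ}; use Fin.sum_univ_succ (3 or 4 times),
Fin.cons_zero, Fin.cons_succ, Fin.cases. The derivative of X (a.succ.succ.succ) is 1 resp. 0 (MvPowerSeries.pderiv_X, Pi.single). For i = 0, 1, 2 the
`u`-part of row i vanishes and the row is `jacM`; for i = 3 + a the row is (∂Φ_j/∂u_a)_j followed by the a-th unit vector.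
full_lam: w restricted to the first four components satisfies lam_exists (rows 0, 1, 2); the row 3 + a gives w (4+a) = - ∑ w_j ∂Φ_j/∂u_a = lam * mfull.
full_hb: c'_j = c_j - ∑_a c_(4+a) ∂Φ_j/∂u_a satisfies ∑ c'_j mn_j = 0; take a_i from hb_three for i = 0, 1, 2 and a_(3+a) = c_(4+a). -/

namespace Pool.Agent.LibMX34

section I3

variable {R : Type} [CommRing R] {r : ℕ}

/-- the first four components -/
private def I3_v4 {S : Type} (v : Fin (r + 4) → S) : Fin 4 → S := fun j => v (Fin.castLE (by omega) j)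

private theorem I3_sum {M : Type} [AddCommMonoid M] (v : Fin (r + 4) → M) :
    ∑ j, v j = ∑ j, I3_v4 v j + ∑ a : Fin r, v a.succ.succ.succ.succ := by
  rw [Fin.sum_univ_succ, Fin.sum_univ_succ, Fin.sum_univ_succ, Fin.sum_univ_succ, Fin.sum_univ_four]
  simp only [← add_assoc]
  rfl

private theorem I3_unf4 (Φ : Fin 4 → MvPowerSeries (Fin (r + 3)) R) (j : Fin 4) :
    unf R Φ (Fin.castLE (by omega) j) = Φ j := by
  fin_cases j <;> rfl

private theorem I3_unfs (Φ : Fin 4 → MvPowerSeries (Fin (r + 3)) R) (a : Fin r) :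
    unf R Φ a.succ.succ.succ.succ = MvPowerSeries.X (a.succ.succ.succ : Fin (r + 3)) := rfl

private theorem I3_mf4 (Φ : Fin 4 → MvPowerSeries (Fin (r + 3)) R) (j : Fin 4) :
    mfull R Φ (Fin.castLE (by omega) j) = mn (jacM R Φ) j := by
  fin_cases j <;> rfl

private theorem I3_mfs (Φ : Fin 4 → MvPowerSeries (Fin (r + 3)) R) (a : Fin r) :
    mfull R Φ a.succ.succ.succ.succ =
      - ∑ j, mn (jacM R Φ) j * MvPowerSeries.pderiv R (a.succ.succ.succ : Fin (r + 3)) (Φ j) := rfl

private theorem I3_row_low (Φ : Fin 4 → MvPowerSeries (Fin (r + 3)) R) (i : Fin 3)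
    (v : Fin (r + 4) → MvPowerSeries (Fin (r + 3)) R) :
    ∑ j, v j * MvPowerSeries.pderiv R (Fin.castLE (by omega) i : Fin (r + 3)) (unf R Φ j) =
      ∑ j, I3_v4 v j * jacM R Φ i j := by
  rw [I3_sum]
  have h1 : ∑ a : Fin r, v a.succ.succ.succ.succ *
      MvPowerSeries.pderiv R (Fin.castLE (by omega) i : Fin (r + 3)) (unf R Φ a.succ.succ.succ.succ) = 0 := by
    refine Finset.sum_eq_zero fun a _ => ?_
    rw [I3_unfs, MvPowerSeries.pderiv_X_of_ne, mul_zero]
    intro h
    have h2 := congrArg Fin.val h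
    simp only [Fin.val_succ, Fin.val_castLE] at h2
    omega
  rw [h1, add_zero]
  refine Finset.sum_congr rfl fun j _ => ?_
  show v _ * MvPowerSeries.pderiv R _ (unf R Φ (Fin.castLE _ j)) = v _ * MvPowerSeries.pderiv R _ (Φ j)
  rw [I3_unf4]

private theorem I3_row_high (Φ : Fin 4 → MvPowerSeries (Fin (r + 3)) R) (b : Fin r)
    (v : Fin (r + 4) → MvPowerSeries (Fin (r + 3)) R) :
    ∑ j, v j * MvPowerSeries.pderiv R (b.succ.succ.succ : Fin (r + 3)) (unf R Φ j) =
      ∑ j, I3_v4 v j * MvPowerSeries.pderiv R (b.succ.succ.succ : Fin (r + 3)) (Φ j) +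
        v b.succ.succ.succ.succ := by
  rw [I3_sum]
  have h1 : ∑ a : Fin r, v a.succ.succ.succ.succ *
      MvPowerSeries.pderiv R (b.succ.succ.succ : Fin (r + 3)) (unf R Φ a.succ.succ.succ.succ) =
        v b.succ.succ.succ.succ := by
    rw [Finset.sum_eq_single b]
    · rw [I3_unfs, MvPowerSeries.pderiv_X_self, mul_one]
    · intro a _ hab
      rw [I3_unfs, MvPowerSeries.pderiv_X_of_ne, mul_zero]
      intro h
      exact hab (Fin.succ_injective _ (Fin.succ_injective _ (Fin.succ_injective _ h)))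
    · intro h
      exact absurd (Finset.mem_univ b) h
  rw [h1]
  have h2 : ∑ j, I3_v4 (fun j => v j * MvPowerSeries.pderiv R (b.succ.succ.succ : Fin (r + 3)) (unf R Φ j)) j =
      ∑ j, I3_v4 v j * MvPowerSeries.pderiv R (b.succ.succ.succ : Fin (r + 3)) (Φ j) := by
    refine Finset.sum_congr rfl fun j _ => ?_
    show v _ * MvPowerSeries.pderiv R _ (unf R Φ (Fin.castLE _ j)) = v _ * MvPowerSeries.pderiv R _ (Φ j)
    rw [I3_unf4]
  rw [h2]

private theorem I3_cases {P : Fin (r + 3) → Prop} (h1 : ∀ i : Fin 3, P (Fin.castLE (by omega) i))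
    (h2 : ∀ b : Fin r, P b.succ.succ.succ) (i : Fin (r + 3)) : P i := by
  refine Fin.cases (h1 0) (fun i => Fin.cases (h1 1) (fun i => Fin.cases (h1 2) (fun b => h2 b) i) i) i

end I3

theorem full_rel {R : Type} [CommRing R] {r : ℕ} (Φ : Fin 4 → MvPowerSeries (Fin (r + 3)) R) (i : Fin (r + 3)) :
    ∑ j, MvPowerSeries.pderiv R i (unf R Φ j) * mfull R Φ j = 0 := by
  have h0 : ∑ j, MvPowerSeries.pderiv R i (unf R Φ j) * mfull R Φ j =
      ∑ j, mfull R Φ j * MvPowerSeries.pderiv R i (unf R Φ j) :=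
    Finset.sum_congr rfl fun _ _ => mul_comm _ _
  rw [h0]
  clear h0
  revert i
  refine I3_cases ?_ ?_
  · intro i
    rw [I3_row_low, ← mn_rel (jacM R Φ) i]
    refine Finset.sum_congr rfl fun j _ => ?_
    show mfull R Φ (Fin.castLE _ j) * _ = _
    rw [I3_mf4, mul_comm]
  · intro b
    rw [I3_row_high, I3_mfs]
    have h1 : ∑ j, I3_v4 (mfull R Φ) j * MvPowerSeries.pderiv R (b.succ.succ.succ : Fin (r + 3)) (Φ j) =
        ∑ j, mn (jacM R Φ) j * MvPowerSeries.pderiv R (b.succ.succ.succ : Fin (r + 3)) (Φ j) := by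
      refine Finset.sum_congr rfl fun j _ => ?_
      show mfull R Φ (Fin.castLE _ j) * _ = _
      rw [I3_mf4]
    rw [h1, add_neg_cancel]

theorem full_lam {R : Type} [CommRing R] [IsDomain R] {r : ℕ} (Φ : Fin 4 → MvPowerSeries (Fin (r + 3)) R)
    (e : Fin 4 → MvPowerSeries (Fin (r + 3)) R) (hreg : RegPair (mn (jacM R Φ) 3) (∑ j, e j * mn (jacM R Φ) j))
    (w : Fin (r + 4) → MvPowerSeries (Fin (r + 3)) R)
    (hw : ∀ i, ∑ j, w j * MvPowerSeries.pderiv R i (unf R Φ j) = 0) : ∃ lam, ∀ j, w j = lam * mfull R Φ j := by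
  have : IsDomain (MvPowerSeries (Fin (r + 3)) R) := NoZeroDivisors.to_isDomain _
  obtain ⟨lam, hlam⟩ := lam_exists (jacM R Φ) e hreg (I3_v4 w) (fun i => by
    have h := hw (Fin.castLE (by omega) i)
    rw [I3_row_low] at h
    rw [← h]
    exact Finset.sum_congr rfl fun _ _ => mul_comm _ _)
  refine ⟨lam, ?_⟩
  have h4 : ∀ j : Fin 4, w (Fin.castLE (by omega) j) = lam * mfull R Φ (Fin.castLE (by omega) j) := by
    intro j
    rw [I3_mf4]
    exact hlam j
  have hs : ∀ a : Fin r, w a.succ.succ.succ.succ = lam * mfull R Φ a.succ.succ.succ.succ := by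
    intro a
    have h := hw a.succ.succ.succ
    rw [I3_row_high] at h
    rw [I3_mfs, mul_neg, Finset.mul_sum]
    have h1 : ∑ j, I3_v4 w j * MvPowerSeries.pderiv R (a.succ.succ.succ : Fin (r + 3)) (Φ j) =
        ∑ j, lam * (mn (jacM R Φ) j * MvPowerSeries.pderiv R (a.succ.succ.succ : Fin (r + 3)) (Φ j)) := by
      refine Finset.sum_congr rfl fun j _ => ?_
      rw [hlam j, mul_assoc]
    rw [h1] at h
    exact eq_neg_of_add_eq_zero_right h
  intro j
  refine Fin.cases (h4 0) (fun j => Fin.cases (h4 1) (fun j => Fin.cases (h4 2) (fun j =>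
    Fin.cases (h4 3) (fun a => hs a) j) j) j) j

theorem full_hb {R : Type} [CommRing R] [IsDomain R] {r : ℕ} (Φ : Fin 4 → MvPowerSeries (Fin (r + 3)) R)
    (e : Fin 4 → MvPowerSeries (Fin (r + 3)) R) (hreg : RegPair (mn (jacM R Φ) 3) (∑ j, e j * mn (jacM R Φ) j))
    (c : Fin (r + 4) → MvPowerSeries (Fin (r + 3)) R) (hc : ∑ j, c j * mfull R Φ j = 0) :
    ∃ a : Fin (r + 3) → MvPowerSeries (Fin (r + 3)) R, ∀ j, c j = ∑ i, a i * MvPowerSeries.pderiv R i (unf R Φ j) := by
  have hc' : ∑ j, (I3_v4 c j - ∑ a : Fin r, c a.succ.succ.succ.succ *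
      MvPowerSeries.pderiv R (a.succ.succ.succ : Fin (r + 3)) (Φ j)) * mn (jacM R Φ) j = 0 := by
    rw [I3_sum] at hc
    have h1 : ∑ j, I3_v4 (fun j => c j * mfull R Φ j) j = ∑ j, I3_v4 c j * mn (jacM R Φ) j := by
      refine Finset.sum_congr rfl fun j _ => ?_
      show c _ * mfull R Φ (Fin.castLE _ j) = _
      rw [I3_mf4]
      rfl
    have h2 : ∑ a : Fin r, c a.succ.succ.succ.succ * mfull R Φ a.succ.succ.succ.succ =
        - ∑ j, (∑ a : Fin r, c a.succ.succ.succ.succ *
          MvPowerSeries.pderiv R (a.succ.succ.succ : Fin (r + 3)) (Φ j)) * mn (jacM R Φ) j := by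
      have h3 : ∀ a : Fin r, c a.succ.succ.succ.succ * mfull R Φ a.succ.succ.succ.succ =
          - ∑ j, c a.succ.succ.succ.succ *
            MvPowerSeries.pderiv R (a.succ.succ.succ : Fin (r + 3)) (Φ j) * mn (jacM R Φ) j := by
        intro a
        rw [I3_mfs, mul_neg, Finset.mul_sum]
        congr 1
        refine Finset.sum_congr rfl fun j _ => ?_
        ring
      rw [Finset.sum_congr rfl fun a _ => h3 a, Finset.sum_neg_distrib, Finset.sum_comm]
      congr 1
      refine Finset.sum_congr rfl fun j _ => ?_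
      rw [Finset.sum_mul]
    rw [h1, h2] at hc
    rw [Finset.sum_congr rfl fun j _ => sub_mul _ _ _, Finset.sum_sub_distrib, sub_eq_add_neg]
    exact hc
  have : IsDomain (MvPowerSeries (Fin (r + 3)) R) := NoZeroDivisors.to_isDomain _
  obtain ⟨a3, ha3⟩ := hb_three (jacM R Φ) e hreg _ hc'
  refine ⟨fun i => Fin.cases (a3 0) (fun i => Fin.cases (a3 1) (fun i => Fin.cases (a3 2)
    (fun a => c a.succ.succ.succ.succ) i) i) i, ?_⟩
  intro j
  have hsum : ∀ g : Fin (r + 3) → MvPowerSeries (Fin (r + 3)) R,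
      ∑ i, (Fin.cases (a3 0) (fun i => Fin.cases (a3 1) (fun i => Fin.cases (a3 2)
        (fun a => c a.succ.succ.succ.succ) i) i) i : MvPowerSeries (Fin (r + 3)) R) * g i =
      ∑ i : Fin 3, a3 i * g (Fin.castLE (by omega) i) +
        ∑ a : Fin r, c a.succ.succ.succ.succ * g a.succ.succ.succ := by
    intro g
    rw [Fin.sum_univ_succ, Fin.sum_univ_succ, Fin.sum_univ_succ, Fin.sum_univ_three]
    simp only [← add_assoc]
    rfl
  show c j = ∑ i, (Fin.cases (a3 0) (fun i => Fin.cases (a3 1) (fun i => Fin.cases (a3 2)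
        (fun a => c a.succ.succ.succ.succ) i) i) i : MvPowerSeries (Fin (r + 3)) R) *
        (fun i => MvPowerSeries.pderiv R i (unf R Φ j)) i
  rw [hsum]
  have h4 : ∀ j : Fin 4, c (Fin.castLE (by omega) j) =
      ∑ i : Fin 3, a3 i * MvPowerSeries.pderiv R (Fin.castLE (by omega) i : Fin (r + 3))
        (unf R Φ (Fin.castLE (by omega) j)) +
      ∑ a : Fin r, c a.succ.succ.succ.succ * MvPowerSeries.pderiv R (a.succ.succ.succ : Fin (r + 3))
        (unf R Φ (Fin.castLE (by omega) j)) := by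
    intro j
    rw [I3_unf4]
    have h := ha3 j
    rw [sub_eq_iff_eq_add] at h
    exact h
  have hs : ∀ b : Fin r, c b.succ.succ.succ.succ =
      ∑ i : Fin 3, a3 i * MvPowerSeries.pderiv R (Fin.castLE (by omega) i : Fin (r + 3))
        (unf R Φ b.succ.succ.succ.succ) +
      ∑ a : Fin r, c a.succ.succ.succ.succ * MvPowerSeries.pderiv R (a.succ.succ.succ : Fin (r + 3))
        (unf R Φ b.succ.succ.succ.succ) := by
    intro b
    rw [I3_unfs]
    have h1 : ∑ i : Fin 3, a3 i * MvPowerSeries.pderiv R (Fin.castLE (by omega) i : Fin (r + 3))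
        (MvPowerSeries.X (b.succ.succ.succ : Fin (r + 3))) = 0 := by
      refine Finset.sum_eq_zero fun i _ => ?_
      rw [MvPowerSeries.pderiv_X_of_ne, mul_zero]
      intro h
      have h2 := congrArg Fin.val h
      simp only [Fin.val_succ, Fin.val_castLE] at h2
      omega
    rw [h1, zero_add, Finset.sum_eq_single b]
    · rw [MvPowerSeries.pderiv_X_self, mul_one]
    · intro a _ hab
      rw [MvPowerSeries.pderiv_X_of_ne, mul_zero]
      intro h
      exact hab (Fin.succ_injective _ (Fin.succ_injective _ (Fin.succ_injective _ h.symm)))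
    · intro h
      exact absurd (Finset.mem_univ b) h
  refine Fin.cases (h4 0) (fun j => Fin.cases (h4 1) (fun j => Fin.cases (h4 2) (fun j =>
    Fin.cases (h4 3) (fun a => hs a) j) j) j) j

end Pool.Agent.LibMX34
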