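import Pool.Agent.LibMX34.IDefs

set_option autoImplicit false

/-! ROW MX34 I4 (SHORT/MEDIUM). Basic facts on `atZero`.
PLAN. Compare Pool/Agent/LibMC10/R9.lean and Pool/Agent/LibMF6/B7.lean, B10.lean (same facts for `sp`, `sO`; `sp k` there is the same map as `atZero k`): you may
import and cite them. sV is the algebraMap of PowerSeries.X (MvPowerSeries.algebraMap_apply / C). at_sub: `MvPowerSeries.map` commutes with subst
(coefficientwise for polynomials and truncation, or `MvPowerSeries.map_subst`; compare LibMF6/B7 `T1_sp` and its lemmas). -/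

namespace Pool.Agent.LibMX34

private theorem I4_coeff (k : Type) [Field k] {σ : Type} (z : MvPowerSeries σ (PowerSeries k))
    (e : σ →₀ ℕ) : MvPowerSeries.coeff e (atZero k z) =
      PowerSeries.constantCoeff (MvPowerSeries.coeff e z) := by
  unfold atZero
  rw [MvPowerSeries.coeff_map]

theorem sE_eq (k : Type) [Field k] (σ : Type) : sE k (MvPowerSeries σ (PowerSeries k)) = sV k := by
  unfold sE sV
  rw [MvPowerSeries.algebraMap_apply]
  rfl

theorem sV_not_unit (k : Type) [Field k] (σ : Type) : ¬ IsUnit (sV k : MvPowerSeries σ (PowerSeries k)) := by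
  intro h
  have h1 := h.map (MvPowerSeries.constantCoeff : MvPowerSeries σ (PowerSeries k) →+* PowerSeries k)
  unfold sV at h1
  rw [MvPowerSeries.constantCoeff_C] at h1
  exact PowerSeries.X_prime.not_isUnit h1

theorem sV_reg (k : Type) [Field k] (σ : Type) (a : MvPowerSeries σ (PowerSeries k)) (h : sV k * a = 0) : a = 0 := by
  ext1 e
  have h1 := congrArg (MvPowerSeries.coeff e) h
  unfold sV at h1
  rw [MvPowerSeries.coeff_C_mul, map_zero] at h1
  rw [map_zero]
  rcases mul_eq_zero.mp h1 with h2 | h2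
  · exact absurd h2 PowerSeries.X_ne_zero
  · exact h2

theorem at_alg (k : Type) [Field k] (σ : Type) (c : PowerSeries k) :
    atZero k (algebraMap (PowerSeries k) (MvPowerSeries σ (PowerSeries k)) c) =
      algebraMap k (MvPowerSeries σ k) (PowerSeries.constantCoeff c) := by
  unfold atZero
  rw [MvPowerSeries.algebraMap_apply, MvPowerSeries.algebraMap_apply, MvPowerSeries.map_C]
  rfl

theorem at_surj (k : Type) [Field k] (σ : Type) : Function.Surjective (atZero k : MvPowerSeries σ (PowerSeries k) →+* MvPowerSeries σ k) := by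
  intro z
  refine ⟨MvPowerSeries.map PowerSeries.C z, ?_⟩
  ext e
  rw [I4_coeff, MvPowerSeries.coeff_map, PowerSeries.constantCoeff_C]

theorem at_ker (k : Type) [Field k] (σ : Type) (a : MvPowerSeries σ (PowerSeries k)) (h : atZero k a = 0) :
    ∃ b, a = sV k * b := by
  have h1 : ∀ n : σ →₀ ℕ, ∃ c : PowerSeries k, MvPowerSeries.coeff n a = PowerSeries.X * c := by
    intro n
    have h2 : PowerSeries.constantCoeff (MvPowerSeries.coeff n a) = 0 := by
      rw [← I4_coeff, h, map_zero]
    exact PowerSeries.X_dvd_iff.mpr h2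
  choose c hc using h1
  obtain ⟨c', hc'⟩ : ∃ c' : MvPowerSeries σ (PowerSeries k), ∀ e, MvPowerSeries.coeff e c' = c e :=
    ⟨c, fun e => rfl⟩
  refine ⟨c', ?_⟩
  ext1 n
  unfold sV
  rw [hc n, MvPowerSeries.coeff_C_mul, hc']

theorem at_pderiv (k : Type) [Field k] {σ : Type} (i : σ) (a : MvPowerSeries σ (PowerSeries k)) :
    atZero k (MvPowerSeries.pderiv (PowerSeries k) i a) = MvPowerSeries.pderiv k i (atZero k a) := by
  ext e
  rw [I4_coeff, MvPowerSeries.coeff_pderiv, MvPowerSeries.coeff_pderiv, I4_coeff, map_mul,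
    map_add, map_one, map_natCast]

theorem at_sub (k : Type) [Field k] {σ τ : Type} [Finite σ] [Finite τ] (F : σ → MvPowerSeries τ (PowerSeries k))
    (hF : ∀ j, MvPowerSeries.constantCoeff (F j) = 0) (h : MvPowerSeries σ (PowerSeries k)) :
    atZero k (MvPowerSeries.subst F h) = MvPowerSeries.subst (fun j => atZero k (F j)) (atZero k h) := by
  have ha : MvPowerSeries.HasSubst F := MvPowerSeries.hasSubst_of_constantCoeff_zero hF
  exact MvPowerSeries.map_subst ha (h := PowerSeries.constantCoeff) h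

theorem at_unf (k : Type) [Field k] {r : ℕ} (Φ : Fin 4 → MvPowerSeries (Fin (r + 3)) (PowerSeries k)) (j : Fin (r + 4)) :
    atZero k (unf (PowerSeries k) Φ j) = unf k (fun j => atZero k (Φ j)) j := by
  unfold unf
  refine Fin.cases ?_ (fun j => ?_) j
  · rfl
  refine Fin.cases ?_ (fun j => ?_) j
  · rfl
  refine Fin.cases ?_ (fun j => ?_) j
  · rfl
  refine Fin.cases ?_ (fun j => ?_) j
  · rfl
  simp only [Fin.cons_succ]
  unfold atZero
  exact MvPowerSeries.map_X _ _

private theorem I4_mn_jac (k : Type) [Field k] {r : ℕ} (Φ : Fin 4 → MvPowerSeries (Fin (r + 3)) (PowerSeries k)) (j : Fin 4) :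
    atZero k (mn (jacM (PowerSeries k) Φ) j) = mn (jacM k fun j => atZero k (Φ j)) j := by
  unfold mn
  rw [map_mul, map_pow, map_neg, map_one, RingHom.map_det]
  congr 2
  ext1 a b
  simp only [RingHom.mapMatrix_apply, Matrix.map_apply, Matrix.of_apply]
  unfold jacM
  exact at_pderiv k _ _

theorem at_mfull (k : Type) [Field k] {r : ℕ} (Φ : Fin 4 → MvPowerSeries (Fin (r + 3)) (PowerSeries k)) (j : Fin (r + 4)) :
    atZero k (mfull (PowerSeries k) Φ j) = mfull k (fun j => atZero k (Φ j)) j := by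
  unfold mfull
  refine Fin.cases ?_ (fun j => ?_) j
  · exact I4_mn_jac k Φ 0
  refine Fin.cases ?_ (fun j => ?_) j
  · exact I4_mn_jac k Φ 1
  refine Fin.cases ?_ (fun j => ?_) j
  · exact I4_mn_jac k Φ 2
  refine Fin.cases ?_ (fun j => ?_) j
  · exact I4_mn_jac k Φ 3
  simp only [Fin.cons_succ]
  rw [map_neg, map_sum]
  congr 1
  refine Finset.sum_congr rfl (fun i _ => ?_)
  rw [map_mul, I4_mn_jac, at_pderiv]

theorem unf_const {R : Type} [CommRing R] {r : ℕ} (Φ : Fin 4 → MvPowerSeries (Fin (r + 3)) R)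
    (h : ∀ j, MvPowerSeries.constantCoeff (Φ j) = 0) (j : Fin (r + 4)) : MvPowerSeries.constantCoeff (unf R Φ j) = 0 := by
  unfold unf
  refine Fin.cases ?_ (fun j => ?_) j
  · exact h 0
  refine Fin.cases ?_ (fun j => ?_) j
  · exact h 1
  refine Fin.cases ?_ (fun j => ?_) j
  · exact h 2
  refine Fin.cases ?_ (fun j => ?_) j
  · exact h 3
  simp only [Fin.cons_succ]
  exact MvPowerSeries.constantCoeff_X _

/-- `W` is `tf(θ) + wf(θ)` -/
theorem W_eq (k : Type) [Field k] {n p : ℕ} (f : Fin p → MvPowerSeries (Fin n) k) (hf : MvPowerSeries.HasSubst f)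
    (v : Fin p → MvPowerSeries (Fin n) k) :
    v ∈ W (MvPowerSeries.substAlgHom hf : MvPowerSeries (Fin p) k →ₐ[k] MvPowerSeries (Fin n) k) (fun (i : Fin n) (j : Fin p) => MvPowerSeries.pderiv k i (f j)) ↔
      v ∈ tangentSource k f ⊔ tangentTarget k f := by
  constructor
  · rintro ⟨a, η, h⟩
    refine Submodule.mem_sup.mpr ⟨_, Submodule.subset_span ⟨a, rfl⟩, _, Submodule.subset_span ⟨η, rfl⟩, ?_⟩
    funext j
    rw [Pi.add_apply, h j, MvPowerSeries.substAlgHom_apply]
  · intro h
    have h1 : tangentSource k f ⊔ tangentTarget k f ≤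
        W (MvPowerSeries.substAlgHom hf : MvPowerSeries (Fin p) k →ₐ[k] MvPowerSeries (Fin n) k)
          (fun (i : Fin n) (j : Fin p) => MvPowerSeries.pderiv k i (f j)) := by
      refine sup_le ?_ ?_
      · refine Submodule.span_le.mpr ?_
        rintro _ ⟨ξ, rfl⟩
        refine ⟨ξ, 0, fun j => ?_⟩
        rw [Pi.zero_apply, map_zero, add_zero]
      · refine Submodule.span_le.mpr ?_
        rintro _ ⟨η, rfl⟩
        refine ⟨0, η, fun j => ?_⟩
        rw [MvPowerSeries.substAlgHom_apply]
        simp only [Pi.zero_apply, zero_mul, Finset.sum_const_zero, zero_add]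
    exact h1 h

end Pool.Agent.LibMX34
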