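import Pool.Agent.LibMX34.K9
import Pool.Agent.LibMX34.I1
import Pool.Agent.LibMX34.I3
import Pool.Agent.LibMX34.I4
import Pool.Agent.LibMF6.B4

set_option autoImplicit false

/-! MX34 I8 (assembly, helper34): general torsion element `T`. -/

namespace Pool.Agent.LibMX34

open MvPowerSeries in
theorem mond_lt_T (k : Type) [Field k] [CharZero k] {r : ℕ} (Φ : Fin 4 → MvPowerSeries (Fin (r + 3)) (PowerSeries k))
    (G : MvPowerSeries (Fin (r + 4)) (PowerSeries k)) (hgeo : Geo k Φ G)
    (hfin : Module.Finite k (T1 k (unf k fun j => atZero k (Φ j))))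
    (T : MvPowerSeries (Fin (r + 4)) (PowerSeries k)) (ρ : Fin (r + 4) → MvPowerSeries (Fin (r + 3)) (PowerSeries k))
    (hT : MvPowerSeries.subst (unf (PowerSeries k) Φ) T =
      ∑ j, MvPowerSeries.subst (unf (PowerSeries k) Φ) (MvPowerSeries.pderiv (PowerSeries k) j G) * ρ j)
    (R : Fin (r + 4) → MvPowerSeries (Fin (r + 4)) (PowerSeries k))
    (hR : sV k * T = ∑ j, R j * MvPowerSeries.pderiv (PowerSeries k) j G)
    (hne : (fun j => atZero k (ρ j)) ∉
      tangentSource k (unf k fun j => atZero k (Φ j)) ⊔ tangentTarget k (unf k fun j => atZero k (Φ j))) :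
    Module.rank (PowerSeries k) (Localization.Away (Ideal.Quotient.mk
      (Ideal.span (Set.range fun j => MvPowerSeries.pderiv (PowerSeries k) j G)) G)) < Cardinal.aleph0 ∧
    Module.finrank (PowerSeries k) (Localization.Away (Ideal.Quotient.mk
      (Ideal.span (Set.range fun j => MvPowerSeries.pderiv (PowerSeries k) j G)) G)) <
      Module.finrank k (T1 k (unf k fun j => atZero k (Φ j))) := by
  classical
  have hconst := unf_const Φ hgeo.const
  have hS : HasSubst (unf (PowerSeries k) Φ) := hasSubst_of_constantCoeff_zero hconst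
  have hconst0 : ∀ j, constantCoeff (unf k (fun j => atZero k (Φ j)) j) = 0 := by
    apply unf_const
    intro j
    show constantCoeff (MvPowerSeries.map (PowerSeries.constantCoeff (R := k)) (Φ j)) = 0
    rw [MvPowerSeries.constantCoeff_map, hgeo.const, map_zero]
  have hS0 : HasSubst (unf k fun j => atZero k (Φ j)) := hasSubst_of_constantCoeff_zero hconst0
  set F : MvPowerSeries (Fin (r + 4)) (PowerSeries k) →ₐ[PowerSeries k] MvPowerSeries (Fin (r + 3)) (PowerSeries k) :=
    substAlgHom hS with hF
  set f : MvPowerSeries (Fin (r + 4)) k →ₐ[k] MvPowerSeries (Fin (r + 3)) k := substAlgHom hS0 with hf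
  have hFe : ∀ a, F a = subst (unf (PowerSeries k) Φ) a := fun a => substAlgHom_apply hS a
  have hfe : ∀ a, f a = subst (unf k fun j => atZero k (Φ j)) a := fun a => substAlgHom_apply hS0 a
  obtain ⟨eA, hregA⟩ := hgeo.regA
  obtain ⟨e0, hreg0⟩ := hgeo.reg0
  obtain ⟨κ, κ', heuler⟩ := hgeo.euler
  -- the conductor
  obtain ⟨lam, hlam⟩ := full_lam Φ eA hregA (fun j => F (pderiv (PowerSeries k) j G)) (by
    intro i
    have h1 := Pool.Agent.LibMF6.pderiv_subst (unf (PowerSeries k) Φ) hconst G i
    rw [hgeo.FG, map_zero] at h1
    rw [h1]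
    exact Finset.sum_congr rfl fun j _ => by rw [hFe])
  have hD0 : ∀ (i : Fin (r + 3)) (j : Fin (r + 4)), atZero k (pderiv (PowerSeries k) i (unf (PowerSeries k) Φ j)) =
      pderiv k i (unf k (fun j => atZero k (Φ j)) j) := by
    intro i j
    rw [at_pderiv, at_unf]
  have hspF : ∀ a, atZero k (F a) = f (atZero k a) := by
    intro a
    rw [hFe, hfe, at_sub k _ hconst]
    congr 1
    funext j
    exact at_unf k Φ j
  have core : Core F f (atZero k) (atZero k) (fun (i : Fin (r + 3)) (j : Fin (r + 4)) => pderiv (PowerSeries k) i (unf (PowerSeries k) Φ j))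
      (fun j => dS k (unf (PowerSeries k) Φ j)) (mfull (PowerSeries k) Φ) lam G (dS k G) κ
      (fun j => pderiv (PowerSeries k) j G) κ' := by
    refine
      { noeth := inferInstance
        loc := inferInstance
        s_mem := by rw [sE_eq]; exact sV_not_unit k _
        s_reg := by
          intro b hb
          rw [sE_eq] at hb
          exact sV_reg k _ b hb
        dom := NoZeroDivisors.to_isDomain _
        spO_C := at_alg k _
        spB_C := at_alg k _
        spO_surj := at_surj k _
        spB_surj := at_surj k _
        spO_ker := by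
          intro a ha
          rw [sE_eq]
          exact at_ker k _ a ha
        spB_ker := by
          intro a ha
          rw [sE_eq]
          exact at_ker k _ a ha
        sp_F := hspF
        FG := by rw [hFe]; exact hgeo.FG
        ker₀ := by
          intro h hh
          rw [hfe] at hh
          obtain ⟨c, hc⟩ := hgeo.ker0 h hh
          exact ⟨c, by rw [hc, mul_comm]⟩
        F_dG := hlam
        F_dGs := by
          have h1 := dS_subst (unf (PowerSeries k) Φ) hconst G
          rw [hgeo.FG] at h1
          have h0 : dS k (0 : MvPowerSeries (Fin (r + 3)) (PowerSeries k)) = 0 := by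
            have := dS_add (0 : MvPowerSeries (Fin (r + 3)) (PowerSeries k)) 0
            rw [add_zero] at this
            exact (left_eq_add.1 this)
          rw [h0] at h1
          rw [hFe]
          have h3 : ∑ j, subst (unf (PowerSeries k) Φ) (pderiv (PowerSeries k) j G) * dS k (unf (PowerSeries k) Φ j) =
              lam * ∑ j, dS k (unf (PowerSeries k) Φ j) * mfull (PowerSeries k) Φ j := by
            rw [Finset.mul_sum]
            refine Finset.sum_congr rfl fun j _ => ?_
            rw [← hFe, hlam j]
            ring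
          linear_combination (-1 : MvPowerSeries (Fin (r + 3)) (PowerSeries k)) * h1 + (-1 : MvPowerSeries (Fin (r + 3)) (PowerSeries k)) * h3
        lam_ne := by
          intro h0
          obtain ⟨j, hj⟩ := hgeo.reduced
          apply hj
          apply hgeo.ker0
          rw [← hfe, ← at_pderiv, ← hspF, hlam j, map_mul, h0, zero_mul]
        minors := full_rel Φ
        hb := by
          intro c hc
          have hc' : ∑ j, c j * mfull k (fun j => atZero k (Φ j)) j = 0 := by
            rw [← hc]
            exact Finset.sum_congr rfl fun j _ => by rw [at_mfull]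
          obtain ⟨a, ha⟩ := full_hb (fun j => atZero k (Φ j)) e0 hreg0 c hc'
          refine ⟨a, fun j => ?_⟩
          rw [ha j]
          exact Finset.sum_congr rfl fun i _ => by rw [hD0]
        euler := by
          rw [sE_eq]
          exact heuler }
  have hD0' : (fun (i : Fin (r + 3)) (j : Fin (r + 4)) => atZero k (pderiv (PowerSeries k) i (unf (PowerSeries k) Φ j))) =
      (fun (i : Fin (r + 3)) (j : Fin (r + 4)) => pderiv k i (unf k (fun j => atZero k (Φ j)) j)) := by
    funext i j
    exact hD0 i j
  have hW : W f (fun (i : Fin (r + 3)) (j : Fin (r + 4)) => atZero k (pderiv (PowerSeries k) i (unf (PowerSeries k) Φ j))) =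
      tangentSource k (unf k fun j => atZero k (Φ j)) ⊔ tangentTarget k (unf k fun j => atZero k (Φ j)) := by
    rw [hD0']
    ext v
    exact W_eq k (unf k fun j => atZero k (Φ j)) hS0 v
  have hfin' : Module.Finite k ((Fin (r + 4) → MvPowerSeries (Fin (r + 3)) k) ⧸
      W f (fun (i : Fin (r + 3)) (j : Fin (r + 4)) => atZero k (pderiv (PowerSeries k) i (unf (PowerSeries k) Φ j)))) := by
    rw [hW]
    exact hfin
  have main := core_lt_T core (hfin := hfin') T ρ (by
    rw [hFe, hT, Finset.mul_sum]
    refine Finset.sum_congr rfl fun j _ => ?_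
    rw [← hFe, hlam j]
    ring) (by
    rw [sE_eq, hR]
    exact Ideal.sum_mem _ fun j _ => Ideal.mul_mem_left _ _ (Ideal.subset_span ⟨j, rfl⟩)) (by
    rw [hW]
    exact hne)
  rw [hW] at main
  exact main

end Pool.Agent.LibMX34
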