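import Pool.Agent.LibMX34.RDefs2

set_option autoImplicit false

/-! ROW MX34 RA (MEDIUM). Compatibility of evaluation and substitution; reduction mod s.
PLAN. sub_aeval: both sides are ring homs MvPolynomial (Fin 13) ℤ → MvPowerSeries (Fin (r+3)) (PowerSeries k) (substAlgHom of the HasSubst family
`unf (PowerSeries k) (PhiS k T σ)`, its constant coefficients are 0: phi_const + unf_const of I4) composed with aeval; `MvPolynomial.ringHom_ext'` /
`algHom_ext`; generators: X (castLE j) ↦ unf .. (castLE j) = PhiS j (j : Fin 4 by fin_cases, Fin.cons), LO t ↦ LB t (subst_X, subst of integer constants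
and of sV = C X, `MvPowerSeries.subst_C`...). The index facts: Fin.append_left / append_right; every i : Fin 13 is castAdd or natAdd (Fin.addCases).
at_aevalO, at_aevalB: atZero is a ring hom (MvPowerSeries.map), so atZero (aeval p h) = aeval (atZero ∘ p) h (MvPolynomial.map_aeval / hom_ext).
lift0 a := MvPowerSeries.map (PowerSeries.C) a is the s-free lift. -/

namespace Pool.Agent.LibMX34

/-- the `s`-free lift -/
noncomputable def lift0 (k : Type) [Field k] {ι : Type} : MvPowerSeries ι k →+* MvPowerSeries ι (PowerSeries k) :=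
  MvPowerSeries.map (PowerSeries.C (R := k))

theorem at_lift0 (k : Type) [Field k] {ι : Type} (a : MvPowerSeries ι k) : atZero k (lift0 k a) = a := by
  refine MvPowerSeries.ext fun e => ?_
  unfold atZero lift0
  rw [MvPowerSeries.coeff_map, MvPowerSeries.coeff_map, PowerSeries.constantCoeff_C]

theorem dS_lift0 (k : Type) [Field k] {ι : Type} (a : MvPowerSeries ι k) : dS k (lift0 k a) = 0 := by
  refine MvPowerSeries.ext fun e => ?_
  have h : MvPowerSeries.coeff e (dS k (lift0 k a)) = PowerSeries.derivative k (MvPowerSeries.coeff e (lift0 k a)) := rfl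
  rw [h]
  unfold lift0
  rw [MvPowerSeries.coeff_map, PowerSeries.derivative_C]
  rfl

/-- `(d/ds (s w))(0) = w(0)` -/
theorem at_dS_sV (k : Type) [Field k] {ι : Type} (w : MvPowerSeries ι (PowerSeries k)) : atZero k (dS k (sV k * w)) = atZero k w := by
  refine MvPowerSeries.ext fun e => ?_
  have h : MvPowerSeries.coeff e (dS k (sV k * w)) = PowerSeries.derivative k (MvPowerSeries.coeff e (sV k * w)) := rfl
  unfold atZero
  rw [MvPowerSeries.coeff_map, MvPowerSeries.coeff_map, h]
  unfold sV
  rw [MvPowerSeries.coeff_C_mul, Derivation.leibniz, PowerSeries.derivative_X, smul_eq_mul, smul_eq_mul, map_add, map_mul,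
    map_mul, PowerSeries.constantCoeff_X, map_one, zero_mul, mul_one, zero_add]

section

variable (k : Type) [Field k] {r : ℕ} (T : Fin 9 → Fin r → ℤ) (σ : Fin 9 → ℤ)

private theorem RA_cc {R B : Type} [CommRing R] [CommRing B] [Algebra ℤ B] (c : B →+* R) (p : Fin 12 → B)
    (h0 : c (p 0) = 0) (h1 : c (p 1) = 0) (h2 : c (p 2) = 0) (j : Fin 4) :
    c (MvPolynomial.aeval p (FU j)) = 0 := by
  fin_cases j
  · change c (MvPolynomial.aeval p (MvPolynomial.X 0 ^ 2 + MvPolynomial.X 3 * MvPolynomial.X 1 + MvPolynomial.X 4 * MvPolynomial.X 2 : MvPolynomial (Fin 12) ℤ)) = 0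
    simp only [map_add, map_mul, map_pow, MvPolynomial.aeval_X, h0, h1, h2]
    ring
  · change c (MvPolynomial.aeval p (MvPolynomial.X 1 ^ 2 + MvPolynomial.X 0 * MvPolynomial.X 2 + MvPolynomial.X 5 * MvPolynomial.X 0 + MvPolynomial.X 6 * MvPolynomial.X 2 : MvPolynomial (Fin 12) ℤ)) = 0
    simp only [map_add, map_mul, map_pow, MvPolynomial.aeval_X, h0, h1, h2]
    ring
  · change c (MvPolynomial.aeval p (MvPolynomial.X 2 ^ 2 + MvPolynomial.X 0 * MvPolynomial.X 1 + MvPolynomial.X 7 * MvPolynomial.X 0 + MvPolynomial.X 8 * MvPolynomial.X 1 : MvPolynomial (Fin 12) ℤ)) = 0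
    simp only [map_add, map_mul, map_pow, MvPolynomial.aeval_X, h0, h1, h2]
    ring
  · change c (MvPolynomial.aeval p (MvPolynomial.X 1 * MvPolynomial.X 2 + MvPolynomial.X 9 * MvPolynomial.X 0 + MvPolynomial.X 10 * MvPolynomial.X 1 + MvPolynomial.X 11 * MvPolynomial.X 2 : MvPolynomial (Fin 12) ℤ)) = 0
    simp only [map_add, map_mul, MvPolynomial.aeval_X, h0, h1, h2]
    ring

private theorem RA_pB_left (i : Fin 3) : pB k T σ (Fin.castAdd 9 i) = MvPowerSeries.X (Fin.castLE (by omega) i) :=
  Fin.append_left _ _ i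

private theorem RA_pB_right (t : Fin 9) : pB k T σ (Fin.natAdd 3 t) = LB k T σ t :=
  Fin.append_right _ _ t

private theorem RA_pB0_left (i : Fin 3) : pB0 k T (Fin.castAdd 9 i) = MvPowerSeries.X (Fin.castLE (by omega) i) :=
  Fin.append_left _ _ i

private theorem RA_pB0_right (t : Fin 9) : pB0 k T (Fin.natAdd 3 t) = LB0 k T t :=
  Fin.append_right _ _ t

private theorem RA_pO_left (j : Fin 4) : pO k T σ (Fin.castAdd 9 j) = MvPowerSeries.X (Fin.castLE (by omega) j) :=
  Fin.append_left _ _ j

private theorem RA_pO_right (t : Fin 9) : pO k T σ (Fin.natAdd 4 t) = LO k T σ t :=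
  Fin.append_right _ _ t

private theorem RA_pO0_left (j : Fin 4) : pO0 k T (Fin.castAdd 9 j) = MvPowerSeries.X (Fin.castLE (by omega) j) :=
  Fin.append_left _ _ j

private theorem RA_pO0_right (t : Fin 9) : pO0 k T (Fin.natAdd 4 t) = LO0 k T t :=
  Fin.append_right _ _ t

theorem phi_const (j : Fin 4) : MvPowerSeries.constantCoeff (PhiS k T σ j) = 0 := by
  refine RA_cc MvPowerSeries.constantCoeff (pB k T σ) ?_ ?_ ?_ j
  · exact (congrArg _ (RA_pB_left k T σ 0)).trans (MvPowerSeries.constantCoeff_X _)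
  · exact (congrArg _ (RA_pB_left k T σ 1)).trans (MvPowerSeries.constantCoeff_X _)
  · exact (congrArg _ (RA_pB_left k T σ 2)).trans (MvPowerSeries.constantCoeff_X _)

theorem phi0_const (j : Fin 4) : MvPowerSeries.constantCoeff (Phi0 k T j) = 0 := by
  refine RA_cc MvPowerSeries.constantCoeff (pB0 k T) ?_ ?_ ?_ j
  · exact (congrArg _ (RA_pB0_left k T 0)).trans (MvPowerSeries.constantCoeff_X _)
  · exact (congrArg _ (RA_pB0_left k T 1)).trans (MvPowerSeries.constantCoeff_X _)
  · exact (congrArg _ (RA_pB0_left k T 2)).trans (MvPowerSeries.constantCoeff_X _)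

private theorem RA_hom {m : ℕ} {A B : Type} [CommRing A] [CommRing B] [Algebra ℤ A] [Algebra ℤ B] (f : A →+* B)
    (p : Fin m → A) (h : MvPolynomial (Fin m) ℤ) :
    f (MvPolynomial.aeval p h) = MvPolynomial.aeval (fun i => f (p i)) h := by
  have hc : ∀ n : ℤ, f (algebraMap ℤ A n) = algebraMap ℤ B n := fun n => by
    rw [eq_intCast (algebraMap ℤ A), eq_intCast (algebraMap ℤ B), map_intCast]
  exact MvPolynomial.comp_aeval_apply p ({ f with commutes' := hc } : A →ₐ[ℤ] B) h

private theorem RA_at_X {ι : Type} (i : ι) : atZero k (MvPowerSeries.X i : MvPowerSeries ι (PowerSeries k)) = MvPowerSeries.X i := by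
  unfold atZero
  rw [MvPowerSeries.map_X]

private theorem RA_at_sV {ι : Type} : atZero k (sV k : MvPowerSeries ι (PowerSeries k)) = 0 := by
  unfold atZero sV
  rw [MvPowerSeries.map_C, PowerSeries.constantCoeff_X, map_zero]

theorem at_aevalB (h : MvPolynomial (Fin 12) ℤ) : atZero k (MvPolynomial.aeval (pB k T σ) h) = MvPolynomial.aeval (pB0 k T) h := by
  rw [RA_hom]
  congr 2
  funext i
  refine Fin.addCases (m := 3) (n := 9) (fun i => ?_) (fun t => ?_) i
  · rw [RA_pB_left, RA_pB0_left, RA_at_X]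
  · rw [RA_pB_right, RA_pB0_right]
    unfold LB LB0
    simp only [map_add, map_sum, map_mul, map_intCast, RA_at_X, RA_at_sV, mul_zero, add_zero]

theorem at_aevalO (h : MvPolynomial (Fin 13) ℤ) : atZero k (MvPolynomial.aeval (pO k T σ) h) = MvPolynomial.aeval (pO0 k T) h := by
  rw [RA_hom]
  congr 2
  funext i
  refine Fin.addCases (m := 4) (n := 9) (fun i => ?_) (fun t => ?_) i
  · rw [RA_pO_left, RA_pO0_left, RA_at_X]
  · rw [RA_pO_right, RA_pO0_right]
    unfold LO LO0
    simp only [map_add, map_sum, map_mul, map_intCast, RA_at_X, RA_at_sV, mul_zero, add_zero]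

theorem at_phi (j : Fin 4) : atZero k (PhiS k T σ j) = Phi0 k T j := at_aevalB k T σ (FU j)

private theorem RA_hs : MvPowerSeries.HasSubst (unf (PowerSeries k) (PhiS k T σ)) :=
  MvPowerSeries.hasSubst_of_constantCoeff_zero (unf_const _ (phi_const k T σ))

theorem sub_aeval (h : MvPolynomial (Fin 13) ℤ) :
    MvPowerSeries.subst (unf (PowerSeries k) (PhiS k T σ)) (MvPolynomial.aeval (pO k T σ) h) = MvPolynomial.aeval (pB k T σ) (FUs h) := by
  have hs := RA_hs k T σ
  have e : ∀ a, MvPowerSeries.subst (unf (PowerSeries k) (PhiS k T σ)) a =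
      (MvPowerSeries.substAlgHom hs : MvPowerSeries (Fin (r + 4)) (PowerSeries k) →ₐ[PowerSeries k] _) a := by
    intro a
    rw [MvPowerSeries.coe_substAlgHom]
  have e2 : ∀ a, MvPowerSeries.subst (unf (PowerSeries k) (PhiS k T σ)) a =
      (MvPowerSeries.substAlgHom hs : MvPowerSeries (Fin (r + 4)) (PowerSeries k) →ₐ[PowerSeries k]
        MvPowerSeries (Fin (r + 3)) (PowerSeries k)).toRingHom a := e
  have hR : MvPolynomial.aeval (pB k T σ) (FUs h) = MvPolynomial.aeval (fun i => MvPolynomial.aeval (pB k T σ)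
      ((Fin.append FU (fun t : Fin 9 => (MvPolynomial.X (Fin.natAdd 3 t) : MvPolynomial (Fin 12) ℤ)) :
        Fin (4 + 9) → MvPolynomial (Fin 12) ℤ) i)) h := by
    unfold FUs
    exact MvPolynomial.comp_aeval_apply _ _ h
  rw [e2, RA_hom, hR]
  congr 2
  funext i
  rw [← e2]
  refine Fin.addCases (m := 4) (n := 9) (fun j => ?_) (fun t => ?_) i
  · rw [RA_pO_left, Fin.append_left, MvPowerSeries.subst_X hs]
    fin_cases j <;> rfl
  · rw [RA_pO_right, Fin.append_right, MvPolynomial.aeval_X, RA_pB_right]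
    unfold LO LB
    rw [e, map_add, map_sum, map_mul, map_intCast]
    congr 1
    · refine Finset.sum_congr rfl fun a _ => ?_
      rw [map_mul, map_intCast, ← e, MvPowerSeries.subst_X hs]
      rfl
    · congr 1
      have hC : (sV k : MvPowerSeries (Fin (r + 4)) (PowerSeries k)) = algebraMap (PowerSeries k) _ PowerSeries.X := by
        unfold sV
        rw [MvPowerSeries.algebraMap_apply, Algebra.algebraMap_self, RingHom.id_apply]
      have hC2 : (sV k : MvPowerSeries (Fin (r + 3)) (PowerSeries k)) = algebraMap (PowerSeries k) _ PowerSeries.X := by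
        unfold sV
        rw [MvPowerSeries.algebraMap_apply, Algebra.algebraMap_self, RingHom.id_apply]
      rw [hC, hC2, AlgHom.commutes]

end

end Pool.Agent.LibMX34
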