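import Pool.Agent.LibMX34.RD

set_option autoImplicit false

/-! MP_ed98ad_ag (Mond's conjecture is false): the flag of the example,
`v = (-u1, u2, u1 + s, u3, -u2, 3u3 + 2u4 + s, u4, u5, u6)`. -/

namespace Pool.Agent.LibMX34

/-- the coefficients of `u1, .., u6` in `v1, .., v9` -/
def TA : Fin 9 → Fin 6 → ℤ :=
  ![![-1, 0, 0, 0, 0, 0],
    ![0, 1, 0, 0, 0, 0],
    ![1, 0, 0, 0, 0, 0],
    ![0, 0, 1, 0, 0, 0],
    ![0, -1, 0, 0, 0, 0],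
    ![0, 0, 3, 2, 0, 0],
    ![0, 0, 0, 1, 0, 0],
    ![0, 0, 0, 0, 1, 0],
    ![0, 0, 0, 0, 0, 1]]

/-- the coefficient of `s` in `v1, .., v9` -/
def sA : Fin 9 → ℤ := ![0, 0, 1, 0, 0, 1, 0, 0, 0]

end Pool.Agent.LibMX34
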