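import Pool.Agent.LibMX34.RDefs

set_option autoImplicit false

/-! MP_ed98ad_ag, block R: sections of the universal germ. A flag is given by `T : Fin 9 → Fin r → ℤ` and `σ : Fin 9 → ℤ`: `v_t = ∑ T_ta u_a + σ_t s`. -/

namespace Pool.Agent.LibMX34

section

variable (k : Type) [Field k] {r : ℕ} (T : Fin 9 → Fin r → ℤ) (σ : Fin 9 → ℤ)

/-- the linear form `v_t` in `k[[s]][[Y, u]]` -/
noncomputable def LO (t : Fin 9) : MvPowerSeries (Fin (r + 4)) (PowerSeries k) :=
  ∑ a, (T t a : MvPowerSeries (Fin (r + 4)) (PowerSeries k)) * MvPowerSeries.X (a.succ.succ.succ.succ : Fin (r + 4)) +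
    (σ t : MvPowerSeries (Fin (r + 4)) (PowerSeries k)) * sV k

/-- the linear form `v_t` in `k[[s]][[x, y, z, u]]` -/
noncomputable def LB (t : Fin 9) : MvPowerSeries (Fin (r + 3)) (PowerSeries k) :=
  ∑ a, (T t a : MvPowerSeries (Fin (r + 3)) (PowerSeries k)) * MvPowerSeries.X (a.succ.succ.succ : Fin (r + 3)) +
    (σ t : MvPowerSeries (Fin (r + 3)) (PowerSeries k)) * sV k

/-- the linear form `v_t` at `s = 0` in `k[[Y, u]]` -/
noncomputable def LO0 (t : Fin 9) : MvPowerSeries (Fin (r + 4)) k :=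
  ∑ a, (T t a : MvPowerSeries (Fin (r + 4)) k) * MvPowerSeries.X (a.succ.succ.succ.succ : Fin (r + 4))

/-- the linear form `v_t` at `s = 0` in `k[[x, y, z, u]]` -/
noncomputable def LB0 (t : Fin 9) : MvPowerSeries (Fin (r + 3)) k :=
  ∑ a, (T t a : MvPowerSeries (Fin (r + 3)) k) * MvPowerSeries.X (a.succ.succ.succ : Fin (r + 3))

/-- the point `(Y, v(u, s))` -/
noncomputable def pO : Fin 13 → MvPowerSeries (Fin (r + 4)) (PowerSeries k) :=
  (Fin.append (fun j : Fin 4 => MvPowerSeries.X (Fin.castLE (by omega) j)) (LO k T σ) : Fin (4 + 9) → _)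

/-- the point `(x, y, z, v(u, s))` -/
noncomputable def pB : Fin 12 → MvPowerSeries (Fin (r + 3)) (PowerSeries k) :=
  (Fin.append (fun i : Fin 3 => MvPowerSeries.X (Fin.castLE (by omega) i)) (LB k T σ) : Fin (3 + 9) → _)

/-- the point `(Y, v(u, 0))` -/
noncomputable def pO0 : Fin 13 → MvPowerSeries (Fin (r + 4)) k :=
  (Fin.append (fun j : Fin 4 => MvPowerSeries.X (Fin.castLE (by omega) j)) (LO0 k T) : Fin (4 + 9) → _)

/-- the point `(x, y, z, v(u, 0))` -/
noncomputable def pB0 : Fin 12 → MvPowerSeries (Fin (r + 3)) k :=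
  (Fin.append (fun i : Fin 3 => MvPowerSeries.X (Fin.castLE (by omega) i)) (LB0 k T) : Fin (3 + 9) → _)

/-- the family `F` over `k[[s]]` -/
noncomputable def PhiS (j : Fin 4) : MvPowerSeries (Fin (r + 3)) (PowerSeries k) := MvPolynomial.aeval (pB k T σ) (FU j)

/-- the germ `f` -/
noncomputable def Phi0 (j : Fin 4) : MvPowerSeries (Fin (r + 3)) k := MvPolynomial.aeval (pB0 k T) (FU j)

/-- the equation of the image of `F` -/
noncomputable def GS : MvPowerSeries (Fin (r + 4)) (PowerSeries k) := MvPolynomial.aeval (pO k T σ) GG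

/-- index of `v_t` among the variables `Y, v` -/
def ivO (t : Fin 9) : Fin 13 := Fin.natAdd 4 t

/-- index of `v_t` among the variables `x, y, z, v` -/
def ivB (t : Fin 9) : Fin 12 := Fin.natAdd 3 t

/-- index of `Y_j` among the variables `Y, v` -/
def ijO (j : Fin 4) : Fin 13 := Fin.castLE (by omega) j

end

end Pool.Agent.LibMX34
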