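import Pool.Agent.LibMX34.I8

set_option autoImplicit false

/-! MP_ed98ad_ag (Mond's conjecture is false), block R: the universal germ
`Y1 = x^2 + v1 y + v2 z, Y2 = y^2 + x z + v3 x + v4 z, Y3 = z^2 + x y + v5 x + v6 y, Y4 = y z + v7 x + v8 y + v9 z`.
Source ring `ℤ[x,y,z,v1..v9]` (variables 0,1,2; 3..11), target ring `ℤ[Y1..Y4,v1..v9]` (variables 0..3; 4..12). Multiplication by `x, y, z` on the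
basis `x^a y^b z^c` (order 1, z, y, yz, x, xz, xy, xyz; row = basis element) over `ℤ[v, Y1, Y2, Y3]`. -/

namespace Pool.Agent.LibMX34

open MvPolynomial in
/-- the universal germ `Y1, .., Y4` -/
noncomputable def FU : Fin 4 → MvPolynomial (Fin 12) ℤ :=
  ![X 0 ^ 2 + X 3 * X 1 + X 4 * X 2,
    X 1 ^ 2 + X 0 * X 2 + X 5 * X 0 + X 6 * X 2,
    X 2 ^ 2 + X 0 * X 1 + X 7 * X 0 + X 8 * X 1,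
    X 1 * X 2 + X 9 * X 0 + X 10 * X 1 + X 11 * X 2]

section

variable {S : Type} [CommRing S] (v : Fin 9 → S) (Y : Fin 3 → S)

/-- multiplication by `x` -/
def MX : Matrix (Fin 8) (Fin 8) S :=
  !![0, 0, 0, 0, 1, 0, 0, 0;
    0, 0, 0, 0, 0, 1, 0, 0;
    0, 0, 0, 0, 0, 0, 1, 0;
    0, 0, 0, 0, 0, 0, 0, 1;
    Y 0, -v 1, -v 0, 0, 0, 0, 0, 0;
    -v 1*Y 2, Y 0, v 1*v 5, -v 0, v 1*v 4, 0, v 1, 0;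
    -v 0*Y 1, v 0*v 3, Y 0, -v 1, v 0*v 2, v 0, 0, 0;
    v 0^2*Y 1 + v 0*v 3*Y 2 - v 0*v 4*Y 0 + v 1^2*Y 2 - v 1*v 2*Y 0 + v 1*v 5*Y 1, -v 0^2*v 3 + v 0*v 1*v 4 - v 0*Y 1 + v 1^2*v 2 - v 1*v 3*v 5 - v 1*Y 0, v 0^2*v 4 + v 0*v 1*v 2 - v 0*v 3*v 5 - v 0*Y 0 - v 1^2*v 5 - v 1*Y 2, 2*v 0*v 1 + Y 0, -v 0^2*v 2 - v 0*v 3*v 4 + v 0*Y 2 - v 1^2*v 4 - v 1*v 2*v 5 + v 1*Y 1, -v 0^2 + v 0*v 2 - v 1*v 3 - v 1*v 5, -v 0*v 3 - v 0*v 5 - v 1^2 + v 1*v 4, 0]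

/-- multiplication by `y` -/
def MY : Matrix (Fin 8) (Fin 8) S :=
  !![0, 0, 1, 0, 0, 0, 0, 0;
    0, 0, 0, 1, 0, 0, 0, 0;
    Y 1, -v 3, 0, 0, -v 2, -1, 0, 0;
    -v 0*Y 1 - v 3*Y 2 + v 4*Y 0, v 0*v 3 - v 1*v 4 + Y 1, -v 0*v 4 + v 3*v 5 + Y 0, -v 1, v 0*v 2 + v 3*v 4 - Y 2, v 0 - v 2, v 3 + v 5, 0;
    0, 0, 0, 0, 0, 0, 1, 0;
    0, 0, 0, 0, 0, 0, 0, 1;
    v 1*Y 2 - v 2*Y 0, v 1*v 2 - Y 0, v 0*v 2 - v 1*v 5, v 0, -v 1*v 4 + Y 1, -v 3, -v 1, 0;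
    -v 0*v 1*Y 2 + v 0*v 2*Y 0 - v 0*v 3*Y 1 - v 0*v 5*Y 1 + v 1*v 2*Y 2 + v 3*v 4*Y 0 - Y 0*Y 2, -v 0*v 1*v 2 + v 0*v 3^2 + v 0*v 3*v 5 + v 0*Y 0 - v 1*v 3*v 4 + v 1*Y 2 - v 2*Y 0, -v 0^2*v 2 + v 0*v 1*v 5 - v 0*v 3*v 4 + v 0*Y 2 - v 1*v 2*v 5 + v 3*Y 0 + v 5*Y 0, -v 0^2 + v 0*v 2 - v 1*v 3 - v 1*v 5, v 0*v 1*v 4 + v 0*v 2*v 3 + v 0*v 2*v 5 - v 0*Y 1 - v 1*v 2*v 4 - v 3*Y 2 + v 4*Y 0, 2*v 0*v 3 + v 0*v 5 - v 1*v 4 + Y 1, v 0*v 1 - v 0*v 4 - v 1*v 2 + v 3*v 5 + Y 0, -v 1]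

/-- multiplication by `z` -/
def MZ : Matrix (Fin 8) (Fin 8) S :=
  !![0, 1, 0, 0, 0, 0, 0, 0;
    Y 2, 0, -v 5, 0, -v 4, 0, -1, 0;
    0, 0, 0, 1, 0, 0, 0, 0;
    -v 1*Y 2 + v 2*Y 0 - v 5*Y 1, -v 1*v 2 + v 3*v 5 + Y 0, -v 0*v 2 + v 1*v 5 + Y 2, -v 0, v 1*v 4 + v 2*v 5 - Y 1, v 3 + v 5, v 1 - v 4, 0;
    0, 0, 0, 0, 0, 1, 0, 0;
    v 0*Y 1 - v 4*Y 0, -v 0*v 3 + v 1*v 4, v 0*v 4 - Y 0, v 1, -v 0*v 2 + Y 2, -v 0, -v 5, 0;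
    0, 0, 0, 0, 0, 0, 0, 1;
    -v 0*v 1*Y 1 + v 0*v 4*Y 1 - v 1*v 3*Y 2 + v 1*v 4*Y 0 - v 1*v 5*Y 2 + v 2*v 5*Y 0 - Y 0*Y 1, v 0*v 1*v 3 - v 0*v 3*v 4 - v 1^2*v 4 - v 1*v 2*v 5 + v 1*Y 1 + v 3*Y 0 + v 5*Y 0, -v 0*v 1*v 4 - v 0*v 2*v 5 + v 0*Y 1 + v 1*v 3*v 5 + v 1*v 5^2 + v 1*Y 0 - v 4*Y 0, -v 0*v 3 - v 0*v 5 - v 1^2 + v 1*v 4, v 0*v 1*v 2 - v 0*v 2*v 4 + v 1*v 3*v 4 + v 1*v 4*v 5 - v 1*Y 2 + v 2*Y 0 - v 5*Y 1, v 0*v 1 - v 0*v 4 - v 1*v 2 + v 3*v 5 + Y 0, -v 0*v 2 + v 1*v 3 + 2*v 1*v 5 + Y 2, -v 0]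

/-- multiplication by `Y4` -/
def M4 : Matrix (Fin 8) (Fin 8) S :=
  MY v Y * MZ v Y + v 6 • MX v Y + v 7 • MY v Y + v 8 • MZ v Y

end

open MvPolynomial in
/-- the universal image equation `det (Y4 - M4)` -/
noncomputable def GG : MvPolynomial (Fin 13) ℤ :=
  (Matrix.scalar (Fin 8) (X 3 : MvPolynomial (Fin 13) ℤ) -
    M4 (fun k : Fin 9 => (X (Fin.natAdd 4 k) : MvPolynomial (Fin 13) ℤ)) (fun j : Fin 3 => X (Fin.castLE (by omega) j))).det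

open MvPolynomial in
/-- `𝓕^* : ℤ[Y, v] → ℤ[x, y, z, v]` -/
noncomputable def FUs : MvPolynomial (Fin 13) ℤ →ₐ[ℤ] MvPolynomial (Fin 12) ℤ :=
  aeval (Fin.append FU (fun k : Fin 9 => (X (Fin.natAdd 3 k) : MvPolynomial (Fin 12) ℤ)) : Fin (4 + 9) → MvPolynomial (Fin 12) ℤ)

end Pool.Agent.LibMX34
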