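import Pool.Agent.LibMX34.Defs

set_option autoImplicit false

/-! MP_ed98ad_ag (Mond's conjecture is false): from power series to the abstract core. The definitions of the hand-in MondCorankOne are repeated
word for word (T1, atZero, jac, Crit, CritOff); the final file unfolds them. -/

namespace Pool.Agent.LibMX34

section general

variable (R : Type) [CommRing R]

/-- `tf(θ_n)` -/
noncomputable def tangentSource {n p : ℕ} (f : Fin p → MvPowerSeries (Fin n) R) :
    Submodule R (Fin p → MvPowerSeries (Fin n) R) :=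
  Submodule.span R (Set.range fun ξ : Fin n → MvPowerSeries (Fin n) R =>
    fun j => ∑ i, ξ i * MvPowerSeries.pderiv R i (f j))

/-- `ωf(θ_p)` -/
noncomputable def tangentTarget {n p : ℕ} (f : Fin p → MvPowerSeries (Fin n) R) :
    Submodule R (Fin p → MvPowerSeries (Fin n) R) :=
  Submodule.span R (Set.range fun η : Fin p → MvPowerSeries (Fin p) R =>
    fun j => MvPowerSeries.subst f (η j))

/-- `θ(f) / (tf(θ_n) + ωf(θ_p))` -/
abbrev T1 {n p : ℕ} (f : Fin p → MvPowerSeries (Fin n) R) : Type :=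
  (Fin p → MvPowerSeries (Fin n) R) ⧸ (tangentSource R f ⊔ tangentTarget R f)

end general

/-- put `s = 0` in a power series over `k[[s]]` -/
noncomputable def atZero (k : Type) [Field k] {σ : Type} :
    MvPowerSeries σ (PowerSeries k) →+* MvPowerSeries σ k :=
  MvPowerSeries.map PowerSeries.constantCoeff

/-- `d/ds` -/
noncomputable def dS (k : Type) [Field k] {σ : Type} (a : MvPowerSeries σ (PowerSeries k)) :
    MvPowerSeries σ (PowerSeries k) :=
  fun e => PowerSeries.derivative k (MvPowerSeries.coeff e a)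

/-- the element `s` -/
noncomputable def sV (k : Type) [Field k] {σ : Type} : MvPowerSeries σ (PowerSeries k) :=
  MvPowerSeries.C (PowerSeries.X : PowerSeries k)

/-- the unfolding `(Φ_0, .., Φ_3, u_1, .., u_r)`; the source variables 0, 1, 2 are `x, y, z`, the others are `u_1, .., u_r` -/
noncomputable def unf (R : Type) [CommRing R] {r : ℕ} (Φ : Fin 4 → MvPowerSeries (Fin (r + 3)) R) :
    Fin (r + 4) → MvPowerSeries (Fin (r + 3)) R :=
  Fin.cons (Φ 0) (Fin.cons (Φ 1) (Fin.cons (Φ 2) (Fin.cons (Φ 3) fun a : Fin r =>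
    MvPowerSeries.X (a.succ.succ.succ : Fin (r + 3)))))

/-- signed maximal minors of a `3 x 4` matrix -/
def mn {B : Type} [CommRing B] (D : Fin 3 → Fin 4 → B) (j : Fin 4) : B :=
  (-1) ^ (j : ℕ) * (Matrix.of fun (i : Fin 3) (a : Fin 3) => D i (j.succAbove a)).det

/-- `(a, b)` is a regular sequence (in a domain) -/
def RegPair {B : Type} [CommRing B] (a b : B) : Prop := a ≠ 0 ∧ ∀ y, a ∣ b * y → a ∣ y

/-- the `3 x 4` matrix `∂Φ_j/∂x_i`, `i = 0, 1, 2` -/
noncomputable def jacM (R : Type) [CommRing R] {r : ℕ} (Φ : Fin 4 → MvPowerSeries (Fin (r + 3)) R)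
    (i : Fin 3) (j : Fin 4) : MvPowerSeries (Fin (r + 3)) R :=
  MvPowerSeries.pderiv R (Fin.castLE (by omega) i : Fin (r + 3)) (Φ j)

/-- the `p` maximal minors of the Jacobian matrix of `unf Φ` -/
noncomputable def mfull (R : Type) [CommRing R] {r : ℕ} (Φ : Fin 4 → MvPowerSeries (Fin (r + 3)) R) :
    Fin (r + 4) → MvPowerSeries (Fin (r + 3)) R :=
  Fin.cons (mn (jacM R Φ) 0) (Fin.cons (mn (jacM R Φ) 1) (Fin.cons (mn (jacM R Φ) 2) (Fin.cons (mn (jacM R Φ) 3)
    fun a : Fin r => - ∑ j, mn (jacM R Φ) j * MvPowerSeries.pderiv R (a.succ.succ.succ : Fin (r + 3)) (Φ j))))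

/-- the hypotheses on `Φ` and `G` (block H: helper6, helper10) -/
structure Geo (k : Type) [Field k] {r : ℕ} (Φ : Fin 4 → MvPowerSeries (Fin (r + 3)) (PowerSeries k))
    (G : MvPowerSeries (Fin (r + 4)) (PowerSeries k)) : Prop where
  const : ∀ j, MvPowerSeries.constantCoeff (Φ j) = 0
  -- two minors form a regular sequence, over `k[[s]]` and over `k`
  regA : ∃ e : Fin 4 → MvPowerSeries (Fin (r + 3)) (PowerSeries k),
    RegPair (mn (jacM (PowerSeries k) Φ) 3) (∑ j, e j * mn (jacM (PowerSeries k) Φ) j)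
  reg0 : ∃ e : Fin 4 → MvPowerSeries (Fin (r + 3)) k,
    RegPair (mn (jacM k fun j => atZero k (Φ j)) 3) (∑ j, e j * mn (jacM k fun j => atZero k (Φ j)) j)
  -- the image equation
  FG : MvPowerSeries.subst (unf (PowerSeries k) Φ) G = 0
  ker0 : ∀ h : MvPowerSeries (Fin (r + 4)) k, MvPowerSeries.subst (unf k fun j => atZero k (Φ j)) h = 0 → atZero k G ∣ h
  -- `g` does not divide `∂g/∂y_j` for some `j` (j = 3: set the other variables to 0)
  reduced : ∃ j, ¬ (atZero k G ∣ MvPowerSeries.pderiv k j (atZero k G))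
  -- Euler
  euler : ∃ (κ : MvPowerSeries (Fin (r + 4)) (PowerSeries k)) (κ' : Fin (r + 4) → MvPowerSeries (Fin (r + 4)) (PowerSeries k)),
    G = κ * sV k * dS k G + ∑ j, κ' j * MvPowerSeries.pderiv (PowerSeries k) j G

end Pool.Agent.LibMX34
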