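import Pool.Agent.LibMX34.FinA

set_option autoImplicit false

/-! MP_ed98ad_ag (Mond's conjecture is false), block R (helper34): the wrapper `R_cert` of `R_final` for the flag of the example. Input: the
fields `η_i`, the Euler identity for `GG`, four identities `(CN0), (CN1), (CN2), (CA)`, and the vector `Tvec`. -/

namespace Pool.Agent.LibMX34

/-- Euler's field on the universal target: weights 2 for `Y1, .., Y4` and 1 for `v1, .., v9` -/
noncomputable def EU (t : Fin 13) : MvPolynomial (Fin 13) ℤ :=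
  MvPolynomial.C (if t.val < 4 then 2 else 1) * MvPolynomial.X t

section

variable (k : Type) [Field k]

/-- `f`, the germ of the example -/
noncomputable def fX : Fin 10 → MvPowerSeries (Fin 9) k :=
  ![MvPowerSeries.X 0 ^ 2 - MvPowerSeries.X 3 * MvPowerSeries.X 1 + MvPowerSeries.X 4 * MvPowerSeries.X 2,
    MvPowerSeries.X 1 ^ 2 + MvPowerSeries.X 0 * MvPowerSeries.X 2 + MvPowerSeries.X 3 * MvPowerSeries.X 0 + MvPowerSeries.X 5 * MvPowerSeries.X 2,
    MvPowerSeries.X 2 ^ 2 + MvPowerSeries.X 0 * MvPowerSeries.X 1 - MvPowerSeries.X 4 * MvPowerSeries.X 0 +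
      (3 * MvPowerSeries.X 5 + 2 * MvPowerSeries.X 6) * MvPowerSeries.X 1,
    MvPowerSeries.X 1 * MvPowerSeries.X 2 + MvPowerSeries.X 6 * MvPowerSeries.X 0 + MvPowerSeries.X 7 * MvPowerSeries.X 1 +
      MvPowerSeries.X 8 * MvPowerSeries.X 2,
    MvPowerSeries.X 3, MvPowerSeries.X 4, MvPowerSeries.X 5, MvPowerSeries.X 6, MvPowerSeries.X 7, MvPowerSeries.X 8]

private theorem RH_at_X (i : Fin 9) : atZero k (MvPowerSeries.X i : MvPowerSeries (Fin 9) (PowerSeries k)) = MvPowerSeries.X i :=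
  MvPowerSeries.map_X _ i

private theorem RH_at_s : atZero k (MvPowerSeries.C PowerSeries.X : MvPowerSeries (Fin 9) (PowerSeries k)) = 0 := by
  unfold atZero
  rw [MvPowerSeries.map_C, PowerSeries.constantCoeff_X, map_zero]

theorem fX_eq : unf k (Phi0 k TA) = fX k := by
  rw [← FA_zero]
  funext j
  fin_cases j
  · show atZero k (MvPowerSeries.X 0 ^ 2 - MvPowerSeries.X 3 * MvPowerSeries.X 1 + MvPowerSeries.X 4 * MvPowerSeries.X 2) = _
    simp only [map_add, map_sub, map_mul, map_pow, RH_at_X]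
    rfl
  · show atZero k (MvPowerSeries.X 1 ^ 2 + MvPowerSeries.X 0 * MvPowerSeries.X 2 + (MvPowerSeries.X 3 + MvPowerSeries.C PowerSeries.X) * MvPowerSeries.X 0 +
      MvPowerSeries.X 5 * MvPowerSeries.X 2) = _
    simp only [map_add, map_mul, map_pow, RH_at_X, RH_at_s, add_zero]
    rfl
  · show atZero k (MvPowerSeries.X 2 ^ 2 + MvPowerSeries.X 0 * MvPowerSeries.X 1 - MvPowerSeries.X 4 * MvPowerSeries.X 0 +
      (3 * MvPowerSeries.X 5 + 2 * MvPowerSeries.X 6 + MvPowerSeries.C PowerSeries.X) * MvPowerSeries.X 1) = _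
    simp only [map_add, map_sub, map_mul, map_pow, RH_at_X, RH_at_s, add_zero, map_ofNat]
    rfl
  · show atZero k (MvPowerSeries.X 1 * MvPowerSeries.X 2 + MvPowerSeries.X 6 * MvPowerSeries.X 0 + MvPowerSeries.X 7 * MvPowerSeries.X 1 +
      MvPowerSeries.X 8 * MvPowerSeries.X 2) = _
    simp only [map_add, map_mul, RH_at_X]
    rfl
  all_goals exact RH_at_X k _

private theorem RH_pX {n : ℕ} (i j : Fin n) : MvPowerSeries.pderiv k i (MvPowerSeries.X j : MvPowerSeries (Fin n) k) = if j = i then 1 else 0 := by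
  classical
  split_ifs with h
  · subst h; exact MvPowerSeries.pderiv_X_self
  · exact MvPowerSeries.pderiv_X_of_ne h

/-- the tangent directions of the flag lie in `tf + wf` -/
theorem flag_mem (a : Fin 6 → MvPowerSeries (Fin 10) k) (b : Fin 6 → MvPowerSeries (Fin 9) k)
    (hab : ∀ i, b i = MvPowerSeries.subst (fX k) (a i)) :
    (![-(b 0 * MvPowerSeries.X 1) + b 1 * MvPowerSeries.X 2, b 0 * MvPowerSeries.X 0 + b 2 * MvPowerSeries.X 2,
      -(b 1 * MvPowerSeries.X 0) + (3 * b 2 + 2 * b 3) * MvPowerSeries.X 1,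
      b 3 * MvPowerSeries.X 0 + b 4 * MvPowerSeries.X 1 + b 5 * MvPowerSeries.X 2, 0, 0, 0, 0, 0, 0] : Fin 10 → MvPowerSeries (Fin 9) k) ∈
      tangentSource k (fX k) ⊔ tangentTarget k (fX k) := by
  have hc : ∀ j, MvPowerSeries.constantCoeff (fX k j) = 0 := by
    rw [← fX_eq]
    exact unf_const _ (phi0_const k TA)
  have hs : MvPowerSeries.HasSubst (fX k) := MvPowerSeries.hasSubst_of_constantCoeff_zero hc
  have h0 : MvPowerSeries.subst (fX k) (0 : MvPowerSeries (Fin 10) k) = 0 := by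
    rw [← MvPowerSeries.coe_substAlgHom hs, map_zero]
  have hneg : ∀ x : MvPowerSeries (Fin 10) k, MvPowerSeries.subst (fX k) (-x) = - MvPowerSeries.subst (fX k) x := by
    intro x
    rw [← MvPowerSeries.coe_substAlgHom hs, map_neg]
  have h1 : (fun j => ∑ i, (![0, 0, 0, b 0, b 1, b 2, b 3, b 4, b 5] : Fin 9 → MvPowerSeries (Fin 9) k) i * MvPowerSeries.pderiv k i (fX k j)) ∈
      tangentSource k (fX k) := Submodule.subset_span ⟨_, rfl⟩
  have h2 : (fun j => MvPowerSeries.subst (fX k) ((![0, 0, 0, 0, -a 0, -a 1, -a 2, -a 3, -a 4, -a 5] : Fin 10 → MvPowerSeries (Fin 10) k) j)) ∈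
      tangentTarget k (fX k) := Submodule.subset_span ⟨_, rfl⟩
  have h3 := Submodule.add_mem_sup h1 h2
  have hsum : ∀ g : Fin 9 → MvPowerSeries (Fin 9) k, ∑ i, (![0, 0, 0, b 0, b 1, b 2, b 3, b 4, b 5] : Fin 9 → MvPowerSeries (Fin 9) k) i * g i =
      b 0 * g 3 + b 1 * g 4 + b 2 * g 5 + b 3 * g 6 + b 4 * g 7 + b 5 * g 8 := by
    intro g
    simp only [Fin.sum_univ_succ, Fin.sum_univ_zero, Matrix.cons_val_zero, Matrix.cons_val_succ, zero_mul, zero_add, add_zero, add_assoc]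
    rfl
  have key : (![-(b 0 * MvPowerSeries.X 1) + b 1 * MvPowerSeries.X 2, b 0 * MvPowerSeries.X 0 + b 2 * MvPowerSeries.X 2,
      -(b 1 * MvPowerSeries.X 0) + (3 * b 2 + 2 * b 3) * MvPowerSeries.X 1,
      b 3 * MvPowerSeries.X 0 + b 4 * MvPowerSeries.X 1 + b 5 * MvPowerSeries.X 2, 0, 0, 0, 0, 0, 0] : Fin 10 → MvPowerSeries (Fin 9) k) =
      (fun j => ∑ i, (![0, 0, 0, b 0, b 1, b 2, b 3, b 4, b 5] : Fin 9 → MvPowerSeries (Fin 9) k) i * MvPowerSeries.pderiv k i (fX k j)) +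
      (fun j => MvPowerSeries.subst (fX k) ((![0, 0, 0, 0, -a 0, -a 1, -a 2, -a 3, -a 4, -a 5] : Fin 10 → MvPowerSeries (Fin 10) k) j)) := by
    funext j
    rw [Pi.add_apply]
    rw [hsum]
    have hL : ∀ (i : Fin 9) (p q : MvPowerSeries (Fin 9) k), MvPowerSeries.pderiv k i (p * q) =
        p * MvPowerSeries.pderiv k i q + q * MvPowerSeries.pderiv k i p := by
      intro i p q
      rw [Derivation.leibniz, smul_eq_mul, smul_eq_mul]
    have hn2 : ∀ i : Fin 9, MvPowerSeries.pderiv k i (2 : MvPowerSeries (Fin 9) k) = 0 := by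
      intro i
      have h : ((2 : ℕ) : MvPowerSeries (Fin 9) k) = 2 := Nat.cast_ofNat
      rw [← h, Derivation.map_natCast]
    have hn3 : ∀ i : Fin 9, MvPowerSeries.pderiv k i (3 : MvPowerSeries (Fin 9) k) = 0 := by
      intro i
      have h : ((3 : ℕ) : MvPowerSeries (Fin 9) k) = 3 := Nat.cast_ofNat
      rw [← h, Derivation.map_natCast]
    fin_cases j
    · show -(b 0 * MvPowerSeries.X 1) + b 1 * MvPowerSeries.X 2 =
        b 0 * MvPowerSeries.pderiv k 3 (fX k 0) + b 1 * MvPowerSeries.pderiv k 4 (fX k 0) + b 2 * MvPowerSeries.pderiv k 5 (fX k 0) +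
          b 3 * MvPowerSeries.pderiv k 6 (fX k 0) + b 4 * MvPowerSeries.pderiv k 7 (fX k 0) + b 5 * MvPowerSeries.pderiv k 8 (fX k 0) +
          MvPowerSeries.subst (fX k) 0
      rw [h0]
      have e : fX k 0 = MvPowerSeries.X 0 * MvPowerSeries.X 0 - MvPowerSeries.X 3 * MvPowerSeries.X 1 + MvPowerSeries.X 4 * MvPowerSeries.X 2 := by
        rw [← sq]; rfl
      rw [e]
      simp only [map_add, map_sub, hL, RH_pX, Fin.reduceEq, if_true, if_false]
      ring
    · show b 0 * MvPowerSeries.X 0 + b 2 * MvPowerSeries.X 2 =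
        b 0 * MvPowerSeries.pderiv k 3 (fX k 1) + b 1 * MvPowerSeries.pderiv k 4 (fX k 1) + b 2 * MvPowerSeries.pderiv k 5 (fX k 1) +
          b 3 * MvPowerSeries.pderiv k 6 (fX k 1) + b 4 * MvPowerSeries.pderiv k 7 (fX k 1) + b 5 * MvPowerSeries.pderiv k 8 (fX k 1) +
          MvPowerSeries.subst (fX k) 0
      rw [h0]
      have e : fX k 1 = MvPowerSeries.X 1 * MvPowerSeries.X 1 + MvPowerSeries.X 0 * MvPowerSeries.X 2 + MvPowerSeries.X 3 * MvPowerSeries.X 0 +
          MvPowerSeries.X 5 * MvPowerSeries.X 2 := by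
        rw [← sq]; rfl
      rw [e]
      simp only [map_add, map_sub, hL, RH_pX, Fin.reduceEq, if_true, if_false]
      ring
    · show -(b 1 * MvPowerSeries.X 0) + (3 * b 2 + 2 * b 3) * MvPowerSeries.X 1 =
        b 0 * MvPowerSeries.pderiv k 3 (fX k 2) + b 1 * MvPowerSeries.pderiv k 4 (fX k 2) + b 2 * MvPowerSeries.pderiv k 5 (fX k 2) +
          b 3 * MvPowerSeries.pderiv k 6 (fX k 2) + b 4 * MvPowerSeries.pderiv k 7 (fX k 2) + b 5 * MvPowerSeries.pderiv k 8 (fX k 2) +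
          MvPowerSeries.subst (fX k) 0
      rw [h0]
      have e : fX k 2 = MvPowerSeries.X 2 * MvPowerSeries.X 2 + MvPowerSeries.X 0 * MvPowerSeries.X 1 - MvPowerSeries.X 4 * MvPowerSeries.X 0 +
          (3 * MvPowerSeries.X 5 + 2 * MvPowerSeries.X 6) * MvPowerSeries.X 1 := by
        rw [← sq]; rfl
      rw [e]
      simp only [map_add, map_sub, hL, RH_pX, Fin.reduceEq, if_true, if_false, hn2, hn3]
      ring
    · show b 3 * MvPowerSeries.X 0 + b 4 * MvPowerSeries.X 1 + b 5 * MvPowerSeries.X 2 =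
        b 0 * MvPowerSeries.pderiv k 3 (fX k 3) + b 1 * MvPowerSeries.pderiv k 4 (fX k 3) + b 2 * MvPowerSeries.pderiv k 5 (fX k 3) +
          b 3 * MvPowerSeries.pderiv k 6 (fX k 3) + b 4 * MvPowerSeries.pderiv k 7 (fX k 3) + b 5 * MvPowerSeries.pderiv k 8 (fX k 3) +
          MvPowerSeries.subst (fX k) 0
      rw [h0]
      have e : fX k 3 = MvPowerSeries.X 1 * MvPowerSeries.X 2 + MvPowerSeries.X 6 * MvPowerSeries.X 0 + MvPowerSeries.X 7 * MvPowerSeries.X 1 +
          MvPowerSeries.X 8 * MvPowerSeries.X 2 := rfl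
      rw [e]
      simp only [map_add, map_sub, hL, RH_pX, Fin.reduceEq, if_true, if_false]
      ring
    · show (0 : MvPowerSeries (Fin 9) k) =
        b 0 * MvPowerSeries.pderiv k 3 (MvPowerSeries.X 3) + b 1 * MvPowerSeries.pderiv k 4 (MvPowerSeries.X 3) + b 2 * MvPowerSeries.pderiv k 5 (MvPowerSeries.X 3) +
          b 3 * MvPowerSeries.pderiv k 6 (MvPowerSeries.X 3) + b 4 * MvPowerSeries.pderiv k 7 (MvPowerSeries.X 3) + b 5 * MvPowerSeries.pderiv k 8 (MvPowerSeries.X 3) +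
          MvPowerSeries.subst (fX k) (-a 0)
      rw [hneg, ← hab]
      simp only [RH_pX, Fin.reduceEq, if_true, if_false]
      ring
    · show (0 : MvPowerSeries (Fin 9) k) =
        b 0 * MvPowerSeries.pderiv k 3 (MvPowerSeries.X 4) + b 1 * MvPowerSeries.pderiv k 4 (MvPowerSeries.X 4) + b 2 * MvPowerSeries.pderiv k 5 (MvPowerSeries.X 4) +
          b 3 * MvPowerSeries.pderiv k 6 (MvPowerSeries.X 4) + b 4 * MvPowerSeries.pderiv k 7 (MvPowerSeries.X 4) + b 5 * MvPowerSeries.pderiv k 8 (MvPowerSeries.X 4) +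
          MvPowerSeries.subst (fX k) (-a 1)
      rw [hneg, ← hab]
      simp only [RH_pX, Fin.reduceEq, if_true, if_false]
      ring
    · show (0 : MvPowerSeries (Fin 9) k) =
        b 0 * MvPowerSeries.pderiv k 3 (MvPowerSeries.X 5) + b 1 * MvPowerSeries.pderiv k 4 (MvPowerSeries.X 5) + b 2 * MvPowerSeries.pderiv k 5 (MvPowerSeries.X 5) +
          b 3 * MvPowerSeries.pderiv k 6 (MvPowerSeries.X 5) + b 4 * MvPowerSeries.pderiv k 7 (MvPowerSeries.X 5) + b 5 * MvPowerSeries.pderiv k 8 (MvPowerSeries.X 5) +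
          MvPowerSeries.subst (fX k) (-a 2)
      rw [hneg, ← hab]
      simp only [RH_pX, Fin.reduceEq, if_true, if_false]
      ring
    · show (0 : MvPowerSeries (Fin 9) k) =
        b 0 * MvPowerSeries.pderiv k 3 (MvPowerSeries.X 6) + b 1 * MvPowerSeries.pderiv k 4 (MvPowerSeries.X 6) + b 2 * MvPowerSeries.pderiv k 5 (MvPowerSeries.X 6) +
          b 3 * MvPowerSeries.pderiv k 6 (MvPowerSeries.X 6) + b 4 * MvPowerSeries.pderiv k 7 (MvPowerSeries.X 6) + b 5 * MvPowerSeries.pderiv k 8 (MvPowerSeries.X 6) +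
          MvPowerSeries.subst (fX k) (-a 3)
      rw [hneg, ← hab]
      simp only [RH_pX, Fin.reduceEq, if_true, if_false]
      ring
    · show (0 : MvPowerSeries (Fin 9) k) =
        b 0 * MvPowerSeries.pderiv k 3 (MvPowerSeries.X 7) + b 1 * MvPowerSeries.pderiv k 4 (MvPowerSeries.X 7) + b 2 * MvPowerSeries.pderiv k 5 (MvPowerSeries.X 7) +
          b 3 * MvPowerSeries.pderiv k 6 (MvPowerSeries.X 7) + b 4 * MvPowerSeries.pderiv k 7 (MvPowerSeries.X 7) + b 5 * MvPowerSeries.pderiv k 8 (MvPowerSeries.X 7) +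
          MvPowerSeries.subst (fX k) (-a 4)
      rw [hneg, ← hab]
      simp only [RH_pX, Fin.reduceEq, if_true, if_false]
      ring
    · show (0 : MvPowerSeries (Fin 9) k) =
        b 0 * MvPowerSeries.pderiv k 3 (MvPowerSeries.X 8) + b 1 * MvPowerSeries.pderiv k 4 (MvPowerSeries.X 8) + b 2 * MvPowerSeries.pderiv k 5 (MvPowerSeries.X 8) +
          b 3 * MvPowerSeries.pderiv k 6 (MvPowerSeries.X 8) + b 4 * MvPowerSeries.pderiv k 7 (MvPowerSeries.X 8) + b 5 * MvPowerSeries.pderiv k 8 (MvPowerSeries.X 8) +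
          MvPowerSeries.subst (fX k) (-a 5)
      rw [hneg, ← hab]
      simp only [RH_pX, Fin.reduceEq, if_true, if_false]
      ring
  rw [key]
  exact h3

private theorem RH_pB0 (i : Fin 3) : pB0 k TA (Fin.castAdd 9 i) = MvPowerSeries.X (Fin.castLE (by omega) i) :=
  Fin.append_left _ _ i

private theorem RH_pP (i j : Fin 12) : MvPolynomial.pderiv i (MvPolynomial.X j : MvPolynomial (Fin 12) ℤ) = if j = i then 1 else 0 := by
  classical
  split_ifs with h
  · subst h; exact MvPolynomial.pderiv_X_self _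
  · exact MvPolynomial.pderiv_X_of_ne h

private theorem RH_sum9 (g : Fin 9 → MvPowerSeries (Fin 9) k) : ∑ t, g t = g 0 + g 1 + g 2 + g 3 + g 4 + g 5 + g 6 + g 7 + g 8 := by
  simp only [Fin.sum_univ_succ, Fin.sum_univ_zero, add_zero]
  simp only [← add_assoc]
  rfl

private theorem RH_D (w : Fin 9 → MvPowerSeries (Fin 9) k) :
    ∑ t, w t * MvPolynomial.aeval (pB0 k TA) (MvPolynomial.pderiv (ivB t) (FU 0)) = w 0 * MvPowerSeries.X 1 + w 1 * MvPowerSeries.X 2 ∧
    ∑ t, w t * MvPolynomial.aeval (pB0 k TA) (MvPolynomial.pderiv (ivB t) (FU 1)) = w 2 * MvPowerSeries.X 0 + w 3 * MvPowerSeries.X 2 ∧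
    ∑ t, w t * MvPolynomial.aeval (pB0 k TA) (MvPolynomial.pderiv (ivB t) (FU 2)) = w 4 * MvPowerSeries.X 0 + w 5 * MvPowerSeries.X 1 ∧
    ∑ t, w t * MvPolynomial.aeval (pB0 k TA) (MvPolynomial.pderiv (ivB t) (FU 3)) =
      w 6 * MvPowerSeries.X 0 + w 7 * MvPowerSeries.X 1 + w 8 * MvPowerSeries.X 2 := by
  have i0 : ivB 0 = 3 := rfl
  have i1 : ivB 1 = 4 := rfl
  have i2 : ivB 2 = 5 := rfl
  have i3 : ivB 3 = 6 := rfl
  have i4 : ivB 4 = 7 := rfl
  have i5 : ivB 5 = 8 := rfl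
  have i6 : ivB 6 = 9 := rfl
  have i7 : ivB 7 = 10 := rfl
  have i8 : ivB 8 = 11 := rfl
  have p0 : pB0 k TA 0 = MvPowerSeries.X 0 := RH_pB0 k 0
  have p1 : pB0 k TA 1 = MvPowerSeries.X 1 := RH_pB0 k 1
  have p2 : pB0 k TA 2 = MvPowerSeries.X 2 := RH_pB0 k 2
  have hL : ∀ (i : Fin 12) (p q : MvPolynomial (Fin 12) ℤ), MvPolynomial.pderiv i (p * q) =
      p * MvPolynomial.pderiv i q + q * MvPolynomial.pderiv i p := by
    intro i p q
    rw [Derivation.leibniz, smul_eq_mul, smul_eq_mul]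
  have f0 : FU 0 = MvPolynomial.X 0 * MvPolynomial.X 0 + MvPolynomial.X 3 * MvPolynomial.X 1 + MvPolynomial.X 4 * MvPolynomial.X 2 := by
    rw [← sq]; rfl
  have f1 : FU 1 = MvPolynomial.X 1 * MvPolynomial.X 1 + MvPolynomial.X 0 * MvPolynomial.X 2 + MvPolynomial.X 5 * MvPolynomial.X 0 +
      MvPolynomial.X 6 * MvPolynomial.X 2 := by
    rw [← sq]; rfl
  have f2 : FU 2 = MvPolynomial.X 2 * MvPolynomial.X 2 + MvPolynomial.X 0 * MvPolynomial.X 1 + MvPolynomial.X 7 * MvPolynomial.X 0 +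
      MvPolynomial.X 8 * MvPolynomial.X 1 := by
    rw [← sq]; rfl
  have f3 : FU 3 = MvPolynomial.X 1 * MvPolynomial.X 2 + MvPolynomial.X 9 * MvPolynomial.X 0 + MvPolynomial.X 10 * MvPolynomial.X 1 +
      MvPolynomial.X 11 * MvPolynomial.X 2 := rfl
  refine ⟨?_, ?_, ?_, ?_⟩
  · rw [RH_sum9, f0, i0, i1, i2, i3, i4, i5, i6, i7, i8]
    simp only [map_add, map_mul, hL, RH_pP, Fin.reduceEq, if_true, if_false, mul_zero, mul_one, add_zero, zero_add, map_zero, map_one,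
      MvPolynomial.aeval_X, p0, p1, p2]
  · rw [RH_sum9, f1, i0, i1, i2, i3, i4, i5, i6, i7, i8]
    simp only [map_add, map_mul, hL, RH_pP, Fin.reduceEq, if_true, if_false, mul_zero, mul_one, add_zero, zero_add, map_zero, map_one,
      MvPolynomial.aeval_X, p0, p1, p2]
  · rw [RH_sum9, f2, i0, i1, i2, i3, i4, i5, i6, i7, i8]
    simp only [map_add, map_mul, hL, RH_pP, Fin.reduceEq, if_true, if_false, mul_zero, mul_one, add_zero, zero_add, map_zero, map_one,
      MvPolynomial.aeval_X, p0, p1, p2]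
  · rw [RH_sum9, f3, i0, i1, i2, i3, i4, i5, i6, i7, i8]
    simp only [map_add, map_mul, hL, RH_pP, Fin.reduceEq, if_true, if_false, mul_zero, mul_one, add_zero, zero_add, map_zero, map_one,
      MvPolynomial.aeval_X, p0, p1, p2]

private theorem RH_injO (t t' : Fin 9) (h : ivO t' = ivO t) : t' = t := by
  have h1 := congrArg Fin.val h
  unfold ivO at h1
  rw [Fin.val_natAdd, Fin.val_natAdd] at h1
  exact Fin.ext (by omega)

private theorem RH_EUv (t : Fin 9) : EU (ivO t) = MvPolynomial.X (ivO t) := by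
  have h : ¬ (ivO t).val < 4 := by
    unfold ivO
    rw [Fin.val_natAdd]
    omega
  unfold EU
  rw [if_neg h, map_one, one_mul]

private theorem RH_EUs (t : Fin 9) :
    ∑ t', (sA t' : MvPowerSeries (Fin 10) k) * MvPolynomial.aeval (pO0 k TA) (MvPolynomial.pderiv (ivO t') (EU (ivO t))) =
      (sA t : MvPowerSeries (Fin 10) k) := by
  classical
  rw [Finset.sum_eq_single t]
  · rw [RH_EUv, MvPolynomial.pderiv_X_self, map_one, mul_one]
  · intro t' _ ht
    rw [RH_EUv, MvPolynomial.pderiv_X_of_ne (fun h => ht (RH_injO _ _ h).symm), map_zero, mul_zero]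
  · intro h
    exact absurd (Finset.mem_univ t) h

private theorem RH_EUe (t : Fin 9) : MvPolynomial.aeval (pO0 k TA) (EU (ivO t)) = LO0 k TA t := by
  rw [RH_EUv, MvPolynomial.aeval_X]
  exact Fin.append_right _ _ t

/-- `∂_s` at `s = 0` of a polynomial on the target -/
noncomputable def DD (h : MvPolynomial (Fin 13) ℤ) : MvPowerSeries (Fin 10) k :=
  ∑ t', (sA t' : MvPowerSeries (Fin 10) k) * MvPolynomial.aeval (pO0 k TA) (MvPolynomial.pderiv (ivO t') h)

private theorem RH_DD (h : MvPolynomial (Fin 13) ℤ) : atZero k (dS k (MvPolynomial.aeval (pO k TA sA) h)) = DD k h := by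
  rw [dS_aeval, map_sum]
  unfold DD
  refine Finset.sum_congr rfl fun t _ => ?_
  rw [map_mul, map_intCast, at_aevalO]

private theorem RH_DD_add (g h : MvPolynomial (Fin 13) ℤ) : DD k (g + h) = DD k g + DD k h := by
  unfold DD
  rw [← Finset.sum_add_distrib]
  refine Finset.sum_congr rfl fun t _ => ?_
  rw [map_add, map_add, mul_add]

private theorem RH_DD_lin (g h l : MvPolynomial (Fin 13) ℤ) : DD k (g - 3 * h - 2 * l) = DD k g - 3 * DD k h - 2 * DD k l := by
  unfold DD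
  rw [Finset.mul_sum, Finset.mul_sum, ← Finset.sum_sub_distrib, ← Finset.sum_sub_distrib]
  refine Finset.sum_congr rfl fun t _ => ?_
  have e : MvPolynomial.pderiv (ivO t) (g - 3 * h - 2 * l) =
      MvPolynomial.pderiv (ivO t) g - 3 * MvPolynomial.pderiv (ivO t) h - 2 * MvPolynomial.pderiv (ivO t) l := by
    have h3 : (3 : MvPolynomial (Fin 13) ℤ) = MvPolynomial.C 3 := rfl
    have h2 : (2 : MvPolynomial (Fin 13) ℤ) = MvPolynomial.C 2 := rfl
    rw [h3, h2, Derivation.map_sub, Derivation.map_sub, MvPolynomial.pderiv_C_mul, MvPolynomial.pderiv_C_mul]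
  rw [e]
  simp only [map_sub, map_mul, map_ofNat]
  ring

private theorem RH_at_sV {ι : Type} : atZero k (sV k : MvPowerSeries ι (PowerSeries k)) = 0 := by
  unfold atZero sV
  rw [MvPowerSeries.map_C, PowerSeries.constantCoeff_X, map_zero]

private theorem RH_dS_zero {ι : Type} : dS k (0 : MvPowerSeries ι (PowerSeries k)) = 0 := by
  have := dS_add (0 : MvPowerSeries ι (PowerSeries k)) 0
  rw [add_zero] at this
  exact (left_eq_add.1 this)

private theorem RH_dS_sum {ι J : Type} (s : Finset J) (f : J → MvPowerSeries ι (PowerSeries k)) :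
    dS k (∑ i ∈ s, f i) = ∑ i ∈ s, dS k (f i) := by
  classical
  induction s using Finset.induction_on with
  | empty => simp [RH_dS_zero]
  | insert a s ha ih => rw [Finset.sum_insert ha, Finset.sum_insert ha, dS_add, ih]

/-- an identity `∑ c_i h_i = s W + s² V` gives its value and its `s`-derivative at `s = 0` -/
private theorem RH_split {m : ℕ} (c : Fin m → MvPowerSeries (Fin 10) k) (h : Fin m → MvPolynomial (Fin 13) ℤ)
    (W : MvPowerSeries (Fin 10) k) (V : MvPowerSeries (Fin 10) (PowerSeries k))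
    (e : ∑ i, lift0 k (c i) * MvPolynomial.aeval (pO k TA sA) (h i) = sV k * lift0 k W + sV k ^ 2 * V) :
    ∑ i, c i * MvPolynomial.aeval (pO0 k TA) (h i) = 0 ∧ ∑ i, c i * DD k (h i) = W := by
  constructor
  · have h1 := congrArg (atZero k) e
    rw [map_sum, map_add, map_mul, map_mul, map_pow, RH_at_sV, zero_mul, zero_pow (by norm_num), zero_mul, add_zero] at h1
    rw [← h1]
    refine Finset.sum_congr rfl fun i _ => ?_
    rw [map_mul, at_lift0, at_aevalO]
  · have h1 := congrArg (fun x => atZero k (dS k x)) e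
    have h2 : sV k * lift0 k W + sV k ^ 2 * V = sV k * (lift0 k W + sV k * V) := by ring
    beta_reduce at h1
    rw [h2, at_dS_sV, map_add, map_mul, RH_at_sV, zero_mul, add_zero, at_lift0, RH_dS_sum, map_sum] at h1
    rw [← h1]
    refine Finset.sum_congr rfl fun i _ => ?_
    rw [dS_mul, dS_lift0, zero_mul, zero_add, map_mul, at_lift0, RH_DD]

private theorem RH_LO0 : LO0 k TA 0 = - MvPowerSeries.X 4 ∧ LO0 k TA 1 = MvPowerSeries.X 5 ∧ LO0 k TA 2 = MvPowerSeries.X 4 ∧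
    LO0 k TA 3 = MvPowerSeries.X 6 ∧ LO0 k TA 4 = - MvPowerSeries.X 5 ∧
    LO0 k TA 5 = 3 * MvPowerSeries.X 6 + 2 * MvPowerSeries.X 7 ∧ LO0 k TA 6 = MvPowerSeries.X 7 := by
  have hx : (Fin.succ (Fin.succ (Fin.succ (Fin.succ (0 : Fin 6)))) : Fin (6 + 4)) = (4 : Fin 10) := rfl
  have hx1 : (Fin.succ (Fin.succ (Fin.succ (Fin.succ (1 : Fin 6)))) : Fin (6 + 4)) = (5 : Fin 10) := rfl
  have hx2 : (Fin.succ (Fin.succ (Fin.succ (Fin.succ (2 : Fin 6)))) : Fin (6 + 4)) = (6 : Fin 10) := rfl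
  have hx3 : (Fin.succ (Fin.succ (Fin.succ (Fin.succ (3 : Fin 6)))) : Fin (6 + 4)) = (7 : Fin 10) := rfl
  have hx4 : (Fin.succ (Fin.succ (Fin.succ (Fin.succ (4 : Fin 6)))) : Fin (6 + 4)) = (8 : Fin 10) := rfl
  have hx5 : (Fin.succ (Fin.succ (Fin.succ (Fin.succ (5 : Fin 6)))) : Fin (6 + 4)) = (9 : Fin 10) := rfl
  refine ⟨?_, ?_, ?_, ?_, ?_, ?_, ?_⟩ <;>
    · unfold LO0; rw [Fin.sum_univ_six, hx, hx1, hx2, hx3, hx4, hx5]; simp [TA]

theorem R_cert [CharZero k] (hFG : FUs GG = 0) (hgeo : Geo k (PhiS k TA sA) (GS k TA sA))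
    (hfin : Module.Finite k (T1 k (unf k (Phi0 k TA)))) (hE : ∑ t, EU t * MvPolynomial.pderiv t GG = 16 * GG)
    {m : ℕ} (η : Fin m → Fin 13 → MvPolynomial (Fin 13) ℤ) (α : Fin m → MvPolynomial (Fin 13) ℤ)
    (hmother : ∀ i, ∑ t, η i t * MvPolynomial.pderiv t GG = α i * GG)
    (c : Fin m → MvPowerSeries (Fin 10) k) (A W₀ W₁ W₂ : MvPowerSeries (Fin 10) k)
    (V₀ V₁ V₂ : MvPowerSeries (Fin 10) (PowerSeries k))
    (hA : ∑ i, c i * MvPolynomial.aeval (pO0 k TA) (α i) = A)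
    (h0 : ∑ i, lift0 k (c i) * MvPolynomial.aeval (pO k TA sA) (η i (ivO 0) + η i (ivO 2)) = sV k * lift0 k W₀ + sV k ^ 2 * V₀)
    (h1 : ∑ i, lift0 k (c i) * MvPolynomial.aeval (pO k TA sA) (η i (ivO 1) + η i (ivO 4)) = sV k * lift0 k W₁ + sV k ^ 2 * V₁)
    (h2 : ∑ i, lift0 k (c i) * MvPolynomial.aeval (pO k TA sA) (η i (ivO 5) - 3 * η i (ivO 3) - 2 * η i (ivO 6)) =
      sV k * lift0 k W₂ + sV k ^ 2 * V₂)
    (hne : (Fin.cons 0 (Fin.cons (MvPowerSeries.subst (unf k (Phi0 k TA)) (16 * W₀ - A) * MvPowerSeries.X 0)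
      (Fin.cons (MvPowerSeries.subst (unf k (Phi0 k TA)) (16 * W₁) * MvPowerSeries.X 0 +
        MvPowerSeries.subst (unf k (Phi0 k TA)) (16 * W₂ - A) * MvPowerSeries.X 1)
      (Fin.cons 0 fun _ : Fin 6 => 0))) : Fin 10 → MvPowerSeries (Fin 9) k) ∉
      tangentSource k (unf k (Phi0 k TA)) ⊔ tangentTarget k (unf k (Phi0 k TA))) :
    Module.rank (PowerSeries k) (Localization.Away (Ideal.Quotient.mk
      (Ideal.span (Set.range fun j => MvPowerSeries.pderiv (PowerSeries k) j (GS k TA sA))) (GS k TA sA))) < Cardinal.aleph0 ∧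
    Module.finrank (PowerSeries k) (Localization.Away (Ideal.Quotient.mk
      (Ideal.span (Set.range fun j => MvPowerSeries.pderiv (PowerSeries k) j (GS k TA sA))) (GS k TA sA))) <
      Module.finrank k (T1 k (unf k (Phi0 k TA))) := by
  classical
  obtain ⟨a0, b0⟩ := RH_split k c _ W₀ V₀ h0
  obtain ⟨a1, b1⟩ := RH_split k c _ W₁ V₁ h1
  obtain ⟨a2, b2⟩ := RH_split k c _ W₂ V₂ h2
  obtain ⟨l0, l1, l2, l3, l4, l5, l6⟩ := RH_LO0 k
  set η' : Fin (m + 1) → Fin 13 → MvPolynomial (Fin 13) ℤ := Fin.cons EU η with hη'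
  set α' : Fin (m + 1) → MvPolynomial (Fin 13) ℤ := Fin.cons 16 α with hα'
  set C' : Fin (m + 1) → MvPowerSeries (Fin 10) k := Fin.cons (-A) (fun i => 16 * c i) with hC'
  set X : Fin 9 → MvPowerSeries (Fin 10) k := fun t => ∑ i, C' i * MvPolynomial.aeval (pO0 k TA) (η' i (ivO t)) with hX
  set E : Fin 9 → MvPowerSeries (Fin 10) k := fun t => ∑ i, c i * MvPolynomial.aeval (pO0 k TA) (η i (ivO t)) with hEdef
  have hXE : ∀ t, X t = -A * LO0 k TA t + 16 * E t := by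
    intro t
    rw [hX, hEdef]
    simp only [Fin.sum_univ_succ, hC', hη', Fin.cons_zero, Fin.cons_succ, RH_EUe]
    rw [Finset.mul_sum]
    congr 1
    exact Finset.sum_congr rfl fun i _ => by ring
  have ha0 : E 0 + E 2 = 0 := by
    rw [← a0, hEdef]
    simp only [map_add, mul_add, Finset.sum_add_distrib]
  have ha1 : E 1 + E 4 = 0 := by
    rw [← a1, hEdef]
    simp only [map_add, mul_add, Finset.sum_add_distrib]
  have ha2 : E 5 - 3 * E 3 - 2 * E 6 = 0 := by
    rw [← a2, hEdef]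
    simp only [map_sub, map_mul, map_ofNat, Finset.mul_sum]
    rw [← Finset.sum_sub_distrib, ← Finset.sum_sub_distrib]
    exact Finset.sum_congr rfl fun i _ => by ring
  have hX0 : X 2 = - X 0 := by
    rw [hXE, hXE, l0, l2]
    linear_combination 16 * ha0
  have hX1 : X 4 = - X 1 := by
    rw [hXE, hXE, l1, l4]
    linear_combination 16 * ha1
  have hX2 : X 5 = 3 * X 3 + 2 * X 6 := by
    rw [hXE, hXE, hXE, l3, l5, l6]
    linear_combination 16 * ha2
  set R0 : Fin 6 → MvPowerSeries (Fin 10) k := ![-X 0, X 1, X 3, X 6, X 7, X 8] with hR0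
  set E' : Fin 9 → MvPowerSeries (Fin 10) k := fun t => ∑ i, c i * DD k (η i (ivO t)) with hE'
  have hw : ∀ t, w0 k TA sA η' C' t = -A * (sA t : MvPowerSeries (Fin 10) k) + 16 * E' t := by
    intro t
    rw [hE']
    unfold w0
    simp only [Fin.sum_univ_succ (n := m), hC', hη', Fin.cons_zero, Fin.cons_succ]
    rw [RH_EUs, Finset.mul_sum]
    congr 1
    refine Finset.sum_congr rfl fun i _ => ?_
    unfold DD
    ring
  have hb0 : E' 0 + E' 2 = W₀ := by
    rw [← b0, hE']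
    simp only [RH_DD_add, mul_add, Finset.sum_add_distrib]
  have hb1 : E' 1 + E' 4 = W₁ := by
    rw [← b1, hE']
    simp only [RH_DD_add, mul_add, Finset.sum_add_distrib]
  have hb2 : E' 5 - 3 * E' 3 - 2 * E' 6 = W₂ := by
    rw [← b2, hE']
    simp only [RH_DD_lin, Finset.mul_sum]
    rw [← Finset.sum_sub_distrib, ← Finset.sum_sub_distrib]
    exact Finset.sum_congr rfl fun i _ => by ring
  have s0 : sA 0 = 0 := rfl
  have s1 : sA 1 = 0 := rfl
  have s2 : sA 2 = 1 := rfl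
  have s3 : sA 3 = 0 := rfl
  have s4 : sA 4 = 0 := rfl
  have s5 : sA 5 = 1 := rfl
  have s6 : sA 6 = 0 := rfl
  have hw0 : w0 k TA sA η' C' 0 + w0 k TA sA η' C' 2 = 16 * W₀ - A := by
    rw [hw, hw, s0, s2, ← hb0]; push_cast; ring
  have hw1 : w0 k TA sA η' C' 1 + w0 k TA sA η' C' 4 = 16 * W₁ := by
    rw [hw, hw, s1, s4, ← hb1]; push_cast; ring
  have hw2 : w0 k TA sA η' C' 5 - 3 * w0 k TA sA η' C' 3 - 2 * w0 k TA sA η' C' 6 = 16 * W₂ - A := by
    rw [hw, hw, hw, s5, s3, s6, ← hb2]; push_cast; ring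
  refine R_final k TA sA hFG hgeo hfin η' α' ?_ C' R0 ?_ ?_ ?_
  · intro i
    refine Fin.cases ?_ (fun i => ?_) i
    · exact hE
    · exact hmother i
  · intro t
    have hXt : ∑ i, C' i * MvPolynomial.aeval (pO0 k TA) (η' i (ivO t)) = X t := rfl
    rw [hXt, Fin.sum_univ_six]
    fin_cases t
    · show X 0 = ((-1 : ℤ) : MvPowerSeries (Fin 10) k) * (-X 0) + ((0 : ℤ) : MvPowerSeries (Fin 10) k) * X 1 + ((0 : ℤ) : MvPowerSeries (Fin 10) k) * X 3 +
        ((0 : ℤ) : MvPowerSeries (Fin 10) k) * X 6 + ((0 : ℤ) : MvPowerSeries (Fin 10) k) * X 7 + ((0 : ℤ) : MvPowerSeries (Fin 10) k) * X 8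
      push_cast; ring
    · show X 1 = ((0 : ℤ) : MvPowerSeries (Fin 10) k) * (-X 0) + ((1 : ℤ) : MvPowerSeries (Fin 10) k) * X 1 + ((0 : ℤ) : MvPowerSeries (Fin 10) k) * X 3 +
        ((0 : ℤ) : MvPowerSeries (Fin 10) k) * X 6 + ((0 : ℤ) : MvPowerSeries (Fin 10) k) * X 7 + ((0 : ℤ) : MvPowerSeries (Fin 10) k) * X 8
      push_cast; ring
    · show X 2 = ((1 : ℤ) : MvPowerSeries (Fin 10) k) * (-X 0) + ((0 : ℤ) : MvPowerSeries (Fin 10) k) * X 1 + ((0 : ℤ) : MvPowerSeries (Fin 10) k) * X 3 +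
        ((0 : ℤ) : MvPowerSeries (Fin 10) k) * X 6 + ((0 : ℤ) : MvPowerSeries (Fin 10) k) * X 7 + ((0 : ℤ) : MvPowerSeries (Fin 10) k) * X 8
      rw [hX0]; push_cast; ring
    · show X 3 = ((0 : ℤ) : MvPowerSeries (Fin 10) k) * (-X 0) + ((0 : ℤ) : MvPowerSeries (Fin 10) k) * X 1 + ((1 : ℤ) : MvPowerSeries (Fin 10) k) * X 3 +
        ((0 : ℤ) : MvPowerSeries (Fin 10) k) * X 6 + ((0 : ℤ) : MvPowerSeries (Fin 10) k) * X 7 + ((0 : ℤ) : MvPowerSeries (Fin 10) k) * X 8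
      push_cast; ring
    · show X 4 = ((0 : ℤ) : MvPowerSeries (Fin 10) k) * (-X 0) + ((-1 : ℤ) : MvPowerSeries (Fin 10) k) * X 1 + ((0 : ℤ) : MvPowerSeries (Fin 10) k) * X 3 +
        ((0 : ℤ) : MvPowerSeries (Fin 10) k) * X 6 + ((0 : ℤ) : MvPowerSeries (Fin 10) k) * X 7 + ((0 : ℤ) : MvPowerSeries (Fin 10) k) * X 8
      rw [hX1]; push_cast; ring
    · show X 5 = ((0 : ℤ) : MvPowerSeries (Fin 10) k) * (-X 0) + ((0 : ℤ) : MvPowerSeries (Fin 10) k) * X 1 + ((3 : ℤ) : MvPowerSeries (Fin 10) k) * X 3 +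
        ((2 : ℤ) : MvPowerSeries (Fin 10) k) * X 6 + ((0 : ℤ) : MvPowerSeries (Fin 10) k) * X 7 + ((0 : ℤ) : MvPowerSeries (Fin 10) k) * X 8
      rw [hX2]; push_cast; ring
    · show X 6 = ((0 : ℤ) : MvPowerSeries (Fin 10) k) * (-X 0) + ((0 : ℤ) : MvPowerSeries (Fin 10) k) * X 1 + ((0 : ℤ) : MvPowerSeries (Fin 10) k) * X 3 +
        ((1 : ℤ) : MvPowerSeries (Fin 10) k) * X 6 + ((0 : ℤ) : MvPowerSeries (Fin 10) k) * X 7 + ((0 : ℤ) : MvPowerSeries (Fin 10) k) * X 8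
      push_cast; ring
    · show X 7 = ((0 : ℤ) : MvPowerSeries (Fin 10) k) * (-X 0) + ((0 : ℤ) : MvPowerSeries (Fin 10) k) * X 1 + ((0 : ℤ) : MvPowerSeries (Fin 10) k) * X 3 +
        ((0 : ℤ) : MvPowerSeries (Fin 10) k) * X 6 + ((1 : ℤ) : MvPowerSeries (Fin 10) k) * X 7 + ((0 : ℤ) : MvPowerSeries (Fin 10) k) * X 8
      push_cast; ring
    · show X 8 = ((0 : ℤ) : MvPowerSeries (Fin 10) k) * (-X 0) + ((0 : ℤ) : MvPowerSeries (Fin 10) k) * X 1 + ((0 : ℤ) : MvPowerSeries (Fin 10) k) * X 3 +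
        ((0 : ℤ) : MvPowerSeries (Fin 10) k) * X 6 + ((0 : ℤ) : MvPowerSeries (Fin 10) k) * X 7 + ((1 : ℤ) : MvPowerSeries (Fin 10) k) * X 8
      push_cast; ring
  · rw [Fin.sum_univ_succ]
    show (-A) * MvPolynomial.aeval (pO0 k TA) (16 : MvPolynomial (Fin 13) ℤ) + ∑ i : Fin m, (16 * c i) * MvPolynomial.aeval (pO0 k TA) (α i) = 0
    have h16 : MvPolynomial.aeval (pO0 k TA) (16 : MvPolynomial (Fin 13) ℤ) = 16 := map_ofNat _ 16
    rw [h16, Finset.sum_congr rfl fun i _ => mul_assoc (16 : MvPowerSeries (Fin 10) k) (c i) _, ← Finset.mul_sum, hA]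
    ring
  · intro hmem
    apply hne
    have hc : ∀ j, MvPowerSeries.constantCoeff (unf k (Phi0 k TA) j) = 0 := unf_const _ (phi0_const k TA)
    have hs : MvPowerSeries.HasSubst (unf k (Phi0 k TA)) := MvPowerSeries.hasSubst_of_constantCoeff_zero hc
    set sb : MvPowerSeries (Fin 10) k → MvPowerSeries (Fin 9) k := fun x => MvPowerSeries.subst (unf k (Phi0 k TA)) x with hsb
    have sadd : ∀ x y, sb (x + y) = sb x + sb y := by
      intro x y
      rw [hsb]
      simp only [← MvPowerSeries.coe_substAlgHom hs, map_add]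
    have sneg : ∀ x, sb (-x) = - sb x := by
      intro x
      rw [hsb]
      simp only [← MvPowerSeries.coe_substAlgHom hs, map_neg]
    have ssub : ∀ x y, sb (x - y) = sb x - sb y := by
      intro x y
      rw [sub_eq_add_neg, sadd, sneg, ← sub_eq_add_neg]
    have s3' : ∀ x, sb (3 * x) = 3 * sb x := by
      intro x
      rw [hsb]
      simp only [← MvPowerSeries.coe_substAlgHom hs, map_mul, map_ofNat]
    have s2' : ∀ x, sb (2 * x) = 2 * sb x := by
      intro x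
      rw [hsb]
      simp only [← MvPowerSeries.coe_substAlgHom hs, map_mul, map_ofNat]
    set w : Fin 9 → MvPowerSeries (Fin 10) k := w0 k TA sA η' C' with hwdef
    have hflag := flag_mem k ![-w 0, w 1, w 3, w 6, w 7, w 8] (fun i => MvPowerSeries.subst (fX k) ((![-w 0, w 1, w 3, w 6, w 7, w 8] : Fin 6 → _) i))
      (fun i => rfl)
    rw [← fX_eq] at hflag
    have hd := Submodule.sub_mem _ hmem hflag
    obtain ⟨d0, d1, d2, d3⟩ := RH_D k (fun t => sb (w t))
    convert hd using 1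
    funext j
    rw [Pi.sub_apply]
    fin_cases j
    · show (0 : MvPowerSeries (Fin 9) k) = vec0 k TA sA η' C' 0 - (-(sb (-w 0) * MvPowerSeries.X 1) + sb (w 1) * MvPowerSeries.X 2)
      have hv : vec0 k TA sA η' C' 0 = sb (w 0) * MvPowerSeries.X 1 + sb (w 1) * MvPowerSeries.X 2 := d0
      rw [hv, sneg]; ring
    · show sb (16 * W₀ - A) * MvPowerSeries.X 0 = vec0 k TA sA η' C' 1 - (sb (-w 0) * MvPowerSeries.X 0 + sb (w 3) * MvPowerSeries.X 2)
      have hv : vec0 k TA sA η' C' 1 = sb (w 2) * MvPowerSeries.X 0 + sb (w 3) * MvPowerSeries.X 2 := d1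
      rw [hv, ← hw0, sneg, sadd]; ring
    · show sb (16 * W₁) * MvPowerSeries.X 0 + sb (16 * W₂ - A) * MvPowerSeries.X 1 =
        vec0 k TA sA η' C' 2 - (-(sb (w 1) * MvPowerSeries.X 0) + (3 * sb (w 3) + 2 * sb (w 6)) * MvPowerSeries.X 1)
      have hv : vec0 k TA sA η' C' 2 = sb (w 4) * MvPowerSeries.X 0 + sb (w 5) * MvPowerSeries.X 1 := d2
      rw [hv, ← hw1, ← hw2, sadd, ssub, ssub, s3', s2']; ring
    · show (0 : MvPowerSeries (Fin 9) k) = vec0 k TA sA η' C' 3 - (sb (w 6) * MvPowerSeries.X 0 + sb (w 7) * MvPowerSeries.X 1 + sb (w 8) * MvPowerSeries.X 2)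
      have hv : vec0 k TA sA η' C' 3 = sb (w 6) * MvPowerSeries.X 0 + sb (w 7) * MvPowerSeries.X 1 + sb (w 8) * MvPowerSeries.X 2 := d3
      rw [hv]; ring
    all_goals
      show (0 : MvPowerSeries (Fin 9) k) = 0 - 0
      rw [sub_zero]

end

end Pool.Agent.LibMX34
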