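import Mathlib

set_option autoImplicit false

/-! MP_ed98ad_ag (Mond's conjecture is false): abstract core, see MOND_h34_1.md. `A = k[[s]]`, `O → B` over `A`, `O₀ → B₀` its reduction mod `s`. -/

namespace Pool.Agent.LibMX34

section

variable {k : Type} [Field k] {n p : ℕ} {O B O₀ B₀ : Type} [CommRing O] [CommRing B] [CommRing O₀] [CommRing B₀]
  [Algebra (PowerSeries k) O] [Algebra (PowerSeries k) B] [Algebra k O₀] [Algebra k B₀]

/-- the element `s` of an algebra over `k[[s]]` -/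
noncomputable def sE (k : Type) [Field k] (O : Type) [CommRing O] [Algebra (PowerSeries k) O] : O :=
  algebraMap (PowerSeries k) O PowerSeries.X

/-- `tf(θ) + wf(θ)` : `D₀` are the columns of the Jacobian matrix -/
def W (f : O₀ →ₐ[k] B₀) (D₀ : Fin n → Fin p → B₀) : Submodule k (Fin p → B₀) where
  carrier := {v | ∃ (a : Fin n → B₀) (η : Fin p → O₀), ∀ j, v j = ∑ i, a i * D₀ i j + f (η j)}
  add_mem' := by
    rintro x y ⟨a, η, h⟩ ⟨a', η', h'⟩
    refine ⟨a + a', η + η', fun j => ?_⟩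
    simp only [Pi.add_apply, h, h', add_mul, Finset.sum_add_distrib, map_add]
    ring
  zero_mem' := ⟨0, 0, by simp⟩
  smul_mem' := by
    rintro c x ⟨a, η, h⟩
    refine ⟨c • a, c • η, fun j => ?_⟩
    simp only [Pi.smul_apply, h, smul_add, Finset.smul_sum, smul_mul_assoc, map_smul]

/-- the hypotheses of the core theorem -/
structure Core (F : O →ₐ[PowerSeries k] B) (f : O₀ →ₐ[k] B₀) (spO : O →+* O₀) (spB : B →+* B₀)
    (D : Fin n → Fin p → B) (F' m : Fin p → B) (lam : B) (G dGs κ : O) (dG κ' : Fin p → O) : Prop where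
  noeth : IsNoetherianRing O
  loc : IsLocalRing O
  s_mem : ¬ IsUnit (sE k O)
  -- `B` is `s`-torsion free, `B₀` is a domain
  s_reg : ∀ b : B, sE k B * b = 0 → b = 0
  dom : IsDomain B₀
  -- reduction mod `s`
  spO_C : ∀ (c : PowerSeries k), spO (algebraMap (PowerSeries k) O c) = algebraMap k O₀ (PowerSeries.constantCoeff c)
  spB_C : ∀ (c : PowerSeries k), spB (algebraMap (PowerSeries k) B c) = algebraMap k B₀ (PowerSeries.constantCoeff c)
  spO_surj : Function.Surjective spO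
  spB_surj : Function.Surjective spB
  spO_ker : ∀ a : O, spO a = 0 → ∃ b, a = sE k O * b
  spB_ker : ∀ a : B, spB a = 0 → ∃ b, a = sE k B * b
  sp_F : ∀ a : O, spB (F a) = f (spO a)
  -- the image equation
  FG : F G = 0
  ker₀ : ∀ h : O₀, f h = 0 → ∃ c, h = c * spO G
  -- the conductor
  F_dG : ∀ j, F (dG j) = lam * m j
  F_dGs : F dGs = - lam * ∑ j, F' j * m j
  lam_ne : spB lam ≠ 0
  -- minors
  minors : ∀ i, ∑ j, D i j * m j = 0
  hb : ∀ c : Fin p → B₀, ∑ j, c j * spB (m j) = 0 → ∃ a : Fin n → B₀, ∀ j, c j = ∑ i, a i * spB (D i j)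
  -- Euler
  euler : G = κ * sE k O * dGs + ∑ j, κ' j * dG j

/-- the ideal `{a : F a ∈ lam (m_1, .., m_p)}` -/
def II (F : O →ₐ[PowerSeries k] B) (m : Fin p → B) (lam : B) : Ideal O where
  carrier := {a | ∃ c : Fin p → B, F a = lam * ∑ j, c j * m j}
  add_mem' := by
    rintro x y ⟨a, h⟩ ⟨a', h'⟩
    refine ⟨a + a', ?_⟩
    simp only [map_add, h, h', Pi.add_apply, add_mul, Finset.sum_add_distrib, mul_add]
  zero_mem' := ⟨0, by simp⟩
  smul_mem' := by
    rintro c x ⟨a, h⟩
    refine ⟨fun j => F c * a j, ?_⟩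
    simp only [smul_eq_mul, map_mul, h, Finset.mul_sum]
    exact Finset.sum_congr rfl fun _ _ => by ring

/-- the Jacobian ideal -/
abbrev JJ (dG : Fin p → O) : Ideal O := Ideal.span (Set.range dG)

/-- the module `M`, an ideal of `O / J` -/
abbrev MM (F : O →ₐ[PowerSeries k] B) (m : Fin p → B) (lam : B) (dG : Fin p → O) : Ideal (O ⧸ JJ dG) :=
  (II F m lam).map (Ideal.Quotient.mk (JJ dG))

end

end Pool.Agent.LibMX34
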