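import Pool.Agent.LibMX34.Flag

set_option autoImplicit false

/-! MP_ed98ad_ag (Mond's conjecture is false): the explicit form of the example (helper34). -/

namespace Pool.Agent.LibMX34

section

variable (k : Type) [Field k]

/-- the deformation `F`, word for word the one of the hand-in -/
noncomputable def FA : Fin 10 → MvPowerSeries (Fin 9) (PowerSeries k) :=
  let x := MvPowerSeries.X 0; let y := MvPowerSeries.X 1; let z := MvPowerSeries.X 2
  let u₁ := MvPowerSeries.X 3; let u₂ := MvPowerSeries.X 4; let u₃ := MvPowerSeries.X 5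
  let u₄ := MvPowerSeries.X 6; let u₅ := MvPowerSeries.X 7; let u₆ := MvPowerSeries.X 8
  let s : MvPowerSeries (Fin 9) (PowerSeries k) := MvPowerSeries.C PowerSeries.X
  ![x ^ 2 - u₁ * y + u₂ * z,
    y ^ 2 + x * z + (u₁ + s) * x + u₃ * z,
    z ^ 2 + x * y - u₂ * x + (3 * u₃ + 2 * u₄ + s) * y,
    y * z + u₄ * x + u₅ * y + u₆ * z,
    u₁, u₂, u₃, u₄, u₅, u₆]

private theorem FinA_pB_left {r : ℕ} (T : Fin 9 → Fin r → ℤ) (σ : Fin 9 → ℤ) (i : Fin 3) :
    pB k T σ (Fin.castAdd 9 i) = MvPowerSeries.X (Fin.castLE (by omega) i) :=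
  Fin.append_left _ _ i

private theorem FinA_pB_right {r : ℕ} (T : Fin 9 → Fin r → ℤ) (σ : Fin 9 → ℤ) (t : Fin 9) :
    pB k T σ (Fin.natAdd 3 t) = LB k T σ t :=
  Fin.append_right _ _ t

theorem FA_eq : FA k = unf (PowerSeries k) (PhiS k TA sA) := by
  have h0 : pB k TA sA 0 = MvPowerSeries.X 0 := FinA_pB_left k TA sA 0
  have h1 : pB k TA sA 1 = MvPowerSeries.X 1 := FinA_pB_left k TA sA 1
  have h2 : pB k TA sA 2 = MvPowerSeries.X 2 := FinA_pB_left k TA sA 2
  have h3 : pB k TA sA 3 = LB k TA sA 0 := FinA_pB_right k TA sA 0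
  have h4 : pB k TA sA 4 = LB k TA sA 1 := FinA_pB_right k TA sA 1
  have h5 : pB k TA sA 5 = LB k TA sA 2 := FinA_pB_right k TA sA 2
  have h6 : pB k TA sA 6 = LB k TA sA 3 := FinA_pB_right k TA sA 3
  have h7 : pB k TA sA 7 = LB k TA sA 4 := FinA_pB_right k TA sA 4
  have h8 : pB k TA sA 8 = LB k TA sA 5 := FinA_pB_right k TA sA 5
  have h9 : pB k TA sA 9 = LB k TA sA 6 := FinA_pB_right k TA sA 6
  have h10 : pB k TA sA 10 = LB k TA sA 7 := FinA_pB_right k TA sA 7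
  have h11 : pB k TA sA 11 = LB k TA sA 8 := FinA_pB_right k TA sA 8
  have hx : (Fin.succ (Fin.succ (Fin.succ (0 : Fin 6))) : Fin (6 + 3)) = (3 : Fin 9) := rfl
  have hx1 : (Fin.succ (Fin.succ (Fin.succ (1 : Fin 6))) : Fin (6 + 3)) = (4 : Fin 9) := rfl
  have hx2 : (Fin.succ (Fin.succ (Fin.succ (2 : Fin 6))) : Fin (6 + 3)) = (5 : Fin 9) := rfl
  have hx3 : (Fin.succ (Fin.succ (Fin.succ (3 : Fin 6))) : Fin (6 + 3)) = (6 : Fin 9) := rfl
  have hx4 : (Fin.succ (Fin.succ (Fin.succ (4 : Fin 6))) : Fin (6 + 3)) = (7 : Fin 9) := rfl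
  have hx5 : (Fin.succ (Fin.succ (Fin.succ (5 : Fin 6))) : Fin (6 + 3)) = (8 : Fin 9) := rfl
  have l0 : LB k TA sA 0 = - MvPowerSeries.X 3 := by
    unfold LB; rw [Fin.sum_univ_six, hx, hx1, hx2, hx3, hx4, hx5]; simp [TA, sA]
  have l1 : LB k TA sA 1 = MvPowerSeries.X 4 := by
    unfold LB; rw [Fin.sum_univ_six, hx, hx1, hx2, hx3, hx4, hx5]; simp [TA, sA]
  have l2 : LB k TA sA 2 = MvPowerSeries.X 3 + sV k := by
    unfold LB; rw [Fin.sum_univ_six, hx, hx1, hx2, hx3, hx4, hx5]; simp [TA, sA]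
  have l3 : LB k TA sA 3 = MvPowerSeries.X 5 := by
    unfold LB; rw [Fin.sum_univ_six, hx, hx1, hx2, hx3, hx4, hx5]; simp [TA, sA]
  have l4 : LB k TA sA 4 = - MvPowerSeries.X 4 := by
    unfold LB; rw [Fin.sum_univ_six, hx, hx1, hx2, hx3, hx4, hx5]; simp [TA, sA]
  have l5 : LB k TA sA 5 = 3 * MvPowerSeries.X 5 + 2 * MvPowerSeries.X 6 + sV k := by
    unfold LB; rw [Fin.sum_univ_six, hx, hx1, hx2, hx3, hx4, hx5]; simp [TA, sA]
  have l6 : LB k TA sA 6 = MvPowerSeries.X 6 := by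
    unfold LB; rw [Fin.sum_univ_six, hx, hx1, hx2, hx3, hx4, hx5]; simp [TA, sA]
  have l7 : LB k TA sA 7 = MvPowerSeries.X 7 := by
    unfold LB; rw [Fin.sum_univ_six, hx, hx1, hx2, hx3, hx4, hx5]; simp [TA, sA]
  have l8 : LB k TA sA 8 = MvPowerSeries.X 8 := by
    unfold LB; rw [Fin.sum_univ_six, hx, hx1, hx2, hx3, hx4, hx5]; simp [TA, sA]
  have e0 : PhiS k TA sA 0 = FA k 0 := by
    show MvPolynomial.aeval (pB k TA sA) (MvPolynomial.X 0 ^ 2 + MvPolynomial.X 3 * MvPolynomial.X 1 + MvPolynomial.X 4 * MvPolynomial.X 2) = _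
    simp only [map_add, map_mul, map_pow, MvPolynomial.aeval_X, h0, h1, h2, h3, h4, l0, l1]
    simp only [FA, Matrix.cons_val_zero]
    ring
  have e1 : PhiS k TA sA 1 = FA k 1 := by
    show MvPolynomial.aeval (pB k TA sA) (MvPolynomial.X 1 ^ 2 + MvPolynomial.X 0 * MvPolynomial.X 2 + MvPolynomial.X 5 * MvPolynomial.X 0 +
      MvPolynomial.X 6 * MvPolynomial.X 2) = _
    simp only [map_add, map_mul, map_pow, MvPolynomial.aeval_X, h0, h1, h2, h5, h6, l2, l3]
    simp only [FA, Matrix.cons_val_one, Matrix.cons_val_zero, sV]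
  have e2 : PhiS k TA sA 2 = FA k 2 := by
    show MvPolynomial.aeval (pB k TA sA) (MvPolynomial.X 2 ^ 2 + MvPolynomial.X 0 * MvPolynomial.X 1 + MvPolynomial.X 7 * MvPolynomial.X 0 +
      MvPolynomial.X 8 * MvPolynomial.X 1) = _
    simp only [map_add, map_mul, map_pow, MvPolynomial.aeval_X, h0, h1, h2, h7, h8, l4, l5]
    show _ = MvPowerSeries.X 2 ^ 2 + MvPowerSeries.X 0 * MvPowerSeries.X 1 - MvPowerSeries.X 4 * MvPowerSeries.X 0 +
      (3 * MvPowerSeries.X 5 + 2 * MvPowerSeries.X 6 + sV k) * MvPowerSeries.X 1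
    ring
  have e3 : PhiS k TA sA 3 = FA k 3 := by
    show MvPolynomial.aeval (pB k TA sA) (MvPolynomial.X 1 * MvPolynomial.X 2 + MvPolynomial.X 9 * MvPolynomial.X 0 + MvPolynomial.X 10 * MvPolynomial.X 1 +
      MvPolynomial.X 11 * MvPolynomial.X 2) = _
    simp only [map_add, map_mul, map_pow, MvPolynomial.aeval_X, h0, h1, h2, h9, h10, h11, l6, l7, l8]
    rfl
  funext j
  refine Fin.cases ?_ (fun j => ?_) j
  · exact e0.symm
  · refine Fin.cases ?_ (fun j => ?_) j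
    · exact e1.symm
    · refine Fin.cases ?_ (fun j => ?_) j
      · exact e2.symm
      · refine Fin.cases ?_ (fun j => ?_) j
        · exact e3.symm
        · show FA k j.succ.succ.succ.succ = MvPowerSeries.X (j.succ.succ.succ : Fin 9)
          fin_cases j <;> rfl

theorem FA_zero : (fun j => atZero k (FA k j)) = unf k (Phi0 k TA) := by
  have h1 : (fun j => atZero k (PhiS k TA sA j)) = Phi0 k TA := funext fun j => at_phi k TA sA j
  rw [FA_eq, ← h1]
  funext j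
  exact at_unf k _ j

end

end Pool.Agent.LibMX34
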