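import Pool.Agent.LibMX34.I4

set_option autoImplicit false

/-! MX34 I6 (helper36). The image equation over `k[[s]]` from the one over `k`, by Krull's intersection theorem. -/

namespace Pool.Agent.LibMX34

open IsLocalRing

private theorem I6_sep {O M : Type} [CommRing O] [IsNoetherianRing O] [IsLocalRing O] [AddCommGroup M]
    [Module O M] [Module.Finite O M] (x : O) (hx : x ∈ maximalIdeal O) (m : M)
    (hm : ∀ j : ℕ, ∃ m' : M, m = x ^ j • m') : m = 0 := by
  have hI1 : Ideal.span {x} ≠ ⊤ := by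
    intro h
    have h2 : Ideal.span {x} ≤ maximalIdeal O := by
      rw [Ideal.span_le, Set.singleton_subset_iff]
      exact hx
    rw [h, top_le_iff] at h2
    exact (maximalIdeal.isMaximal O).ne_top h2
  have h3 := Ideal.iInf_pow_smul_eq_bot_of_isLocalRing (M := M) (Ideal.span {x}) hI1
  have h4 : m ∈ (⨅ i : ℕ, Ideal.span {x} ^ i • ⊤ : Submodule O M) := by
    rw [Submodule.mem_iInf]
    intro j
    obtain ⟨m', hm'⟩ := hm j
    rw [hm']
    exact Submodule.smul_mem_smul (Ideal.pow_mem_pow (Ideal.mem_span_singleton_self x) j)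
      Submodule.mem_top
  rw [h3] at h4
  exact (Submodule.mem_bot O).1 h4

theorem image_eq {k : Type} [Field k] {r : ℕ} {Φ : Fin 4 → MvPowerSeries (Fin (r + 3)) (PowerSeries k)}
    {G : MvPowerSeries (Fin (r + 4)) (PowerSeries k)} (hgeo : Geo k Φ G)
    (h : MvPowerSeries (Fin (r + 4)) (PowerSeries k)) :
    MvPowerSeries.subst (unf (PowerSeries k) Φ) h = 0 ↔ G ∣ h := by
  have hc : ∀ j, MvPowerSeries.constantCoeff (unf (PowerSeries k) Φ j) = 0 := unf_const Φ hgeo.const
  have hs : MvPowerSeries.HasSubst (unf (PowerSeries k) Φ) := MvPowerSeries.hasSubst_of_constantCoeff_zero hc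
  have hmul : ∀ a b : MvPowerSeries (Fin (r + 4)) (PowerSeries k), MvPowerSeries.subst (unf (PowerSeries k) Φ) (a * b) =
      MvPowerSeries.subst (unf (PowerSeries k) Φ) a * MvPowerSeries.subst (unf (PowerSeries k) Φ) b :=
    fun a b => MvPowerSeries.subst_mul hs a b
  have hadd : ∀ a b : MvPowerSeries (Fin (r + 4)) (PowerSeries k), MvPowerSeries.subst (unf (PowerSeries k) Φ) (a + b) =
      MvPowerSeries.subst (unf (PowerSeries k) Φ) a + MvPowerSeries.subst (unf (PowerSeries k) Φ) b :=
    fun a b => MvPowerSeries.subst_add hs a b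
  have hsV : MvPowerSeries.subst (unf (PowerSeries k) Φ) (sV k : MvPowerSeries (Fin (r + 4)) (PowerSeries k)) =
      (sV k : MvPowerSeries (Fin (r + 3)) (PowerSeries k)) := by
    unfold sV
    exact MvPowerSeries.subst_C _
  constructor
  · intro h0
    -- `h ∈ (G) + (s ^ n)`
    have step : ∀ a : MvPowerSeries (Fin (r + 4)) (PowerSeries k), MvPowerSeries.subst (unf (PowerSeries k) Φ) a = 0 →
        ∃ c b, a = G * c + sV k * b ∧ MvPowerSeries.subst (unf (PowerSeries k) Φ) b = 0 := by
      intro a ha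
      have h1 := at_sub k (unf (PowerSeries k) Φ) hc a
      rw [ha, map_zero] at h1
      have h2 : (fun j => atZero k (unf (PowerSeries k) Φ j)) = unf k (fun j => atZero k (Φ j)) := by
        funext j
        exact at_unf k Φ j
      rw [h2] at h1
      obtain ⟨c0, hc0⟩ := hgeo.ker0 _ h1.symm
      obtain ⟨c, rfl⟩ := at_surj k _ c0
      obtain ⟨b, hb⟩ := at_ker k _ (a - G * c) (by rw [map_sub, map_mul, hc0, sub_self])
      have h3 : a = G * c + sV k * b := by rw [← hb]; ring
      refine ⟨c, b, h3, ?_⟩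
      rw [h3, hadd, hmul, hmul, hgeo.FG, zero_mul, zero_add, hsV] at ha
      exact sV_reg k _ _ ha
    have hn : ∀ n : ℕ, ∀ a : MvPowerSeries (Fin (r + 4)) (PowerSeries k), MvPowerSeries.subst (unf (PowerSeries k) Φ) a = 0 →
        ∃ c b, a = G * c + sV k ^ n * b := by
      intro n
      induction n with
      | zero =>
        intro a _
        exact ⟨0, a, by rw [mul_zero, zero_add, pow_zero, one_mul]⟩
      | succ n ih =>
        intro a ha
        obtain ⟨c, b, h1, h2⟩ := step a ha
        obtain ⟨c', b', h3⟩ := ih b h2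
        refine ⟨c + sV k * c', b', ?_⟩
        rw [h1, h3]
        ring
    have hX : (sV k : MvPowerSeries (Fin (r + 4)) (PowerSeries k)) ∈
        maximalIdeal (MvPowerSeries (Fin (r + 4)) (PowerSeries k)) := by
      rw [mem_maximalIdeal, mem_nonunits_iff]
      exact sV_not_unit k _
    have h1 : Ideal.Quotient.mk (Ideal.span {G}) h = 0 := by
      refine I6_sep (M := MvPowerSeries (Fin (r + 4)) (PowerSeries k) ⧸ Ideal.span {G}) (sV k) hX _ fun n => ?_
      obtain ⟨c, b, h2⟩ := hn n h h0
      refine ⟨Ideal.Quotient.mk _ b, ?_⟩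
      rw [h2, map_add]
      have h3 : Ideal.Quotient.mk (Ideal.span {G}) (G * c) = 0 :=
        Ideal.Quotient.eq_zero_iff_mem.mpr (Ideal.mul_mem_right _ _ (Ideal.mem_span_singleton_self G))
      rw [h3, zero_add]
      rfl
    exact Ideal.mem_span_singleton.mp (Ideal.Quotient.eq_zero_iff_mem.mp h1)
  · rintro ⟨c, rfl⟩
    rw [hmul, hgeo.FG, zero_mul]

end Pool.Agent.LibMX34
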