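import Pool.Agent.LibMX34.FinA
import Pool.Agent.LibMX34.I6

set_option autoImplicit false

/-! MP_ed98ad_ag (Mond's conjecture is false): the last step (helper34). -/

namespace Pool.Agent.LibMX34

theorem final_of (k : Type) [Field k] [CharZero k]
    (hgeo : Geo k (PhiS k TA sA) (GS k TA sA)) (hfin : Module.Finite k (T1 k (unf k (Phi0 k TA))))
    (hst : ∃ e : ℕ, ∀ z : T1 (PowerSeries k) (unf (PowerSeries k) (PhiS k TA sA)), (PowerSeries.X : PowerSeries k) ^ e • z = 0)
    (hlt : Module.rank (PowerSeries k) (Localization.Away (Ideal.Quotient.mk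
      (Ideal.span (Set.range fun j => MvPowerSeries.pderiv (PowerSeries k) j (GS k TA sA))) (GS k TA sA))) < Cardinal.aleph0 ∧
      Module.finrank (PowerSeries k) (Localization.Away (Ideal.Quotient.mk
      (Ideal.span (Set.range fun j => MvPowerSeries.pderiv (PowerSeries k) j (GS k TA sA))) (GS k TA sA))) <
      Module.finrank k (T1 k (unf k (Phi0 k TA)))) :
    Module.Finite k (T1 k fun j => atZero k (FA k j)) ∧ (∀ j, MvPowerSeries.constantCoeff (FA k j) = 0) ∧
    (∃ e : ℕ, ∀ z : T1 (PowerSeries k) (FA k), (PowerSeries.X : PowerSeries k) ^ e • z = 0) ∧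
    ∃ G : MvPowerSeries (Fin 10) (PowerSeries k),
      (∀ h : MvPowerSeries (Fin 10) (PowerSeries k), MvPowerSeries.subst (FA k) h = 0 ↔ G ∣ h) ∧
      Module.rank (PowerSeries k) (Localization.Away (Ideal.Quotient.mk
        (Ideal.span (Set.range fun j => MvPowerSeries.pderiv (PowerSeries k) j G)) G)) < Cardinal.aleph0 ∧
      Module.finrank (PowerSeries k) (Localization.Away (Ideal.Quotient.mk
        (Ideal.span (Set.range fun j => MvPowerSeries.pderiv (PowerSeries k) j G)) G)) <
        Module.finrank k (T1 k fun j => atZero k (FA k j)) := by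
  rw [FA_zero, FA_eq]
  exact ⟨hfin, unf_const _ (phi_const k TA sA), hst, GS k TA sA, image_eq hgeo, hlt.1, hlt.2⟩

end Pool.Agent.LibMX34
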