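import Pool.Agent.LibMX34.RH

set_option autoImplicit false

/-! MP_ed98ad_ag (Mond's conjecture is false): `f` is homogeneous (helper34). -/

namespace Pool.Agent.LibMX34

section

variable {k : Type} [Field k] {σ : Type}

private theorem qa (w : σ → ℕ) {d : ℕ} {f g : MvPowerSeries σ k} (hf : ∀ e, MvPowerSeries.coeff e f ≠ 0 → Finsupp.weight w e = d)
    (hg : ∀ e, MvPowerSeries.coeff e g ≠ 0 → Finsupp.weight w e = d) : ∀ e, MvPowerSeries.coeff e (f + g) ≠ 0 → Finsupp.weight w e = d := by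
  intro e he
  by_cases h : MvPowerSeries.coeff e f = 0
  · refine hg e fun h2 => he ?_
    rw [map_add, h, h2, add_zero]
  · exact hf e h

private theorem qn (w : σ → ℕ) {d : ℕ} {f : MvPowerSeries σ k} (hf : ∀ e, MvPowerSeries.coeff e f ≠ 0 → Finsupp.weight w e = d) :
    ∀ e, MvPowerSeries.coeff e (-f) ≠ 0 → Finsupp.weight w e = d := by
  intro e he
  refine hf e fun h2 => he ?_
  rw [map_neg, h2, neg_zero]

private theorem qm (w : σ → ℕ) {d d' : ℕ} {f g : MvPowerSeries σ k} (hf : ∀ e, MvPowerSeries.coeff e f ≠ 0 → Finsupp.weight w e = d)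
    (hg : ∀ e, MvPowerSeries.coeff e g ≠ 0 → Finsupp.weight w e = d') :
    ∀ e, MvPowerSeries.coeff e (f * g) ≠ 0 → Finsupp.weight w e = d + d' := by
  classical
  intro e he
  rw [MvPowerSeries.coeff_mul] at he
  obtain ⟨p, hp, hpe⟩ := Finset.exists_ne_zero_of_sum_ne_zero he
  rw [Finset.HasAntidiagonal.mem_antidiagonal] at hp
  rw [← hp, map_add, hf p.1 (left_ne_zero_of_mul hpe), hg p.2 (right_ne_zero_of_mul hpe)]

private theorem qX (w : σ → ℕ) (i : σ) : ∀ e, MvPowerSeries.coeff e (MvPowerSeries.X i : MvPowerSeries σ k) ≠ 0 → Finsupp.weight w e = w i := by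
  classical
  intro e he
  rw [MvPowerSeries.coeff_X] at he
  split_ifs at he with h
  · rw [h, Finsupp.weight_single, one_smul]
  · exact absurd rfl he

private theorem qC (w : σ → ℕ) (c : k) : ∀ e, MvPowerSeries.coeff e (MvPowerSeries.C c : MvPowerSeries σ k) ≠ 0 → Finsupp.weight w e = 0 := by
  classical
  intro e he
  rw [MvPowerSeries.coeff_C] at he
  split_ifs at he with h
  · rw [h, map_zero]
  · exact absurd rfl he

private theorem q2 (w : σ → ℕ) : ∀ e, MvPowerSeries.coeff e (2 : MvPowerSeries σ k) ≠ 0 → Finsupp.weight w e = 0 := by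
  have h : (2 : MvPowerSeries σ k) = MvPowerSeries.C (2 : k) := by rw [map_ofNat]
  rw [h]
  exact qC w 2

private theorem q3 (w : σ → ℕ) : ∀ e, MvPowerSeries.coeff e (3 : MvPowerSeries σ k) ≠ 0 → Finsupp.weight w e = 0 := by
  have h : (3 : MvPowerSeries σ k) = MvPowerSeries.C (3 : k) := by rw [map_ofNat]
  rw [h]
  exact qC w 3

end

theorem f_homog (k : Type) [Field k] : ∀ (j : Fin 10) (e : Fin 9 →₀ ℕ), MvPowerSeries.coeff e (atZero k (FA k j)) ≠ 0 →
    Finsupp.weight (fun _ => 1) e = (![2, 2, 2, 2, 1, 1, 1, 1, 1, 1] : Fin 10 → ℕ) j := by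
  intro j
  have h : atZero k (FA k j) = fX k j := by
    rw [← fX_eq, ← FA_zero]
  rw [h]
  have X1 : ∀ i : Fin 9, ∀ e, MvPowerSeries.coeff e (MvPowerSeries.X i : MvPowerSeries (Fin 9) k) ≠ 0 → Finsupp.weight (fun _ => 1) e = 1 :=
    fun i => qX _ i
  have XX : ∀ i j : Fin 9, ∀ e, MvPowerSeries.coeff e (MvPowerSeries.X i * MvPowerSeries.X j : MvPowerSeries (Fin 9) k) ≠ 0 →
      Finsupp.weight (fun _ => 1) e = 2 := fun i j => qm _ (X1 i) (X1 j)
  have XS : ∀ i : Fin 9, ∀ e, MvPowerSeries.coeff e (MvPowerSeries.X i ^ 2 : MvPowerSeries (Fin 9) k) ≠ 0 →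
      Finsupp.weight (fun _ => 1) e = 2 := by
    intro i
    rw [sq]
    exact XX i i
  fin_cases j
  · show ∀ e, MvPowerSeries.coeff e (MvPowerSeries.X 0 ^ 2 - MvPowerSeries.X 3 * MvPowerSeries.X 1 + MvPowerSeries.X 4 * MvPowerSeries.X 2 :
      MvPowerSeries (Fin 9) k) ≠ 0 → Finsupp.weight (fun _ => 1) e = 2
    rw [sub_eq_add_neg]
    exact qa _ (qa _ (XS 0) (qn _ (XX 3 1))) (XX 4 2)
  · show ∀ e, MvPowerSeries.coeff e (MvPowerSeries.X 1 ^ 2 + MvPowerSeries.X 0 * MvPowerSeries.X 2 + MvPowerSeries.X 3 * MvPowerSeries.X 0 +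
      MvPowerSeries.X 5 * MvPowerSeries.X 2 : MvPowerSeries (Fin 9) k) ≠ 0 → Finsupp.weight (fun _ => 1) e = 2
    exact qa _ (qa _ (qa _ (XS 1) (XX 0 2)) (XX 3 0)) (XX 5 2)
  · show ∀ e, MvPowerSeries.coeff e (MvPowerSeries.X 2 ^ 2 + MvPowerSeries.X 0 * MvPowerSeries.X 1 - MvPowerSeries.X 4 * MvPowerSeries.X 0 +
      (3 * MvPowerSeries.X 5 + 2 * MvPowerSeries.X 6) * MvPowerSeries.X 1 : MvPowerSeries (Fin 9) k) ≠ 0 → Finsupp.weight (fun _ => 1) e = 2
    rw [sub_eq_add_neg]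
    have h35 : ∀ e, MvPowerSeries.coeff e (3 * MvPowerSeries.X 5 : MvPowerSeries (Fin 9) k) ≠ 0 → Finsupp.weight (fun _ => 1) e = 1 := by
      have := qm (fun _ => 1) (q3 (k := k) (σ := Fin 9) (fun _ => 1)) (X1 5)
      rwa [zero_add] at this
    have h26 : ∀ e, MvPowerSeries.coeff e (2 * MvPowerSeries.X 6 : MvPowerSeries (Fin 9) k) ≠ 0 → Finsupp.weight (fun _ => 1) e = 1 := by
      have := qm (fun _ => 1) (q2 (k := k) (σ := Fin 9) (fun _ => 1)) (X1 6)
      rwa [zero_add] at this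
    exact qa _ (qa _ (qa _ (XS 2) (XX 0 1)) (qn _ (XX 4 0))) (qm _ (qa _ h35 h26) (X1 1))
  · show ∀ e, MvPowerSeries.coeff e (MvPowerSeries.X 1 * MvPowerSeries.X 2 + MvPowerSeries.X 6 * MvPowerSeries.X 0 +
      MvPowerSeries.X 7 * MvPowerSeries.X 1 + MvPowerSeries.X 8 * MvPowerSeries.X 2 : MvPowerSeries (Fin 9) k) ≠ 0 →
      Finsupp.weight (fun _ => 1) e = 2
    exact qa _ (qa _ (qa _ (XX 1 2) (XX 6 0)) (XX 7 1)) (XX 8 2)
  all_goals exact X1 _

end Pool.Agent.LibMX34
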