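import Pool.Agent.LibMX34.FinB
import Pool.Agent.LibMX34.FinC
import Pool.Agent.LibGF7.ExA
import Pool.Agent.LibGF7.Hne

set_option autoImplicit false

/-! MP_ed98ad_ag (Mond's conjecture is false): the final theorem from its certificates (helper34). -/

namespace Pool.Agent.LibMX34

open Pool.Agent.LibGF7

theorem mond_of (k : Type) [Field k] [CharZero k] (hFG : FUs GG = 0) (hgeo : Geo k (PhiS k TA sA) (GS k TA sA))
    (hE : ∑ t, EU t * MvPolynomial.pderiv t GG = 16 * GG)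
    {m : ℕ} (η : Fin m → Fin 13 → MvPolynomial (Fin 13) ℤ) (ξ : Fin m → Fin 3 → MvPolynomial (Fin 12) ℤ) (α : Fin m → MvPolynomial (Fin 13) ℤ)
    (hmother : ∀ i, ∑ t, η i t * MvPolynomial.pderiv t GG = α i * GG)
    (hlift : ∀ i, Lift (η i) (ξ i)) (h6 : M6 η) (h7 : M7 η)
    (w₀ w₁ w₂ a : MvPolynomial (Fin 10) ℤ)
    (c : Fin m → MvPowerSeries (Fin 10) k) (V₀ V₁ V₂ : MvPowerSeries (Fin 10) (PowerSeries k))
    (hA : ∑ i, c i * MvPolynomial.aeval (pO0 k TA) (α i) = zS k a)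
    (h0 : ∑ i, lift0 k (c i) * MvPolynomial.aeval (pO k TA sA) (η i (ivO 0) + η i (ivO 2)) = sV k * lift0 k (zS k w₀) + sV k ^ 2 * V₀)
    (h1 : ∑ i, lift0 k (c i) * MvPolynomial.aeval (pO k TA sA) (η i (ivO 1) + η i (ivO 4)) = sV k * lift0 k (zS k w₁) + sV k ^ 2 * V₁)
    (h2 : ∑ i, lift0 k (c i) * MvPolynomial.aeval (pO k TA sA) (η i (ivO 5) - 3 * η i (ivO 3) - 2 * η i (ivO 6)) =
      sV k * lift0 k (zS k w₂) + sV k ^ 2 * V₂)
    (d : ℕ) (S : Finset (Fin (6 + 3) →₀ ℕ)) (hS : ∀ e ∈ S, Finsupp.degree e = d) (lam : Fin 4 → (Fin (6 + 3) →₀ ℕ) → ℤ)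
    (g1 : ∀ i α, Finsupp.degree α + 1 = d → Lf S lam (gX (PhiP ℤ TA) i α) = 0)
    (g2 : ∀ j₀ β, Finsupp.weight (wt 6) β = d → Lf S lam (gY (PhiP ℤ TA) j₀ β) = 0)
    (g3 : ∀ a β, Finsupp.weight (wt 6) β + 1 = d → Lf S lam (gU (PhiP ℤ TA) a β) = 0)
    (g5 : Lf S lam (vP w₀ w₁ w₂ a) ≠ 0) :
    (∀ (j : Fin 10) (e : Fin 9 →₀ ℕ), MvPowerSeries.coeff e (atZero k (FA k j)) ≠ 0 →
      Finsupp.weight (fun _ => 1) e = (![2, 2, 2, 2, 1, 1, 1, 1, 1, 1] : Fin 10 → ℕ) j) ∧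
    Module.Finite k (T1 k fun j => atZero k (FA k j)) ∧ (∀ j, MvPowerSeries.constantCoeff (FA k j) = 0) ∧
    (∃ e : ℕ, ∀ z : T1 (PowerSeries k) (FA k), (PowerSeries.X : PowerSeries k) ^ e • z = 0) ∧
    ∃ G : MvPowerSeries (Fin 10) (PowerSeries k),
      (∀ h : MvPowerSeries (Fin 10) (PowerSeries k), MvPowerSeries.subst (FA k) h = 0 ↔ G ∣ h) ∧
      Module.rank (PowerSeries k) (Localization.Away (Ideal.Quotient.mk
        (Ideal.span (Set.range fun j => MvPowerSeries.pderiv (PowerSeries k) j G)) G)) < Cardinal.aleph0 ∧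
      Module.finrank (PowerSeries k) (Localization.Away (Ideal.Quotient.mk
        (Ideal.span (Set.range fun j => MvPowerSeries.pderiv (PowerSeries k) j G)) G)) <
        Module.finrank k (T1 k fun j => atZero k (FA k j)) := by
  have hfin := fin_A η ξ hlift h6 k
  refine ⟨f_homog k, final_of k hgeo hfin (stable_A η ξ hlift h7 k) ?_⟩
  exact R_cert k hFG hgeo hfin hE η α hmother c (zS k a) (zS k w₀) (zS k w₁) (zS k w₂) V₀ V₁ V₂ hA h0 h1 h2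
    (hne_of w₀ w₁ w₂ a d S hS lam g1 g2 g3 g5 k)

end Pool.Agent.LibMX34
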