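import Pool.Agent.LibMX34.FinB
import Pool.Agent.LibMX34.FinC
import Pool.Agent.LibGF7.ExA
import Pool.Agent.LibMG6.C5
import Pool.Agent.LibMG6.C11
import Pool.Agent.LibMG6.C12
import Pool.Agent.LibMV18.Main
import Pool.Agent.LibMCN35.Main
import Pool.Agent.Mond61F.Hne
import Pool.Agent.LibMond56.B6
import Pool.Agent.LibMond56.B7
import Pool.Agent.LibLH10.Main

set_option autoImplicit false

/-! MP_ed98ad_ag: Mond's conjecture is false; the last theorem of the library (helper34). -/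

namespace Pool.Agent.LibMX34

theorem mond_false (k : Type) [Field k] [CharZero k] :
    (∀ (j : Fin 10) (e : Fin 9 →₀ ℕ), MvPowerSeries.coeff e (atZero k (FA k j)) ≠ 0 →
      Finsupp.weight (fun _ => 1) e = (![2, 2, 2, 2, 1, 1, 1, 1, 1, 1] : Fin 10 → ℕ) j) ∧
    Module.Finite k (T1 k fun j => atZero k (FA k j)) ∧ (∀ j, MvPowerSeries.constantCoeff (FA k j) = 0) ∧
    (∃ e : ℕ, ∀ z : T1 (PowerSeries k) (FA k), (PowerSeries.X : PowerSeries k) ^ e • z = 0) ∧
    ∃ G : MvPowerSeries (Fin 10) (PowerSeries k),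
      (∀ h : MvPowerSeries (Fin 10) (PowerSeries k), MvPowerSeries.subst (FA k) h = 0 ↔ G ∣ h) ∧
      Module.rank (PowerSeries k) (Localization.Away (Ideal.Quotient.mk
        (Ideal.span (Set.range fun j => MvPowerSeries.pderiv (PowerSeries k) j G)) G)) < Cardinal.aleph0 ∧
      Module.finrank (PowerSeries k) (Localization.Away (Ideal.Quotient.mk
        (Ideal.span (Set.range fun j => MvPowerSeries.pderiv (PowerSeries k) j G)) G)) <
        Module.finrank k (T1 k fun j => atZero k (FA k j)) := by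
  have hgeo := LibMG6.geo_A k
  have hfin := LibGF7.fin_A LibMV18.etaP LibLH10.xiP LibLH10.hlift Mond56.m6 k
  refine ⟨f_homog k, final_of k hgeo hfin (LibGF7.stable_A LibMV18.etaP LibLH10.xiP LibLH10.hlift Mond56.m7 k) ?_⟩
  exact R_cert k LibMG6.FUs_GG hgeo hfin LibMG6.hE LibMV18.etaP LibMV18.alphaP LibMV18.hmother (LibMCN35.cc k) _ _ _ _
    (LibMCN35.V0 k) (LibMCN35.V1 k) (LibMCN35.V2 k) (LibMCN35.cert_A k) (LibMCN35.cert_0 k) (LibMCN35.cert_1 k) (LibMCN35.cert_2 k)
    (Mond61F.hne_A k)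

end Pool.Agent.LibMX34
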