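import Pool.Agent.LibMX34.IDefs

set_option autoImplicit false
set_option linter.unusedSimpArgs false

/-! ROW MX34 I2 (SHORT/MEDIUM, pure algebra). Hilbert-Burch by hand for a 3 x 4 matrix with a regular pair of minors.
PLAN. mn_rel: Matrix.det_fin_three, Fin.sum_univ_succ, ring (unfold mn; i by fin_cases).
lam_exists: Cramer: mn j * w j' = mn j' * w j for all j, j' (a polynomial combination of the three equations hw i: linear_combination with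
2 x 2 minors as coefficients, or via adjugate; it is enough to have it for (j, 3): mn 3 * w j = mn j * w 3). Then
(∑ e_j mn_j) w_3 = ∑ e_j mn_3 w_j is divisible by mn 3, so w_3 = lam * mn 3 (RegPair), and mn 3 (w_j - lam mn_j) = 0.
hb: for each j0 there are A^{j0} with mn_{j0} c_j = ∑_i A^{j0}_i D i j for all j (A^{j0}_i = signed expansion: c restricted to the columns ≠ j0
times the adjugate of the 3 x 3 block; uses ∑ c_j mn_j = 0 for the column j0). So b c_j = ∑_i A'_i D i j with b = ∑ e_j mn_j and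
mn_3 c_j = ∑ A_i D i j. Then ∑_i (b A_i - mn_3 A'_i) D i j = 0 for all j, and since the 3 x 3 block (columns 0, 1, 2) has determinant ± mn_3 ≠ 0,
b A_i = mn_3 A'_i; RegPair gives A_i = mn_3 a_i; cancel mn_3. -/

namespace Pool.Agent.LibMX34

private theorem I2_mn0 {B : Type} [CommRing B] (D : Fin 3 → Fin 4 → B) :
    mn D 0 = D 0 1 * D 1 2 * D 2 3 - D 0 1 * D 1 3 * D 2 2 - D 0 2 * D 1 1 * D 2 3 + D 0 2 * D 1 3 * D 2 1 +
      D 0 3 * D 1 1 * D 2 2 - D 0 3 * D 1 2 * D 2 1 := by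
  have e0 : (0 : Fin 4).succAbove 0 = 1 := rfl
  have e1 : (0 : Fin 4).succAbove 1 = 2 := rfl
  have e2 : (0 : Fin 4).succAbove 2 = 3 := rfl
  simp only [mn, Matrix.det_fin_three, Matrix.of_apply, e0, e1, e2, Fin.val_zero, pow_zero, one_mul]

private theorem I2_mn1 {B : Type} [CommRing B] (D : Fin 3 → Fin 4 → B) :
    mn D 1 = -(D 0 0 * D 1 2 * D 2 3 - D 0 0 * D 1 3 * D 2 2 - D 0 2 * D 1 0 * D 2 3 + D 0 2 * D 1 3 * D 2 0 +
      D 0 3 * D 1 0 * D 2 2 - D 0 3 * D 1 2 * D 2 0) := by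
  have e0 : (1 : Fin 4).succAbove 0 = 0 := rfl
  have e1 : (1 : Fin 4).succAbove 1 = 2 := rfl
  have e2 : (1 : Fin 4).succAbove 2 = 3 := rfl
  have e3 : ((1 : Fin 4) : ℕ) = 1 := rfl
  simp only [mn, Matrix.det_fin_three, Matrix.of_apply, e0, e1, e2, e3]
  ring

private theorem I2_mn2 {B : Type} [CommRing B] (D : Fin 3 → Fin 4 → B) :
    mn D 2 = D 0 0 * D 1 1 * D 2 3 - D 0 0 * D 1 3 * D 2 1 - D 0 1 * D 1 0 * D 2 3 + D 0 1 * D 1 3 * D 2 0 +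
      D 0 3 * D 1 0 * D 2 1 - D 0 3 * D 1 1 * D 2 0 := by
  have e0 : (2 : Fin 4).succAbove 0 = 0 := rfl
  have e1 : (2 : Fin 4).succAbove 1 = 1 := rfl
  have e2 : (2 : Fin 4).succAbove 2 = 3 := rfl
  have e3 : ((2 : Fin 4) : ℕ) = 2 := rfl
  simp only [mn, Matrix.det_fin_three, Matrix.of_apply, e0, e1, e2, e3]
  ring

private theorem I2_mn3 {B : Type} [CommRing B] (D : Fin 3 → Fin 4 → B) :
    mn D 3 = -(D 0 0 * D 1 1 * D 2 2 - D 0 0 * D 1 2 * D 2 1 - D 0 1 * D 1 0 * D 2 2 + D 0 1 * D 1 2 * D 2 0 +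
      D 0 2 * D 1 0 * D 2 1 - D 0 2 * D 1 1 * D 2 0) := by
  have e0 : (3 : Fin 4).succAbove 0 = 0 := rfl
  have e1 : (3 : Fin 4).succAbove 1 = 1 := rfl
  have e2 : (3 : Fin 4).succAbove 2 = 2 := rfl
  have e3 : ((3 : Fin 4) : ℕ) = 3 := rfl
  simp only [mn, Matrix.det_fin_three, Matrix.of_apply, e0, e1, e2, e3]
  ring

private theorem I2_s4 {B : Type} [CommRing B] (F : Fin 4 → B) : ∑ j, F j = F 0 + F 1 + F 2 + F 3 := by
  rw [Fin.sum_univ_four]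

private theorem I2_s3 {B : Type} [CommRing B] (F : Fin 3 → B) : ∑ j, F j = F 0 + F 1 + F 2 := by
  rw [Fin.sum_univ_three]

theorem mn_rel {B : Type} [CommRing B] (D : Fin 3 → Fin 4 → B) (i : Fin 3) : ∑ j, D i j * mn D j = 0 := by
  rw [I2_s4, I2_mn0, I2_mn1, I2_mn2, I2_mn3]
  fin_cases i
  · show D 0 0 * _ + D 0 1 * _ + D 0 2 * _ + D 0 3 * _ = 0
    ring
  · show D 1 0 * _ + D 1 1 * _ + D 1 2 * _ + D 1 3 * _ = 0
    ring
  · show D 2 0 * _ + D 2 1 * _ + D 2 2 * _ + D 2 3 * _ = 0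
    ring

private theorem I2_cramer {B : Type} [CommRing B] (D : Fin 3 → Fin 4 → B) (w : Fin 4 → B)
    (hw : ∀ i, ∑ j, D i j * w j = 0) (j : Fin 4) : mn D 3 * w j = mn D j * w 3 := by
  have h0 := hw 0
  have h1 := hw 1
  have h2 := hw 2
  rw [I2_s4] at h0 h1 h2
  fin_cases j
  · show mn D 3 * w 0 = mn D 0 * w 3
    rw [I2_mn0, I2_mn3]
    linear_combination -(D 1 1 * D 2 2 - D 1 2 * D 2 1) * h0 + (D 0 1 * D 2 2 - D 0 2 * D 2 1) * h1 -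
      (D 0 1 * D 1 2 - D 0 2 * D 1 1) * h2
  · show mn D 3 * w 1 = mn D 1 * w 3
    rw [I2_mn1, I2_mn3]
    linear_combination (D 1 0 * D 2 2 - D 1 2 * D 2 0) * h0 - (D 0 0 * D 2 2 - D 0 2 * D 2 0) * h1 +
      (D 0 0 * D 1 2 - D 0 2 * D 1 0) * h2
  · show mn D 3 * w 2 = mn D 2 * w 3
    rw [I2_mn2, I2_mn3]
    linear_combination -(D 1 0 * D 2 1 - D 1 1 * D 2 0) * h0 + (D 0 0 * D 2 1 - D 0 1 * D 2 0) * h1 -
      (D 0 0 * D 1 1 - D 0 1 * D 1 0) * h2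
  · rfl

theorem lam_exists {B : Type} [CommRing B] [IsDomain B] (D : Fin 3 → Fin 4 → B) (e : Fin 4 → B)
    (hreg : RegPair (mn D 3) (∑ j, e j * mn D j)) (w : Fin 4 → B) (hw : ∀ i, ∑ j, D i j * w j = 0) :
    ∃ lam, ∀ j, w j = lam * mn D j := by
  have hc := I2_cramer D w hw
  have h1 : mn D 3 ∣ (∑ j, e j * mn D j) * w 3 := by
    refine ⟨∑ j, e j * w j, ?_⟩
    rw [Finset.sum_mul, Finset.mul_sum]
    refine Finset.sum_congr rfl fun j _ => ?_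
    rw [mul_assoc, ← hc j]
    ring
  obtain ⟨lam, hlam⟩ := hreg.2 _ h1
  refine ⟨lam, fun j => ?_⟩
  apply mul_left_cancel₀ hreg.1
  rw [hc j, hlam]
  ring

private theorem I2_A {B : Type} [CommRing B] (D : Fin 3 → Fin 4 → B) (c : Fin 4 → B) (hc : ∑ j, c j * mn D j = 0)
    (j0 : Fin 4) : ∃ A : Fin 3 → B, ∀ j, mn D j0 * c j = ∑ i, A i * D i j := by
  rw [I2_s4, I2_mn0, I2_mn1, I2_mn2, I2_mn3] at hc
  fin_cases j0
  · refine ⟨![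
      c 1 * (D 1 2 * D 2 3 - D 1 3 * D 2 2) - c 2 * (D 1 1 * D 2 3 - D 1 3 * D 2 1) + c 3 * (D 1 1 * D 2 2 - D 1 2 * D 2 1),
      -c 1 * (D 0 2 * D 2 3 - D 0 3 * D 2 2) + c 2 * (D 0 1 * D 2 3 - D 0 3 * D 2 1) - c 3 * (D 0 1 * D 2 2 - D 0 2 * D 2 1),
      c 1 * (D 0 2 * D 1 3 - D 0 3 * D 1 2) - c 2 * (D 0 1 * D 1 3 - D 0 3 * D 1 1) + c 3 * (D 0 1 * D 1 2 - D 0 2 * D 1 1)], fun j => ?_⟩
    rw [I2_s3]
    show mn D 0 * c j = (c 1 * (D 1 2 * D 2 3 - D 1 3 * D 2 2) - c 2 * (D 1 1 * D 2 3 - D 1 3 * D 2 1) + c 3 * (D 1 1 * D 2 2 - D 1 2 * D 2 1)) * D 0 j + (-c 1 * (D 0 2 * D 2 3 - D 0 3 * D 2 2) + c 2 * (D 0 1 * D 2 3 - D 0 3 * D 2 1) - c 3 * (D 0 1 * D 2 2 - D 0 2 * D 2 1)) * D 1 j + (c 1 * (D 0 2 * D 1 3 - D 0 3 * D 1 2) - c 2 * (D 0 1 * D 1 3 - D 0 3 * D 1 1) + c 3 * (D 0 1 * D 1 2 - D 0 2 * D 1 1)) * D 2 j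
    rw [I2_mn0]
    fin_cases j
    · simp only [Fin.isValue, Fin.zero_eta, Fin.mk_one, Fin.reduceFinMk]
      linear_combination hc
    · simp only [Fin.isValue, Fin.zero_eta, Fin.mk_one, Fin.reduceFinMk]
      ring
    · simp only [Fin.isValue, Fin.zero_eta, Fin.mk_one, Fin.reduceFinMk]
      ring
    · simp only [Fin.isValue, Fin.zero_eta, Fin.mk_one, Fin.reduceFinMk]
      ring
  · refine ⟨![
      -c 0 * (D 1 2 * D 2 3 - D 1 3 * D 2 2) + c 2 * (D 1 0 * D 2 3 - D 1 3 * D 2 0) - c 3 * (D 1 0 * D 2 2 - D 1 2 * D 2 0),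
      c 0 * (D 0 2 * D 2 3 - D 0 3 * D 2 2) - c 2 * (D 0 0 * D 2 3 - D 0 3 * D 2 0) + c 3 * (D 0 0 * D 2 2 - D 0 2 * D 2 0),
      -c 0 * (D 0 2 * D 1 3 - D 0 3 * D 1 2) + c 2 * (D 0 0 * D 1 3 - D 0 3 * D 1 0) - c 3 * (D 0 0 * D 1 2 - D 0 2 * D 1 0)], fun j => ?_⟩
    rw [I2_s3]
    show mn D 1 * c j = (-c 0 * (D 1 2 * D 2 3 - D 1 3 * D 2 2) + c 2 * (D 1 0 * D 2 3 - D 1 3 * D 2 0) - c 3 * (D 1 0 * D 2 2 - D 1 2 * D 2 0)) * D 0 j + (c 0 * (D 0 2 * D 2 3 - D 0 3 * D 2 2) - c 2 * (D 0 0 * D 2 3 - D 0 3 * D 2 0) + c 3 * (D 0 0 * D 2 2 - D 0 2 * D 2 0)) * D 1 j + (-c 0 * (D 0 2 * D 1 3 - D 0 3 * D 1 2) + c 2 * (D 0 0 * D 1 3 - D 0 3 * D 1 0) - c 3 * (D 0 0 * D 1 2 - D 0 2 * D 1 0)) * D 2 j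
    rw [I2_mn1]
    fin_cases j
    · simp only [Fin.isValue, Fin.zero_eta, Fin.mk_one, Fin.reduceFinMk]
      ring
    · simp only [Fin.isValue, Fin.zero_eta, Fin.mk_one, Fin.reduceFinMk]
      linear_combination hc
    · simp only [Fin.isValue, Fin.zero_eta, Fin.mk_one, Fin.reduceFinMk]
      ring
    · simp only [Fin.isValue, Fin.zero_eta, Fin.mk_one, Fin.reduceFinMk]
      ring
  · refine ⟨![
      c 0 * (D 1 1 * D 2 3 - D 1 3 * D 2 1) - c 1 * (D 1 0 * D 2 3 - D 1 3 * D 2 0) + c 3 * (D 1 0 * D 2 1 - D 1 1 * D 2 0),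
      -c 0 * (D 0 1 * D 2 3 - D 0 3 * D 2 1) + c 1 * (D 0 0 * D 2 3 - D 0 3 * D 2 0) - c 3 * (D 0 0 * D 2 1 - D 0 1 * D 2 0),
      c 0 * (D 0 1 * D 1 3 - D 0 3 * D 1 1) - c 1 * (D 0 0 * D 1 3 - D 0 3 * D 1 0) + c 3 * (D 0 0 * D 1 1 - D 0 1 * D 1 0)], fun j => ?_⟩
    rw [I2_s3]
    show mn D 2 * c j = (c 0 * (D 1 1 * D 2 3 - D 1 3 * D 2 1) - c 1 * (D 1 0 * D 2 3 - D 1 3 * D 2 0) + c 3 * (D 1 0 * D 2 1 - D 1 1 * D 2 0)) * D 0 j + (-c 0 * (D 0 1 * D 2 3 - D 0 3 * D 2 1) + c 1 * (D 0 0 * D 2 3 - D 0 3 * D 2 0) - c 3 * (D 0 0 * D 2 1 - D 0 1 * D 2 0)) * D 1 j + (c 0 * (D 0 1 * D 1 3 - D 0 3 * D 1 1) - c 1 * (D 0 0 * D 1 3 - D 0 3 * D 1 0) + c 3 * (D 0 0 * D 1 1 - D 0 1 * D 1 0)) * D 2 j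
    rw [I2_mn2]
    fin_cases j
    · simp only [Fin.isValue, Fin.zero_eta, Fin.mk_one, Fin.reduceFinMk]
      ring
    · simp only [Fin.isValue, Fin.zero_eta, Fin.mk_one, Fin.reduceFinMk]
      ring
    · simp only [Fin.isValue, Fin.zero_eta, Fin.mk_one, Fin.reduceFinMk]
      linear_combination hc
    · simp only [Fin.isValue, Fin.zero_eta, Fin.mk_one, Fin.reduceFinMk]
      ring
  · refine ⟨![
      -c 0 * (D 1 1 * D 2 2 - D 1 2 * D 2 1) + c 1 * (D 1 0 * D 2 2 - D 1 2 * D 2 0) - c 2 * (D 1 0 * D 2 1 - D 1 1 * D 2 0),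
      c 0 * (D 0 1 * D 2 2 - D 0 2 * D 2 1) - c 1 * (D 0 0 * D 2 2 - D 0 2 * D 2 0) + c 2 * (D 0 0 * D 2 1 - D 0 1 * D 2 0),
      -c 0 * (D 0 1 * D 1 2 - D 0 2 * D 1 1) + c 1 * (D 0 0 * D 1 2 - D 0 2 * D 1 0) - c 2 * (D 0 0 * D 1 1 - D 0 1 * D 1 0)], fun j => ?_⟩
    rw [I2_s3]
    show mn D 3 * c j = (-c 0 * (D 1 1 * D 2 2 - D 1 2 * D 2 1) + c 1 * (D 1 0 * D 2 2 - D 1 2 * D 2 0) - c 2 * (D 1 0 * D 2 1 - D 1 1 * D 2 0)) * D 0 j + (c 0 * (D 0 1 * D 2 2 - D 0 2 * D 2 1) - c 1 * (D 0 0 * D 2 2 - D 0 2 * D 2 0) + c 2 * (D 0 0 * D 2 1 - D 0 1 * D 2 0)) * D 1 j + (-c 0 * (D 0 1 * D 1 2 - D 0 2 * D 1 1) + c 1 * (D 0 0 * D 1 2 - D 0 2 * D 1 0) - c 2 * (D 0 0 * D 1 1 - D 0 1 * D 1 0)) * D 2 j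
    rw [I2_mn3]
    fin_cases j
    · simp only [Fin.isValue, Fin.zero_eta, Fin.mk_one, Fin.reduceFinMk]
      ring
    · simp only [Fin.isValue, Fin.zero_eta, Fin.mk_one, Fin.reduceFinMk]
      ring
    · simp only [Fin.isValue, Fin.zero_eta, Fin.mk_one, Fin.reduceFinMk]
      ring
    · simp only [Fin.isValue, Fin.zero_eta, Fin.mk_one, Fin.reduceFinMk]
      linear_combination hc

private theorem I2_inj {B : Type} [CommRing B] [IsDomain B] (D : Fin 3 → Fin 4 → B) (h3 : mn D 3 ≠ 0) (x : Fin 3 → B)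
    (hx : ∀ j, ∑ i, x i * D i j = 0) (i : Fin 3) : x i = 0 := by
  have g0 := hx 0
  have g1 := hx 1
  have g2 := hx 2
  rw [I2_s3] at g0 g1 g2
  apply (mul_eq_zero.1 (?_ : mn D 3 * x i = 0)).resolve_left h3
  rw [I2_mn3]
  fin_cases i
  · show _ * x 0 = 0
    linear_combination -(D 1 1 * D 2 2 - D 1 2 * D 2 1) * g0 + (D 1 0 * D 2 2 - D 1 2 * D 2 0) * g1 -
      (D 1 0 * D 2 1 - D 1 1 * D 2 0) * g2
  · show _ * x 1 = 0
    linear_combination (D 0 1 * D 2 2 - D 0 2 * D 2 1) * g0 - (D 0 0 * D 2 2 - D 0 2 * D 2 0) * g1 +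
      (D 0 0 * D 2 1 - D 0 1 * D 2 0) * g2
  · show _ * x 2 = 0
    linear_combination -(D 0 1 * D 1 2 - D 0 2 * D 1 1) * g0 + (D 0 0 * D 1 2 - D 0 2 * D 1 0) * g1 -
      (D 0 0 * D 1 1 - D 0 1 * D 1 0) * g2

theorem hb_three {B : Type} [CommRing B] [IsDomain B] (D : Fin 3 → Fin 4 → B) (e : Fin 4 → B)
    (hreg : RegPair (mn D 3) (∑ j, e j * mn D j)) (c : Fin 4 → B) (hc : ∑ j, c j * mn D j = 0) :
    ∃ a : Fin 3 → B, ∀ j, c j = ∑ i, a i * D i j := by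
  have hA := I2_A D c hc
  choose A hA using hA
  have hb : ∀ j, (∑ l, e l * mn D l) * c j = ∑ i, (∑ l, e l * A l i) * D i j := by
    intro j
    rw [Finset.sum_mul]
    have h1 : ∀ l, e l * mn D l * c j = ∑ i, e l * A l i * D i j := fun l => by
      rw [mul_assoc, hA l j, Finset.mul_sum]
      exact Finset.sum_congr rfl fun i _ => by ring
    simp only [h1]
    rw [Finset.sum_comm]
    exact Finset.sum_congr rfl fun i _ => by rw [Finset.sum_mul]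
  have hz : ∀ i, (∑ l, e l * mn D l) * A 3 i - mn D 3 * (∑ l, e l * A l i) = 0 := by
    refine I2_inj D hreg.1 (fun i => (∑ l, e l * mn D l) * A 3 i - mn D 3 * (∑ l, e l * A l i)) fun j => ?_
    have h2 : ∀ i, ((∑ l, e l * mn D l) * A 3 i - mn D 3 * (∑ l, e l * A l i)) * D i j =
        (∑ l, e l * mn D l) * (A 3 i * D i j) - mn D 3 * ((∑ l, e l * A l i) * D i j) := fun i => by ring
    simp only [h2]
    rw [Finset.sum_sub_distrib, ← Finset.mul_sum, ← Finset.mul_sum, ← hA 3 j, ← hb j]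
    ring
  have hd : ∀ i, ∃ a, A 3 i = mn D 3 * a := fun i => by
    refine hreg.2 _ ⟨∑ l, e l * A l i, ?_⟩
    exact sub_eq_zero.1 (hz i)
  choose a ha using hd
  refine ⟨a, fun j => ?_⟩
  apply mul_left_cancel₀ hreg.1
  rw [hA 3 j, Finset.mul_sum]
  exact Finset.sum_congr rfl fun i _ => by rw [ha i]; ring

end Pool.Agent.LibMX34
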