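import Pool.Agent.LibMX34.Defs
import Pool.Agent.LibMC10.L1

set_option autoImplicit false

/-! ROW MX34 K1 (MEDIUM, Mathlib + LibMC10.L1). Complete Nakayama with a torsion element.
PLAN. Let V' = range of π (a k-subspace by hC). It is finite dimensional; choose a basis of V' of the form π(v_0), .., π(v_{d-1})
with v_0 = t (a nonzero vector can be completed to a basis: e.g. `Basis.extend` / `exists_linearIndependent_extension`,
or take a basis of V'/k·π(t) and lift it: d - 1 = finrank V' - 1 vectors; this is the easiest).
Every m is ∑ C(c_i) • v_i + X • m' by hker. `Pool.Agent.LibMC10.finite_of_separated` (file LibMC10/L1, signature in its header)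
gives Module.Finite. Nakayama (`Submodule.le_of_le_smul_of_le_jacobson_bot` for the local ring k[[X]], or iterate) gives
span (v_i) = ⊤. Let N = span {t} ≤ torsion (X • t = 0); `rank_quotient_eq_of_le_torsion` : rank (M ⧸ N) = rank M; M ⧸ N is generated by the
d - 1 classes of v_1, .., v_{d-1} (linear map (Fin (d-1) → k[[X]]) → M ⧸ N onto, `rank_le_of_surjective...` / `LinearMap.rank_le_of_surjective`),
so finrank M ≤ d - 1 < finrank V. -/

namespace Pool.Agent.LibMX34

/-- the range of `x ↦ π x` modulo `U`, as a subspace -/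
private def K1_W {k : Type} [Field k] {M : Type} [AddCommGroup M] [Module (PowerSeries k) M]
    {V : Type} [AddCommGroup V] [Module k V] (π : M →+ V)
    (hC : ∀ (a : k) (x : M), π ((PowerSeries.C a : PowerSeries k) • x) = a • π x) (U : Submodule k V) :
    Submodule k (V ⧸ U) where
  carrier := Set.range fun x : M => U.mkQ (π x)
  add_mem' := by
    rintro _ _ ⟨x, rfl⟩ ⟨y, rfl⟩
    exact ⟨x + y, by simp only [map_add]⟩
  zero_mem' := ⟨0, by simp only [map_zero]⟩
  smul_mem' := by
    rintro a _ ⟨x, rfl⟩
    exact ⟨(PowerSeries.C a : PowerSeries k) • x, by simp only [hC, map_smul]⟩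

theorem finite_rank_lt {k : Type} [Field k] {M : Type} [AddCommGroup M] [Module (PowerSeries k) M]
    {V : Type} [AddCommGroup V] [Module k V] [Module.Finite k V]
    (hsep : ∀ m : M, (∀ K : ℕ, ∃ m' : M, m = (PowerSeries.X ^ K : PowerSeries k) • m') → m = 0)
    (π : M →+ V) (hC : ∀ (a : k) (x : M), π ((PowerSeries.C a : PowerSeries k) • x) = a • π x)
    (hX : ∀ x : M, π ((PowerSeries.X : PowerSeries k) • x) = 0)
    (hker : ∀ x : M, π x = 0 → ∃ y : M, x = (PowerSeries.X : PowerSeries k) • y)
    (t : M) (ht : (PowerSeries.X : PowerSeries k) • t = 0) (ht' : π t ≠ 0) :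
    Module.Finite (PowerSeries k) M ∧ Module.finrank (PowerSeries k) M < Module.finrank k V := by
  classical
  set U : Submodule k V := Submodule.span k {π t} with hU
  set W := K1_W π hC U with hW
  -- dimension of the quotient
  have hUpos : Module.finrank k U = 1 := finrank_span_singleton ht'
  have hdim : Module.finrank k (V ⧸ U) + Module.finrank k U = Module.finrank k V :=
    Submodule.finrank_quotient_add_finrank U
  have hWle : Module.finrank k W ≤ Module.finrank k (V ⧸ U) := Submodule.finrank_le W
  set r := Module.finrank k W with hr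
  have hrlt : r < Module.finrank k V := by omega
  let b : Module.Basis (Fin r) k W := Module.finBasis k W
  have hlift : ∀ i, ∃ x : M, U.mkQ (π x) = (b i : V ⧸ U) := fun i => (b i).2
  choose v hv using hlift
  have key : ∀ m : M, ∃ (a : k) (c : Fin r → k) (m' : M),
      m = (PowerSeries.C a : PowerSeries k) • t + ∑ i, (PowerSeries.C (c i) : PowerSeries k) • v i +
        (PowerSeries.X : PowerSeries k) • m' := by
    intro m
    let w : W := ⟨U.mkQ (π m), ⟨m, rfl⟩⟩
    have hw : (w : V ⧸ U) = ∑ i, b.repr w i • (b i : V ⧸ U) := by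
      have h0 := congrArg (fun z : W => (z : V ⧸ U)) (b.sum_repr w)
      simp only [Submodule.coe_sum, Submodule.coe_smul] at h0
      exact h0.symm
    have h1 : π m - ∑ i, b.repr w i • π (v i) ∈ U := by
      rw [← Submodule.Quotient.mk_eq_zero, ← Submodule.mkQ_apply, map_sub, map_sum]
      have h2 : ∀ i, U.mkQ (b.repr w i • π (v i)) = b.repr w i • (b i : V ⧸ U) := fun i => by
        rw [map_smul, hv i]
      simp only [h2]
      rw [← hw]
      exact sub_self _
    obtain ⟨a, ha⟩ := Submodule.mem_span_singleton.1 h1
    have h3 : π (m - ((PowerSeries.C a : PowerSeries k) • t +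
        ∑ i, (PowerSeries.C (b.repr w i) : PowerSeries k) • v i)) = 0 := by
      rw [map_sub, map_add, map_sum, hC]
      simp only [hC]
      rw [ha]
      abel
    obtain ⟨y, hy⟩ := hker _ h3
    exact ⟨a, fun i => b.repr w i, y, by rw [← hy]; abel⟩
  have hfin : Module.Finite (PowerSeries k) M := by
    refine Pool.Agent.LibMC10.finite_of_separated hsep (n := r + 1) (Fin.cons t v) fun m => ?_
    obtain ⟨a, c, m', h⟩ := key m
    refine ⟨Fin.cons a c, m', ?_⟩
    rw [Fin.sum_univ_succ]
    simp only [Fin.cons_zero, Fin.cons_succ]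
    exact h
  refine ⟨hfin, ?_⟩
  -- the torsion submodule generated by `t`
  set N : Submodule (PowerSeries k) M := Submodule.span (PowerSeries k) {t} with hN
  have hNt : N ≤ Submodule.torsion (PowerSeries k) M := by
    rw [hN, Submodule.span_singleton_le_iff_mem, Submodule.mem_torsion_iff]
    exact ⟨⟨PowerSeries.X, mem_nonZeroDivisors_of_ne_zero PowerSeries.X_ne_zero⟩, ht⟩
  rw [← finrank_quotient_eq_of_le_torsion hNt]
  -- the quotient is generated by `r` elements
  have hgen : (⊤ : Submodule (PowerSeries k) (M ⧸ N)) ≤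
      Submodule.span (PowerSeries k) (Set.range fun i => N.mkQ (v i)) := by
    refine Submodule.le_of_le_smul_of_le_jacobson_bot (I := Ideal.span {(PowerSeries.X : PowerSeries k)})
      Module.Finite.fg_top ?_ ?_
    · rw [IsLocalRing.jacobson_eq_maximalIdeal ⊥ bot_ne_top, Ideal.span_singleton_le_iff_mem,
        IsLocalRing.mem_maximalIdeal, mem_nonunits_iff]
      exact PowerSeries.X_prime.not_isUnit
    · intro q _
      obtain ⟨m, rfl⟩ := N.mkQ_surjective q
      obtain ⟨a, c, m', h⟩ := key m
      rw [h, map_add, map_add]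
      have h4 : N.mkQ ((PowerSeries.C a : PowerSeries k) • t) = 0 := by
        rw [Submodule.mkQ_apply, Submodule.Quotient.mk_eq_zero]
        exact N.smul_mem _ (Submodule.mem_span_singleton_self t)
      rw [h4, zero_add]
      refine Submodule.add_mem_sup ?_ ?_
      · rw [map_sum]
        refine Submodule.sum_mem _ fun i _ => ?_
        rw [map_smul]
        exact Submodule.smul_mem _ _ (Submodule.subset_span ⟨i, rfl⟩)
      · rw [map_smul]
        exact Submodule.smul_mem_smul (Ideal.mem_span_singleton_self _) Submodule.mem_top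
  have htop : Submodule.span (PowerSeries k) (Set.range fun i => N.mkQ (v i)) = ⊤ := top_le_iff.1 hgen
  have h5 : Module.finrank (PowerSeries k) (M ⧸ N) ≤ r := by
    rw [← finrank_top, ← htop]
    refine le_trans (finrank_range_le_card (R := PowerSeries k) fun i => N.mkQ (v i)) ?_
    simp
  exact lt_of_le_of_lt h5 hrlt

end Pool.Agent.LibMX34
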