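import Pool.Agent.LibMX34.Defs

set_option autoImplicit false

/-! ROW MX34 K2 (MEDIUM, Mathlib only). Localization at an element `g` lying in an ideal `M` which is a finite module over a domain `A`.
PLAN. Put r = finrank A M (M finite over A, so Module.rank A M = r < ℵ₀). Use `rank_le` (n := r): let s be a finite linearly
independent set in L = Localization.Away g. Every element of L is mk a / g^N (`IsLocalization.mk'_surjective`, submonoid powers g), a common N
works for all elements of s (multiply numerator by powers of g), and after one more factor g the numerators a·g lie in M.
So there are N and, for x ∈ s, elements y_x ∈ M with algebraMap C L y_x = x * (algebraMap C L g)^N. Since g is a unit in L, multiplication by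
g^N is injective and A-linear, so (x * g^N)_x is linearly independent over A; the A-linear map M → L (subtype then algebraMap) sends y_x to
x * g^N, so (y_x) is linearly independent in M (`LinearIndependent.of_comp`) and s.card ≤ rank M (`LinearIndependent.cardinal_le_rank` or
`LinearIndependent.fintype_card_le_finrank`). Finally Module.rank ≤ r < ℵ₀ and finrank ≤ r (`Module.finrank_le_of_rank_le`). -/

namespace Pool.Agent.LibMX34

theorem finrank_away_le {A C : Type} [CommRing A] [IsDomain A] [CommRing C] [Algebra A C] (M : Ideal C) (g : C) (hg : g ∈ M)
    [Module.Finite A M] :
    Module.rank A (Localization.Away g) < Cardinal.aleph0 ∧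
      Module.finrank A (Localization.Away g) ≤ Module.finrank A M := by
  classical
  have hu : IsUnit (algebraMap C (Localization.Away g) g) := IsLocalization.Away.algebraMap_isUnit g
  have key : Module.rank A (Localization.Away g) ≤ (Module.finrank A M : Cardinal) := by
    apply rank_le
    intro s hs
    have hx : ∀ x : Localization.Away g, ∃ N : ℕ, ∃ c : C,
        x * (algebraMap C (Localization.Away g) g) ^ N = algebraMap C (Localization.Away g) c := by
      intro x
      obtain ⟨n, a, h⟩ := IsLocalization.Away.surj g x
      exact ⟨n, a, h⟩
    choose N c hc using hx
    have h1 : ∀ x : s, ∃ y : M, algebraMap C (Localization.Away g) (y : C) =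
        (x : Localization.Away g) * (algebraMap C (Localization.Away g) g) ^ (s.sup N + 1) := by
      intro x
      have hle : N x ≤ s.sup N := Finset.le_sup x.2
      refine ⟨⟨c x * g ^ (s.sup N - N x) * g, M.mul_mem_left _ hg⟩, ?_⟩
      have e : s.sup N + 1 = N x + (s.sup N - N x) + 1 := by omega
      rw [e, pow_succ, pow_add, ← mul_assoc, ← mul_assoc, hc]
      simp only [map_mul, map_pow]
    choose y hy using h1
    have hinj : Function.Injective (LinearMap.mulRight A
        ((algebraMap C (Localization.Away g) g) ^ (s.sup N + 1))) := by
      intro a b hab
      simp only [LinearMap.mulRight_apply] at hab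
      exact (hu.pow (s.sup N + 1)).mul_right_cancel hab
    have hli := hs.map' _ (LinearMap.ker_eq_bot.2 hinj)
    let φ : M →ₗ[A] Localization.Away g :=
      ((Algebra.linearMap C (Localization.Away g)).restrictScalars A) ∘ₗ (M.subtype.restrictScalars A)
    have hφ : (fun x : s => φ (y x)) =
        (LinearMap.mulRight A ((algebraMap C (Localization.Away g) g) ^ (s.sup N + 1))) ∘
          (fun x : s => (x : Localization.Away g)) := by
      funext x
      simp only [Function.comp, LinearMap.mulRight_apply]
      exact hy x
    have hli2 : LinearIndependent A y := by
      apply LinearIndependent.of_comp φ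
      have : (⇑φ ∘ y) = (fun x : s => φ (y x)) := rfl
      rw [this, hφ]
      exact hli
    have := hli2.fintype_card_le_finrank
    simpa using this
  refine ⟨key.trans_lt Cardinal.natCast_lt_aleph0, Module.finrank_le_of_rank_le key⟩

end Pool.Agent.LibMX34
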