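import Pool.Agent.LibMX34.Defs

set_option autoImplicit false

/-! ROW MX34 K3 (SHORT, pure algebra). `s b ∈ lam (m_1, .., m_p)` implies `b ∈ lam (m_1, .., m_p)`.
PLAN. s b = lam ∑ c_j m_j. Apply spB: spB s = 0 (spB_C with c = X), so spB lam * ∑ spB c_j * spB m_j = 0, B₀ domain, lam_ne:
∑ spB c_j * spB m_j = 0. `hb` gives a_i ∈ B₀ with spB c_j = ∑ a_i spB (D i j). Lift a_i to a'_i ∈ B (spB_surj). Then
spB (c_j - ∑ a'_i D i j) = 0, so c_j = ∑ a'_i D i j + s c'_j (spB_ker, choose). By `minors`, ∑_j (∑_i a'_i D i j) m_j = 0, so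
∑ c_j m_j = s ∑ c'_j m_j and s (b - lam ∑ c'_j m_j) = 0, s_reg. -/

namespace Pool.Agent.LibMX34

variable {k : Type} [Field k] {n p : ℕ} {O B O₀ B₀ : Type} [CommRing O] [CommRing B] [CommRing O₀] [CommRing B₀]
  [Algebra (PowerSeries k) O] [Algebra (PowerSeries k) B] [Algebra k O₀] [Algebra k B₀]

theorem s_saturated {F : O →ₐ[PowerSeries k] B} {f : O₀ →ₐ[k] B₀} {spO : O →+* O₀} {spB : B →+* B₀}
    {D : Fin n → Fin p → B} {F' m : Fin p → B} {lam : B} {G dGs κ : O} {dG κ' : Fin p → O}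
    (h : Core F f spO spB D F' m lam G dGs κ dG κ') (b : B) (c : Fin p → B)
    (hb : sE k B * b = lam * ∑ j, c j * m j) : ∃ c' : Fin p → B, b = lam * ∑ j, c' j * m j := by
  have hdom : IsDomain B₀ := h.dom
  have hs0 : spB (sE k B) = 0 := by
    unfold sE
    rw [h.spB_C, PowerSeries.constantCoeff_X, map_zero]
  have hsum : ∑ j, spB (c j) * spB (m j) = 0 := by
    have h1 : spB (sE k B * b) = spB (lam * ∑ j, c j * m j) := by rw [hb]
    rw [map_mul, hs0, zero_mul, map_mul, map_sum] at h1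
    have h2 := (mul_eq_zero.1 h1.symm).resolve_left h.lam_ne
    simpa only [map_mul] using h2
  obtain ⟨a, ha⟩ := h.hb (fun j => spB (c j)) hsum
  choose a' ha' using fun i => h.spB_surj (a i)
  have hker : ∀ j, ∃ c', c j - ∑ i, a' i * D i j = sE k B * c' := by
    intro j
    apply h.spB_ker
    have h3 := ha j
    rw [map_sub, map_sum, h3]
    simp only [map_mul, ha', sub_self]
  choose c' hc' using hker
  refine ⟨c', ?_⟩
  have hD : ∑ j, (∑ i, a' i * D i j) * m j = 0 := by
    calc ∑ j, (∑ i, a' i * D i j) * m j = ∑ j, ∑ i, a' i * (D i j * m j) := by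
          refine Finset.sum_congr rfl fun j _ => ?_
          rw [Finset.sum_mul]
          exact Finset.sum_congr rfl fun i _ => mul_assoc _ _ _
      _ = ∑ i, ∑ j, a' i * (D i j * m j) := Finset.sum_comm
      _ = ∑ i, a' i * ∑ j, D i j * m j := Finset.sum_congr rfl fun i _ => (Finset.mul_sum _ _ _).symm
      _ = 0 := Finset.sum_eq_zero fun i _ => by rw [h.minors i, mul_zero]
  have hc : ∑ j, c j * m j = sE k B * ∑ j, c' j * m j := by
    calc ∑ j, c j * m j = ∑ j, (sE k B * (c' j * m j) + (∑ i, a' i * D i j) * m j) := by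
          refine Finset.sum_congr rfl fun j _ => ?_
          have h4 : c j = sE k B * c' j + ∑ i, a' i * D i j := by rw [← hc' j]; ring
          rw [h4]
          ring
      _ = sE k B * ∑ j, c' j * m j := by rw [Finset.sum_add_distrib, hD, add_zero, Finset.mul_sum]
  have h5 : sE k B * (b - lam * ∑ j, c' j * m j) = 0 := by
    rw [mul_sub, hb, hc]
    ring
  exact sub_eq_zero.1 (h.s_reg _ h5)

end Pool.Agent.LibMX34
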