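import Pool.Agent.LibMX34.K3

set_option autoImplicit false

/-! ROW MX34 K4 (SHORT, pure algebra). Well-definedness of the class in T1(f).
PLAN. a, a' ∈ O with a - a' ∈ J, F a = lam ∑ c_j m_j, F a' = lam ∑ c'_j m_j. Write a - a' = ∑ η_j dG_j (Ideal.mem_span_range_iff_exists_fun or
similar). By F_dG: lam ∑ (c_j - c'_j - F η_j) m_j = 0. Apply spB, cancel spB lam (B₀ domain, lam_ne), use hb:
spB (c_j - c'_j) - f (spO η_j) = ∑ a_i spB (D i j). So the difference is in W. -/

namespace Pool.Agent.LibMX34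

variable {k : Type} [Field k] {n p : ℕ} {O B O₀ B₀ : Type} [CommRing O] [CommRing B] [CommRing O₀] [CommRing B₀]
  [Algebra (PowerSeries k) O] [Algebra (PowerSeries k) B] [Algebra k O₀] [Algebra k B₀]

theorem class_wd {F : O →ₐ[PowerSeries k] B} {f : O₀ →ₐ[k] B₀} {spO : O →+* O₀} {spB : B →+* B₀}
    {D : Fin n → Fin p → B} {F' m : Fin p → B} {lam : B} {G dGs κ : O} {dG κ' : Fin p → O}
    (h : Core F f spO spB D F' m lam G dGs κ dG κ') (a a' : O) (haa : a - a' ∈ JJ dG) (c c' : Fin p → B)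
    (hc : F a = lam * ∑ j, c j * m j) (hc' : F a' = lam * ∑ j, c' j * m j) :
    (fun j => spB (c j) - spB (c' j)) ∈ W f (fun i j => spB (D i j)) := by
  obtain ⟨η, hη⟩ := Ideal.mem_span_range_iff_exists_fun.1 haa
  have h1 : F (a - a') = lam * ∑ j, F (η j) * m j := by
    rw [← hη, map_sum, Finset.mul_sum]
    refine Finset.sum_congr rfl fun j _ => ?_
    rw [map_mul, h.F_dG]
    ring
  have h2 : lam * ∑ j, (c j - c' j - F (η j)) * m j = 0 := by
    have h3 : lam * ∑ j, (c j - c' j - F (η j)) * m j =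
        lam * ∑ j, c j * m j - lam * ∑ j, c' j * m j - lam * ∑ j, F (η j) * m j := by
      rw [← mul_sub, ← mul_sub, ← Finset.sum_sub_distrib, ← Finset.sum_sub_distrib]
      congr 1
      exact Finset.sum_congr rfl fun j _ => by ring
    rw [h3, ← hc, ← hc', ← h1, map_sub, sub_self]
  have := h.dom
  have h4 : ∑ j, spB (c j - c' j - F (η j)) * spB (m j) = 0 := by
    have h5 := congrArg spB h2
    rw [map_mul, map_sum, map_zero] at h5
    rcases mul_eq_zero.1 h5 with h6 | h6
    · exact absurd h6 h.lam_ne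
    · rw [← h6]
      exact Finset.sum_congr rfl fun j _ => (map_mul spB _ _).symm
  obtain ⟨α, hα⟩ := h.hb _ h4
  refine ⟨α, fun j => spO (η j), fun j => ?_⟩
  show spB (c j) - spB (c' j) = _
  rw [← hα j, ← h.sp_F, map_sub, map_sub]
  ring

end Pool.Agent.LibMX34
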