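import Pool.Agent.LibMX34.K3

set_option autoImplicit false

/-! ROW MX34 K5 (SHORT/MEDIUM, pure algebra). Injectivity of M/sM → T1(f).
PLAN. F a = lam ∑ c_j m_j and spB c_j = ∑ a_i spB (D i j) + f (η_j). Lift η_j = spO η'_j. Then, applying spB to F a and using `minors`
(∑_j spB (D i j) spB (m j) = 0), spB (F a) = spB lam ∑_j f(η_j) spB (m j) = f (∑ η_j spO (dG j)) (F_dG, sp_F).
So f (spO (a - ∑ η'_j dG_j)) = 0; ker₀: spO (a - ∑ η'_j dG_j) = c * spO G; lift c = spO c'; by `euler` and spO s = 0: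
spO G = ∑ spO κ'_j spO dG_j. So spO (a - ∑ (η'_j + c' κ'_j) dG_j) = 0 and a = ∑ η''_j dG_j + s b (spO_ker).
F (s b) = F a - ∑ F(η''_j) lam m_j = lam ∑ (c_j - F η''_j) m_j, so F b ∈ lam (m) by K3 (`s_saturated`; F (sE k O) = sE k B since F is an
algebra map), i.e. b ∈ II, and a - s b ∈ J. -/

namespace Pool.Agent.LibMX34

variable {k : Type} [Field k] {n p : ℕ} {O B O₀ B₀ : Type} [CommRing O] [CommRing B] [CommRing O₀] [CommRing B₀]
  [Algebra (PowerSeries k) O] [Algebra (PowerSeries k) B] [Algebra k O₀] [Algebra k B₀]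

theorem class_inj {F : O →ₐ[PowerSeries k] B} {f : O₀ →ₐ[k] B₀} {spO : O →+* O₀} {spB : B →+* B₀}
    {D : Fin n → Fin p → B} {F' m : Fin p → B} {lam : B} {G dGs κ : O} {dG κ' : Fin p → O}
    (h : Core F f spO spB D F' m lam G dGs κ dG κ') (a : O) (c : Fin p → B)
    (hc : F a = lam * ∑ j, c j * m j) (hW : (fun j => spB (c j)) ∈ W f (fun i j => spB (D i j))) :
    ∃ b ∈ II F m lam, a - sE k O * b ∈ JJ dG := by
  obtain ⟨av, η, hη⟩ := hW
  choose η' hη' using fun j => h.spO_surj (η j)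
  have hs0 : spO (sE k O) = 0 := by
    unfold sE
    rw [h.spO_C, PowerSeries.constantCoeff_X, map_zero]
  have hmin : ∀ i, ∑ j, spB (D i j) * spB (m j) = 0 := by
    intro i
    have h1 := congrArg spB (h.minors i)
    rw [map_sum, map_zero] at h1
    rw [← h1]
    exact Finset.sum_congr rfl fun j _ => (map_mul spB _ _).symm
  have hFdG : ∀ j, spB lam * spB (m j) = f (spO (dG j)) := by
    intro j
    rw [← map_mul, ← h.F_dG, h.sp_F]
  have h2 : f (spO a) = f (∑ j, η j * spO (dG j)) := by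
    rw [← h.sp_F, hc, map_mul, map_sum, map_sum]
    have h3 : ∀ j, spB (c j * m j) = ∑ i, av i * (spB (D i j) * spB (m j)) + f (η j) * spB (m j) := by
      intro j
      have h4 : spB (c j) = ∑ i, av i * spB (D i j) + f (η j) := hη j
      rw [map_mul, h4, add_mul, Finset.sum_mul]
      congr 1
      exact Finset.sum_congr rfl fun i _ => by ring
    rw [Finset.sum_congr rfl fun j _ => h3 j, Finset.sum_add_distrib, Finset.sum_comm]
    have h5 : ∀ i, ∑ j, av i * (spB (D i j) * spB (m j)) = 0 := by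
      intro i
      rw [← Finset.mul_sum, hmin i, mul_zero]
    rw [Finset.sum_eq_zero fun i _ => h5 i, zero_add, Finset.mul_sum]
    refine Finset.sum_congr rfl fun j _ => ?_
    rw [map_mul, ← hFdG j]
    ring
  have h6 : f (spO a - ∑ j, η j * spO (dG j)) = 0 := by
    rw [map_sub, h2, sub_self]
  obtain ⟨c0, hc0⟩ := h.ker₀ _ h6
  obtain ⟨c1, hc1⟩ := h.spO_surj c0
  have hG : spO G = ∑ j, spO (κ' j) * spO (dG j) := by
    conv_lhs => rw [h.euler]
    rw [map_add, map_mul, map_mul, hs0, mul_zero, zero_mul, zero_add, map_sum]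
    exact Finset.sum_congr rfl fun j _ => map_mul spO _ _
  have h7 : spO (a - ∑ j, (η' j + c1 * κ' j) * dG j) = 0 := by
    have h8 : spO (∑ j, (η' j + c1 * κ' j) * dG j) = ∑ j, η j * spO (dG j) + c0 * spO G := by
      rw [map_sum, hG, Finset.mul_sum, ← Finset.sum_add_distrib]
      refine Finset.sum_congr rfl fun j _ => ?_
      rw [map_mul, map_add, map_mul, hη' j, hc1]
      ring
    rw [map_sub, h8, ← hc0]
    ring
  obtain ⟨b, hb⟩ := h.spO_ker _ h7
  have hFs : F (sE k O) = sE k B := by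
    unfold sE
    exact F.commutes _
  have h9 : sE k B * F b = lam * ∑ j, (c j - F (η' j + c1 * κ' j)) * m j := by
    rw [← hFs, ← map_mul, ← hb, map_sub, hc, map_sum]
    have h10 : ∑ j, F ((η' j + c1 * κ' j) * dG j) = lam * ∑ j, F (η' j + c1 * κ' j) * m j := by
      rw [Finset.mul_sum]
      refine Finset.sum_congr rfl fun j _ => ?_
      rw [map_mul, h.F_dG]
      ring
    rw [h10, ← mul_sub, ← Finset.sum_sub_distrib]
    congr 1
    exact Finset.sum_congr rfl fun j _ => by ring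
  obtain ⟨c', hc'⟩ := s_saturated h (F b) _ h9
  refine ⟨b, ⟨c', hc'⟩, ?_⟩
  have h11 : a - sE k O * b = ∑ j, (η' j + c1 * κ' j) * dG j := by
    rw [← hb]; ring
  rw [h11]
  exact Ideal.sum_mem _ fun j _ => Ideal.mul_mem_left _ _ (Ideal.subset_span ⟨j, rfl⟩)

end Pool.Agent.LibMX34
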