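import Pool.Agent.LibMX34.K3

set_option autoImplicit false

/-! ROW MX34 K6 (SHORT/MEDIUM, pure algebra). The torsion element.
PLAN. Apply spB to hχ: f (spO (χ j)) = ∑_i spB (ξ i) spB (D i j). Multiply by spB lam * spB (m j) and sum: with F_dG, sp_F, minors:
f (spO (∑ χ_j dG_j)) = 0. ker₀ + surjectivity: spO (∑ χ_j dG_j) = spO c̃ * spO G, so (spO_ker) ∑ χ_j dG_j - c̃ G = s H.
Put T := H + c̃ κ dGs. By `euler`: s T = ∑ (χ_j - c̃ κ'_j) dG_j ∈ J.  (2)
From F G = 0 and `euler`, F_dG, F_dGs: lam ∑ F(κ'_j) m_j = s F(κ) lam ∑ F'_j m_j.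
F(s T) = ∑ (F χ_j - F c̃ F κ'_j) lam m_j = lam ∑ (∑ ξ_i D i j) m_j + lam s ∑ ρ_j m_j - F(c̃) s F(κ) lam ∑ F'_j m_j
       = s lam ∑ (ρ_j - F(c̃ κ) F'_j) m_j  (minors), and s_reg gives (1) with c' := c̃ κ. -/

namespace Pool.Agent.LibMX34

variable {k : Type} [Field k] {n p : ℕ} {O B O₀ B₀ : Type} [CommRing O] [CommRing B] [CommRing O₀] [CommRing B₀]
  [Algebra (PowerSeries k) O] [Algebra (PowerSeries k) B] [Algebra k O₀] [Algebra k B₀]

theorem torsion {F : O →ₐ[PowerSeries k] B} {f : O₀ →ₐ[k] B₀} {spO : O →+* O₀} {spB : B →+* B₀}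
    {D : Fin n → Fin p → B} {F' m : Fin p → B} {lam : B} {G dGs κ : O} {dG κ' : Fin p → O}
    (h : Core F f spO spB D F' m lam G dGs κ dG κ') (χ : Fin p → O) (ξ : Fin n → B) (ρ : Fin p → B)
    (hχ : ∀ j, F (χ j) = ∑ i, ξ i * D i j + sE k B * ρ j) :
    ∃ (T c' : O), F T = lam * ∑ j, (ρ j - F c' * F' j) * m j ∧ sE k O * T ∈ JJ dG := by
  have hFs : F (sE k O) = sE k B := F.commutes _
  have hsB : spB (sE k B) = 0 := by
    rw [sE, h.spB_C, PowerSeries.constantCoeff_X, map_zero]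
  -- the image of `∑ χ_j dG_j`
  have h1 : F (∑ j, χ j * dG j) = sE k B * (lam * ∑ j, ρ j * m j) := by
    have hmin : ∑ j, (∑ i, ξ i * D i j) * m j = 0 := by
      calc ∑ j, (∑ i, ξ i * D i j) * m j = ∑ j, ∑ i, ξ i * (D i j * m j) := by
            refine Finset.sum_congr rfl fun j _ => ?_
            rw [Finset.sum_mul]
            exact Finset.sum_congr rfl fun i _ => by ring
        _ = ∑ i, ξ i * ∑ j, D i j * m j := by
            rw [Finset.sum_comm]
            exact Finset.sum_congr rfl fun i _ => by rw [Finset.mul_sum]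
        _ = 0 := by
            refine Finset.sum_eq_zero fun i _ => ?_
            rw [h.minors, mul_zero]
    calc F (∑ j, χ j * dG j) = ∑ j, F (χ j) * (lam * m j) := by
          rw [map_sum]
          exact Finset.sum_congr rfl fun j _ => by rw [map_mul, h.F_dG]
      _ = lam * ∑ j, (∑ i, ξ i * D i j) * m j + sE k B * (lam * ∑ j, ρ j * m j) := by
          rw [Finset.mul_sum, Finset.mul_sum, Finset.mul_sum, ← Finset.sum_add_distrib]
          refine Finset.sum_congr rfl fun j _ => ?_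
          rw [hχ j]
          ring
      _ = sE k B * (lam * ∑ j, ρ j * m j) := by rw [hmin, mul_zero, zero_add]
  have h2 : f (spO (∑ j, χ j * dG j)) = 0 := by
    rw [← h.sp_F, h1, map_mul, hsB, zero_mul]
  obtain ⟨c₀, hc₀⟩ := h.ker₀ _ h2
  obtain ⟨ct, hct⟩ := h.spO_surj c₀
  have h3 : spO (∑ j, χ j * dG j - ct * G) = 0 := by
    rw [map_sub, hc₀, map_mul, hct, sub_self]
  obtain ⟨H, hH⟩ := h.spO_ker _ h3
  have hsT : sE k O * (H + ct * κ * dGs) = ∑ j, (χ j - ct * κ' j) * dG j := by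
    have e1 : ∑ j, (χ j - ct * κ' j) * dG j = ∑ j, χ j * dG j - ct * ∑ j, κ' j * dG j := by
      rw [Finset.mul_sum, ← Finset.sum_sub_distrib]
      exact Finset.sum_congr rfl fun j _ => by ring
    have e2 : ∑ j, κ' j * dG j = G - κ * sE k O * dGs := by
      rw [eq_sub_iff_add_eq, add_comm]
      exact h.euler.symm
    have e3 : ∑ j, χ j * dG j = sE k O * H + ct * G := by
      rw [← hH]
      ring
    rw [e1, e2, e3]
    ring
  refine ⟨H + ct * κ * dGs, ct * κ, ?_, ?_⟩
  · have hG : lam * ∑ j, F (κ' j) * m j = sE k B * (F κ * (lam * ∑ j, F' j * m j)) := by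
      have e4 : F G = F κ * sE k B * F dGs + ∑ j, F (κ' j) * (lam * m j) := by
        conv_lhs => rw [h.euler]
        rw [map_add, map_mul, map_mul, hFs, map_sum]
        congr 1
        exact Finset.sum_congr rfl fun j _ => by rw [map_mul, h.F_dG]
      rw [h.FG, h.F_dGs] at e4
      have e5 : ∑ j, F (κ' j) * (lam * m j) = lam * ∑ j, F (κ' j) * m j := by
        rw [Finset.mul_sum]
        exact Finset.sum_congr rfl fun j _ => by ring
      rw [e5] at e4
      linear_combination -e4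
    have hs : sE k B * F (H + ct * κ * dGs) = sE k B * (lam * ∑ j, (ρ j - F (ct * κ) * F' j) * m j) := by
      have e6 : sE k B * F (H + ct * κ * dGs) = F (∑ j, χ j * dG j) - F ct * (lam * ∑ j, F (κ' j) * m j) := by
        rw [← hFs, ← map_mul, hsT, map_sum, map_sum, Finset.mul_sum, Finset.mul_sum, ← Finset.sum_sub_distrib]
        refine Finset.sum_congr rfl fun j _ => ?_
        rw [map_mul, map_mul, map_sub, map_mul, h.F_dG]
        ring
      have e7 : ∑ j, (ρ j - F (ct * κ) * F' j) * m j = ∑ j, ρ j * m j - F (ct * κ) * ∑ j, F' j * m j := by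
        rw [Finset.mul_sum, ← Finset.sum_sub_distrib]
        exact Finset.sum_congr rfl fun j _ => by ring
      rw [e6, h1, hG, e7, map_mul]
      ring
    have := h.s_reg (F (H + ct * κ * dGs) - lam * ∑ j, (ρ j - F (ct * κ) * F' j) * m j) (by
      rw [mul_sub, hs, sub_self])
    exact sub_eq_zero.1 this
  · rw [hsT]
    exact Ideal.sum_mem _ fun j _ => Ideal.mul_mem_left _ _ (Ideal.subset_span ⟨j, rfl⟩)

end Pool.Agent.LibMX34
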