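import Pool.Agent.LibMX34.K1
import Pool.Agent.LibMX34.K2
import Pool.Agent.LibMX34.K4
import Pool.Agent.LibMX34.K5
import Pool.Agent.LibMX34.K6

set_option autoImplicit false

/-! MX34 K7 (assembly, helper34). -/

namespace Pool.Agent.LibMX34

variable {k : Type} [Field k] {n p : ℕ} {O B O₀ B₀ : Type} [CommRing O] [CommRing B] [CommRing O₀] [CommRing B₀]
  [Algebra (PowerSeries k) O] [Algebra (PowerSeries k) B] [Algebra k O₀] [Algebra k B₀]

private theorem K7_sep {F : O →ₐ[PowerSeries k] B} {f : O₀ →ₐ[k] B₀} {spO : O →+* O₀} {spB : B →+* B₀}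
    {D : Fin n → Fin p → B} {F' m : Fin p → B} {lam : B} {G dGs κ : O} {dG κ' : Fin p → O}
    (h : Core F f spO spB D F' m lam G dGs κ dG κ') (y : O ⧸ JJ dG)
    (hy : ∀ K : ℕ, ∃ y' : O ⧸ JJ dG, y = (PowerSeries.X ^ K : PowerSeries k) • y') : y = 0 := by
  haveI := h.noeth
  haveI := h.loc
  have hI : Ideal.span {sE k O} ≠ ⊤ := by
    intro h1
    exact h.s_mem (Ideal.span_singleton_eq_top.1 h1)
  have h2 := Ideal.iInf_pow_smul_eq_bot_of_isLocalRing (R := O) (M := O ⧸ JJ dG) (Ideal.span {sE k O}) hI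
  have h3 : y ∈ (⨅ i : ℕ, Ideal.span {sE k O} ^ i • (⊤ : Submodule O (O ⧸ JJ dG))) := by
    rw [Submodule.mem_iInf]
    intro i
    obtain ⟨y', hy'⟩ := hy i
    have h4 : y = (sE k O ^ i) • y' := by
      rw [hy']
      rw [sE, ← map_pow, algebraMap_smul]
    rw [h4]
    exact Submodule.smul_mem_smul (Ideal.pow_mem_pow (Ideal.mem_span_singleton_self _) i) trivial
  rw [h2] at h3
  exact h3

theorem core_lt {F : O →ₐ[PowerSeries k] B} {f : O₀ →ₐ[k] B₀} {spO : O →+* O₀} {spB : B →+* B₀}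
    {D : Fin n → Fin p → B} {F' m : Fin p → B} {lam : B} {G dGs κ : O} {dG κ' : Fin p → O}
    (h : Core F f spO spB D F' m lam G dGs κ dG κ')
    [hfin : Module.Finite k ((Fin p → B₀) ⧸ W f (fun i j => spB (D i j)))]
    (χ : Fin p → O) (ξ : Fin n → B) (ρ : Fin p → B)
    (hχ : ∀ j, F (χ j) = ∑ i, ξ i * D i j + sE k B * ρ j)
    (hne : ∀ c : O₀, (fun j => spB (ρ j) - f c * spB (F' j)) ∉ W f (fun i j => spB (D i j))) :
    Module.rank (PowerSeries k) (Localization.Away (Ideal.Quotient.mk (JJ dG) G)) < Cardinal.aleph0 ∧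
    Module.finrank (PowerSeries k) (Localization.Away (Ideal.Quotient.mk (JJ dG) G)) <
      Module.finrank k ((Fin p → B₀) ⧸ W f (fun i j => spB (D i j))) := by
  classical
  set D₀ : Fin n → Fin p → B₀ := fun i j => spB (D i j) with hD₀
  -- representatives
  have hrep : ∀ y : MM F m lam dG, ∃ a : O, ∃ c : Fin p → B, Ideal.Quotient.mk (JJ dG) a = (y : O ⧸ JJ dG) ∧
      F a = lam * ∑ j, c j * m j := by
    rintro ⟨y, hy⟩
    rw [MM, Ideal.mem_map_iff_of_surjective _ Ideal.Quotient.mk_surjective] at hy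
    obtain ⟨a, ⟨c, hc⟩, hay⟩ := hy
    exact ⟨a, c, hay, hc⟩
  choose ra rc hra hrc using hrep
  let q : (Fin p → B₀) →ₗ[k] ((Fin p → B₀) ⧸ W f D₀) := Submodule.mkQ _
  let π₀ : MM F m lam dG → ((Fin p → B₀) ⧸ W f D₀) := fun y => q (fun j => spB (rc y j))
  have hπ : ∀ (y : MM F m lam dG) (a : O) (c : Fin p → B), Ideal.Quotient.mk (JJ dG) a = (y : O ⧸ JJ dG) →
      F a = lam * ∑ j, c j * m j → π₀ y = q (fun j => spB (c j)) := by
    intro y a c ha hc
    show q _ = q _
    have h1 := class_wd h (ra y) a (by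
      rw [← Ideal.Quotient.eq]
      rw [hra y, ha]) (rc y) c (hrc y) hc
    have h2 : q (fun j => spB (rc y j) - spB (c j)) = 0 := by
      rw [Submodule.mkQ_apply, Submodule.Quotient.mk_eq_zero]
      exact h1
    have h3 : (fun j => spB (rc y j) - spB (c j)) = (fun j => spB (rc y j)) - (fun j => spB (c j)) := rfl
    rw [h3, map_sub, sub_eq_zero] at h2
    exact h2
  let π : MM F m lam dG →+ ((Fin p → B₀) ⧸ W f D₀) :=
    AddMonoidHom.mk' π₀ (by
      intro y z
      rw [hπ (y + z) (ra y + ra z) (fun j => rc y j + rc z j) (by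
        rw [map_add, hra, hra]; rfl) (by
        rw [map_add, hrc, hrc]
        simp only [add_mul, Finset.sum_add_distrib, mul_add])]
      show _ = q _ + q _
      rw [← map_add]
      congr 1
      funext j
      simp)
  have hπ' : ∀ y, π y = π₀ y := fun y => rfl
  have hsm : ∀ (c : PowerSeries k) (y : MM F m lam dG),
      π (c • y) = (PowerSeries.constantCoeff c) • π y := by
    intro c y
    rw [hπ', hπ', hπ (c • y) (algebraMap (PowerSeries k) O c * ra y) (fun j => algebraMap (PowerSeries k) B c * rc y j) (by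
      rw [map_mul, hra]
      rw [Submodule.coe_smul_of_tower, Algebra.smul_def]
      rfl) (by
      rw [map_mul, hrc, AlgHom.commutes, Finset.mul_sum, Finset.mul_sum, Finset.mul_sum]
      refine Finset.sum_congr rfl fun j _ => ?_
      ring)]
    show q _ = _ • q _
    rw [← map_smul]
    congr 1
    funext j
    rw [map_mul, h.spB_C, Pi.smul_apply, Algebra.smul_def]
  -- the torsion element
  obtain ⟨T, c', hT, hTJ⟩ := torsion h χ ξ ρ hχ
  have hTI : Ideal.Quotient.mk (JJ dG) T ∈ MM F m lam dG := Ideal.mem_map_of_mem _ ⟨_, hT⟩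
  let t : MM F m lam dG := ⟨Ideal.Quotient.mk (JJ dG) T, hTI⟩
  have ht : (PowerSeries.X : PowerSeries k) • t = 0 := by
    apply Subtype.ext
    rw [Submodule.coe_smul_of_tower, Algebra.smul_def]
    show algebraMap (PowerSeries k) (O ⧸ JJ dG) PowerSeries.X * Ideal.Quotient.mk (JJ dG) T = 0
    have h1 : algebraMap (PowerSeries k) (O ⧸ JJ dG) PowerSeries.X = Ideal.Quotient.mk (JJ dG) (sE k O) := rfl
    rw [h1, ← map_mul, Ideal.Quotient.eq_zero_iff_mem]
    exact hTJ
  have ht' : π t ≠ 0 := by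
    rw [hπ', hπ t T _ rfl hT]
    intro h1
    rw [Submodule.mkQ_apply, Submodule.Quotient.mk_eq_zero] at h1
    apply hne (spO c')
    convert h1 using 1
    funext j
    rw [map_sub, map_mul, h.sp_F]
  obtain ⟨hF, hlt⟩ := finite_rank_lt (k := k) (M := MM F m lam dG) (V := (Fin p → B₀) ⧸ W f D₀)
    (by
      intro y hy
      apply Subtype.ext
      refine K7_sep h _ fun K => ?_
      obtain ⟨y', hy'⟩ := hy K
      exact ⟨y', by rw [hy']; rw [Submodule.coe_smul_of_tower]⟩)
    π (by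
      intro a x
      rw [hsm, PowerSeries.constantCoeff_C])
    (by
      intro x
      rw [hsm]
      simp)
    (by
      intro y hy
      have hy1 : q (fun j => spB (rc y j)) = 0 := hy
      rw [Submodule.mkQ_apply, Submodule.Quotient.mk_eq_zero] at hy1
      obtain ⟨b, hb, hab⟩ := class_inj h (ra y) (rc y) (hrc y) hy1
      refine ⟨⟨Ideal.Quotient.mk (JJ dG) b, Ideal.mem_map_of_mem _ hb⟩, ?_⟩
      apply Subtype.ext
      rw [Submodule.coe_smul_of_tower, Algebra.smul_def]
      show (y : O ⧸ JJ dG) = algebraMap (PowerSeries k) (O ⧸ JJ dG) PowerSeries.X * Ideal.Quotient.mk (JJ dG) b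
      have h1 : algebraMap (PowerSeries k) (O ⧸ JJ dG) PowerSeries.X = Ideal.Quotient.mk (JJ dG) (sE k O) := rfl
      rw [h1, ← map_mul, ← hra y, Ideal.Quotient.eq]
      exact hab)
    t ht ht'
  have := hF
  have hG : Ideal.Quotient.mk (JJ dG) G ∈ MM F m lam dG :=
    Ideal.mem_map_of_mem _ ⟨0, by rw [h.FG]; simp⟩
  obtain ⟨h1, h2⟩ := finrank_away_le (A := PowerSeries k) (C := O ⧸ JJ dG) (MM F m lam dG) (Ideal.Quotient.mk (JJ dG) G) hG
  exact ⟨h1, lt_of_le_of_lt h2 hlt⟩

end Pool.Agent.LibMX34
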