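import Pool.Agent.LibMX34.RDefs2
import Pool.Agent.LibMX34.I1

set_option autoImplicit false

/-! ROW MX34 RB (SHORT/MEDIUM). Derivatives of evaluated polynomials.
PLAN. General lemma (private): for a commutative ring A, an additive map δ : A → A with the Leibniz rule δ(ab) = δ a * b + a * δ b and δ (n : ℤ) = 0
(a derivation), a point p : Fin 13 → A and h : MvPolynomial (Fin 13) ℤ: δ (aeval p h) = ∑ t, aeval p (pderiv t h) * δ (p t)
(MvPolynomial.induction_on; pderiv of a product, pderiv_X). Apply it with δ = MvPowerSeries.pderiv .. and δ = dS k (dS_add, dS_mul of I1; dS of an integer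
constant is 0 by dS_mul / directly), split ∑ over Fin 13 = Fin (4 + 9) by Fin.sum_univ_add, and compute the derivatives of pO: X (castLE j), LO. -/

namespace Pool.Agent.LibMX34

private theorem RB_gen {A : Type*} [CommRing A] [Algebra ℤ A] (δ : A → A) (hadd : ∀ a b, δ (a + b) = δ a + δ b)
    (hmul : ∀ a b, δ (a * b) = δ a * b + a * δ b) (hint : ∀ n : ℤ, δ (n : A) = 0) (p : Fin 13 → A)
    (h : MvPolynomial (Fin 13) ℤ) :
    δ (MvPolynomial.aeval p h) = ∑ t, MvPolynomial.aeval p (MvPolynomial.pderiv t h) * δ (p t) := by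
  classical
  induction h using MvPolynomial.induction_on with
  | C a =>
    rw [MvPolynomial.aeval_C, eq_intCast, hint]
    symm
    apply Finset.sum_eq_zero
    intro t _
    rw [MvPolynomial.pderiv_C, map_zero, zero_mul]
  | add q r hq hr =>
    rw [map_add, hadd, hq, hr, ← Finset.sum_add_distrib]
    refine Finset.sum_congr rfl fun t _ => ?_
    rw [map_add, map_add, add_mul]
  | mul_X q i hq =>
    rw [map_mul, MvPolynomial.aeval_X, hmul, hq]
    have e : ∀ t, MvPolynomial.aeval p (MvPolynomial.pderiv t (q * MvPolynomial.X i)) * δ (p t) =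
        MvPolynomial.aeval p (MvPolynomial.pderiv t q) * δ (p t) * p i +
          (if t = i then MvPolynomial.aeval p q * δ (p i) else 0) := by
      intro t
      rw [MvPolynomial.pderiv_mul, map_add, map_mul, map_mul, MvPolynomial.aeval_X]
      split_ifs with hti
      · subst hti
        rw [MvPolynomial.pderiv_X_self, map_one]
        ring
      · rw [MvPolynomial.pderiv_X_of_ne (Ne.symm hti), map_zero]
        ring
    rw [Finset.sum_congr rfl fun t _ => e t, Finset.sum_add_distrib, Finset.sum_ite_eq' Finset.univ i,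
      if_pos (Finset.mem_univ i), Finset.sum_mul]

private theorem RB_split {A : Type*} [CommRing A] (f : Fin 13 → A) :
    ∑ t, f t = ∑ j : Fin 4, f (ijO j) + ∑ t : Fin 9, f (ivO t) :=
  Fin.sum_univ_add (a := 4) (b := 9) f

private theorem RB_dC {k : Type} [Field k] {σ : Type} (c : PowerSeries k) :
    dS k (MvPowerSeries.C c : MvPowerSeries σ (PowerSeries k)) = MvPowerSeries.C (PowerSeries.derivative k c) := by
  classical
  ext1 e
  have h1 : MvPowerSeries.coeff e (dS k (MvPowerSeries.C c : MvPowerSeries σ (PowerSeries k))) =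
    PowerSeries.derivative k (MvPowerSeries.coeff e (MvPowerSeries.C c)) := rfl
  rw [h1, MvPowerSeries.coeff_C, MvPowerSeries.coeff_C]
  split_ifs
  · rfl
  · rw [map_zero]

private theorem RB_dX {k : Type} [Field k] {σ : Type} (i : σ) :
    dS k (MvPowerSeries.X i : MvPowerSeries σ (PowerSeries k)) = 0 := by
  classical
  ext1 e
  have h1 : MvPowerSeries.coeff e (dS k (MvPowerSeries.X i : MvPowerSeries σ (PowerSeries k))) =
    PowerSeries.derivative k (MvPowerSeries.coeff e (MvPowerSeries.X i)) := rfl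
  rw [h1, MvPowerSeries.coeff_X, map_zero]
  split_ifs
  · exact Derivation.map_one_eq_zero _
  · rw [map_zero]

private theorem RB_dint {k : Type} [Field k] {σ : Type} (n : ℤ) :
    dS k (n : MvPowerSeries σ (PowerSeries k)) = 0 := by
  rw [← map_intCast (MvPowerSeries.C (σ := σ) (R := PowerSeries k)) n, RB_dC, Derivation.map_intCast, map_zero]

variable (k : Type) [Field k] {r : ℕ} (T : Fin 9 → Fin r → ℤ) (σ : Fin 9 → ℤ)

private theorem RB_pO_ij (j : Fin 4) : pO k T σ (ijO j) = MvPowerSeries.X (Fin.castLE (by omega) j : Fin (r + 4)) :=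
  Fin.append_left (m := 4) (n := 9) _ _ j

private theorem RB_pO_iv (t : Fin 9) : pO k T σ (ivO t) = LO k T σ t :=
  Fin.append_right (m := 4) (n := 9) _ _ t

private theorem RB_pderiv_LO (v : Fin (r + 4)) (t : Fin 9) :
    MvPowerSeries.pderiv (PowerSeries k) v (LO k T σ t) =
      ∑ a, (T t a : MvPowerSeries (Fin (r + 4)) (PowerSeries k)) *
        MvPowerSeries.pderiv (PowerSeries k) v (MvPowerSeries.X (a.succ.succ.succ.succ : Fin (r + 4))) := by
  unfold LO
  have h1 : MvPowerSeries.pderiv (PowerSeries k) v (sV k) = 0 := MvPowerSeries.pderiv_C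
  rw [map_add, map_sum, Derivation.leibniz, h1, Derivation.map_intCast, smul_zero, smul_zero, add_zero, add_zero]
  refine Finset.sum_congr rfl fun a _ => ?_
  rw [Derivation.leibniz, Derivation.map_intCast, smul_zero, add_zero, smul_eq_mul]

private theorem RB_dS_LO (t : Fin 9) : dS k (LO k T σ t) = (σ t : MvPowerSeries (Fin (r + 4)) (PowerSeries k)) := by
  have hsum : ∀ (s : Finset (Fin r)) (f : Fin r → MvPowerSeries (Fin (r + 4)) (PowerSeries k)),
      (∀ a, dS k (f a) = 0) → dS k (∑ a ∈ s, f a) = 0 := by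
    intro s f hf
    classical
    induction s using Finset.induction_on with
    | empty =>
      rw [Finset.sum_empty]
      have := RB_dint (k := k) (σ := Fin (r + 4)) 0
      rwa [Int.cast_zero] at this
    | insert a s ha ih => rw [Finset.sum_insert ha, dS_add, ih, hf, add_zero]
  unfold LO
  rw [dS_add, hsum, zero_add, dS_mul, RB_dint, zero_mul, zero_add]
  · have h1 : dS k (sV k : MvPowerSeries (Fin (r + 4)) (PowerSeries k)) = 1 := by
      unfold sV
      rw [RB_dC, PowerSeries.derivative_X, map_one]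
    rw [h1, mul_one]
  · intro a
    rw [dS_mul, RB_dint, RB_dX, zero_mul, mul_zero, add_zero]

theorem pderiv_aeval_Y (j : Fin 4) (h : MvPolynomial (Fin 13) ℤ) :
    MvPowerSeries.pderiv (PowerSeries k) (Fin.castLE (by omega) j : Fin (r + 4)) (MvPolynomial.aeval (pO k T σ) h) =
      MvPolynomial.aeval (pO k T σ) (MvPolynomial.pderiv (ijO j) h) := by
  classical
  rw [RB_gen (fun a => MvPowerSeries.pderiv (PowerSeries k) (Fin.castLE (by omega) j : Fin (r + 4)) a)
    (fun a b => map_add _ a b)
    (fun a b => by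
      show MvPowerSeries.pderiv (PowerSeries k) (Fin.castLE (by omega) j : Fin (r + 4)) (a * b) = _
      rw [Derivation.leibniz, smul_eq_mul, smul_eq_mul]; ring)
    (fun n => Derivation.map_intCast _ n), RB_split]
  have e1 : ∀ i : Fin 4, MvPolynomial.aeval (pO k T σ) (MvPolynomial.pderiv (ijO i) h) *
      MvPowerSeries.pderiv (PowerSeries k) (Fin.castLE (by omega) j : Fin (r + 4)) (pO k T σ (ijO i)) =
      if i = j then MvPolynomial.aeval (pO k T σ) (MvPolynomial.pderiv (ijO j) h) else 0 := by
    intro i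
    rw [RB_pO_ij]
    split_ifs with hij
    · subst hij
      rw [MvPowerSeries.pderiv_X_self, mul_one]
    · rw [MvPowerSeries.pderiv_X_of_ne, mul_zero]
      intro hc
      apply hij
      have := congrArg Fin.val hc
      rw [Fin.val_castLE, Fin.val_castLE] at this
      exact Fin.ext this
  have e2 : ∀ t : Fin 9, MvPolynomial.aeval (pO k T σ) (MvPolynomial.pderiv (ivO t) h) *
      MvPowerSeries.pderiv (PowerSeries k) (Fin.castLE (by omega) j : Fin (r + 4)) (pO k T σ (ivO t)) = 0 := by
    intro t
    rw [RB_pO_iv, RB_pderiv_LO, Finset.sum_eq_zero, mul_zero]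
    intro a _
    rw [MvPowerSeries.pderiv_X_of_ne, mul_zero]
    intro hc
    have := congrArg Fin.val hc
    rw [Fin.val_castLE] at this
    have h2 : (a.succ.succ.succ.succ : Fin (r + 4)).val = a.val + 4 := rfl
    omega
  rw [Finset.sum_congr rfl fun i _ => e1 i, Finset.sum_congr rfl fun t _ => e2 t, Finset.sum_const_zero, add_zero,
    Finset.sum_ite_eq' Finset.univ j, if_pos (Finset.mem_univ j)]

theorem pderiv_aeval_u (a : Fin r) (h : MvPolynomial (Fin 13) ℤ) :
    MvPowerSeries.pderiv (PowerSeries k) (a.succ.succ.succ.succ : Fin (r + 4)) (MvPolynomial.aeval (pO k T σ) h) =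
      ∑ t, (T t a : MvPowerSeries (Fin (r + 4)) (PowerSeries k)) * MvPolynomial.aeval (pO k T σ) (MvPolynomial.pderiv (ivO t) h) := by
  classical
  rw [RB_gen (fun b => MvPowerSeries.pderiv (PowerSeries k) (a.succ.succ.succ.succ : Fin (r + 4)) b)
    (fun x y => map_add _ x y)
    (fun x y => by
      show MvPowerSeries.pderiv (PowerSeries k) (a.succ.succ.succ.succ : Fin (r + 4)) (x * y) = _
      rw [Derivation.leibniz, smul_eq_mul, smul_eq_mul]; ring)
    (fun n => Derivation.map_intCast _ n), RB_split]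
  have e1 : ∀ i : Fin 4, MvPolynomial.aeval (pO k T σ) (MvPolynomial.pderiv (ijO i) h) *
      MvPowerSeries.pderiv (PowerSeries k) (a.succ.succ.succ.succ : Fin (r + 4)) (pO k T σ (ijO i)) = 0 := by
    intro i
    rw [RB_pO_ij, MvPowerSeries.pderiv_X_of_ne, mul_zero]
    intro hc
    have := congrArg Fin.val hc
    rw [Fin.val_castLE] at this
    have h2 : (a.succ.succ.succ.succ : Fin (r + 4)).val = a.val + 4 := rfl
    omega
  have e2 : ∀ t : Fin 9, MvPolynomial.aeval (pO k T σ) (MvPolynomial.pderiv (ivO t) h) *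
      MvPowerSeries.pderiv (PowerSeries k) (a.succ.succ.succ.succ : Fin (r + 4)) (pO k T σ (ivO t)) =
      (T t a : MvPowerSeries (Fin (r + 4)) (PowerSeries k)) * MvPolynomial.aeval (pO k T σ) (MvPolynomial.pderiv (ivO t) h) := by
    intro t
    rw [RB_pO_iv, RB_pderiv_LO, Finset.sum_eq_single a, MvPowerSeries.pderiv_X_self, mul_one, mul_comm]
    · intro b _ hb
      rw [MvPowerSeries.pderiv_X_of_ne, mul_zero]
      intro hc
      apply hb
      have := congrArg Fin.val hc
      have h2 : (b.succ.succ.succ.succ : Fin (r + 4)).val = b.val + 4 := rfl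
      have h3 : (a.succ.succ.succ.succ : Fin (r + 4)).val = a.val + 4 := rfl
      exact Fin.ext (by omega)
    · intro ha
      exact absurd (Finset.mem_univ a) ha
  rw [Finset.sum_congr rfl fun i _ => e1 i, Finset.sum_congr rfl fun t _ => e2 t, Finset.sum_const_zero, zero_add]

theorem dS_aeval (h : MvPolynomial (Fin 13) ℤ) :
    dS k (MvPolynomial.aeval (pO k T σ) h) =
      ∑ t, (σ t : MvPowerSeries (Fin (r + 4)) (PowerSeries k)) * MvPolynomial.aeval (pO k T σ) (MvPolynomial.pderiv (ivO t) h) := by
  classical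
  rw [RB_gen (fun b => dS k b) dS_add dS_mul RB_dint, RB_split]
  have e1 : ∀ i : Fin 4, MvPolynomial.aeval (pO k T σ) (MvPolynomial.pderiv (ijO i) h) *
      dS k (pO k T σ (ijO i)) = 0 := by
    intro i
    rw [RB_pO_ij, RB_dX, mul_zero]
  have e2 : ∀ t : Fin 9, MvPolynomial.aeval (pO k T σ) (MvPolynomial.pderiv (ivO t) h) *
      dS k (pO k T σ (ivO t)) =
      (σ t : MvPowerSeries (Fin (r + 4)) (PowerSeries k)) * MvPolynomial.aeval (pO k T σ) (MvPolynomial.pderiv (ivO t) h) := by
    intro t
    rw [RB_pO_iv, RB_dS_LO, mul_comm]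
  rw [Finset.sum_congr rfl fun i _ => e1 i, Finset.sum_congr rfl fun t _ => e2 t, Finset.sum_const_zero, zero_add]

end Pool.Agent.LibMX34
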