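import Pool.Agent.LibMX34.RDefs2

set_option autoImplicit false

/-! ROW MX34 RC (SHORT). Chain rule for the universal germ.
PLAN. Induction on h (MvPolynomial.induction_on) or: both sides are derivations of MvPolynomial (Fin 13) ℤ into MvPolynomial (Fin 12) ℤ (module via FUs);
for the generators: FUs (X (ijO j)) = FU j, FUs (X (ivO t')) = X (ivB t'). Split sums over Fin 13 with Fin.sum_univ_add. -/

namespace Pool.Agent.LibMX34

theorem FUs_Y (j : Fin 4) : FUs (MvPolynomial.X (ijO j)) = FU j := by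
  unfold FUs
  rw [MvPolynomial.aeval_X]
  exact Fin.append_left (m := 4) (n := 9) FU _ j

theorem FUs_v (t : Fin 9) : FUs (MvPolynomial.X (ivO t)) = MvPolynomial.X (ivB t) := by
  unfold FUs
  rw [MvPolynomial.aeval_X]
  exact Fin.append_right (m := 4) (n := 9) FU _ t

private theorem RC_ne (t : Fin 9) (j : Fin 4) : ijO j ≠ ivO t := by
  intro h
  have h' := congrArg (fun i : Fin 13 => (i : ℕ)) h
  have h1 : ((ijO j : Fin 13) : ℕ) = (j : ℕ) := rfl
  have h2 : ((ivO t : Fin 13) : ℕ) = 4 + (t : ℕ) := rfl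
  simp only [h1, h2] at h'
  omega

private theorem RC_injO (t t' : Fin 9) : ivO t = ivO t' ↔ t = t' := by
  constructor
  · intro h
    have h' := congrArg (fun i : Fin 13 => (i : ℕ)) h
    have h2 : ∀ t : Fin 9, ((ivO t : Fin 13) : ℕ) = 4 + (t : ℕ) := fun _ => rfl
    simp only [h2] at h'
    exact Fin.ext (by omega)
  · intro h
    rw [h]

private theorem RC_injB (t t' : Fin 9) : ivB t = ivB t' ↔ t = t' := by
  constructor
  · intro h
    have h' := congrArg (fun i : Fin 12 => (i : ℕ)) h
    have h2 : ∀ t : Fin 9, ((ivB t : Fin 12) : ℕ) = 3 + (t : ℕ) := fun _ => rfl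
    simp only [h2] at h'
    exact Fin.ext (by omega)
  · intro h
    rw [h]

private theorem RC_injY (j j' : Fin 4) : ijO j = ijO j' ↔ j = j' := by
  constructor
  · intro h
    have h' := congrArg (fun i : Fin 13 => (i : ℕ)) h
    have h2 : ∀ t : Fin 4, ((ijO t : Fin 13) : ℕ) = (t : ℕ) := fun _ => rfl
    simp only [h2] at h'
    exact Fin.ext (by omega)
  · intro h
    rw [h]

private theorem RC_X (t : Fin 9) (i : Fin 13) :
    MvPolynomial.pderiv (ivB t) (FUs (MvPolynomial.X i)) = FUs (MvPolynomial.pderiv (ivO t) (MvPolynomial.X i)) +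
      ∑ j, FUs (MvPolynomial.pderiv (ijO j) (MvPolynomial.X i)) * MvPolynomial.pderiv (ivB t) (FU j) := by
  classical
  have hi : (∃ j, i = ijO j) ∨ (∃ t', i = ivO t') := by
    refine Fin.addCases (m := 4) (n := 9) (motive := fun i : Fin (4 + 9) => (∃ j, (i : Fin 13) = ijO j) ∨ (∃ t', (i : Fin 13) = ivO t'))
      (fun j => Or.inl ⟨j, rfl⟩) (fun t' => Or.inr ⟨t', rfl⟩) i
  rcases hi with ⟨j', rfl⟩ | ⟨t', rfl⟩
  · rw [FUs_Y, MvPolynomial.pderiv_X_of_ne (RC_ne t j'), map_zero, zero_add, Finset.sum_eq_single j']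
    · rw [MvPolynomial.pderiv_X_self, map_one, one_mul]
    · intro j _ hj
      rw [MvPolynomial.pderiv_X_of_ne (fun h => hj ((RC_injY _ _).1 h).symm), map_zero, zero_mul]
    · intro h
      exact absurd (Finset.mem_univ _) h
  · rw [FUs_v, Finset.sum_eq_zero (fun j _ => by
      rw [MvPolynomial.pderiv_X_of_ne (fun h => RC_ne t' j h.symm), map_zero, zero_mul]), add_zero]
    by_cases h : t = t'
    · subst h
      rw [MvPolynomial.pderiv_X_self, MvPolynomial.pderiv_X_self, map_one]
    · rw [MvPolynomial.pderiv_X_of_ne (fun h' => h ((RC_injB _ _).1 h').symm),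
        MvPolynomial.pderiv_X_of_ne (fun h' => h ((RC_injO _ _).1 h').symm), map_zero]

theorem pderiv_FUs (t : Fin 9) (h : MvPolynomial (Fin 13) ℤ) :
    MvPolynomial.pderiv (ivB t) (FUs h) = FUs (MvPolynomial.pderiv (ivO t) h) +
      ∑ j, FUs (MvPolynomial.pderiv (ijO j) h) * MvPolynomial.pderiv (ivB t) (FU j) := by
  induction h using MvPolynomial.induction_on with
  | C a =>
    have h1 : FUs (MvPolynomial.C a) = MvPolynomial.C a := by
      unfold FUs
      rw [MvPolynomial.aeval_C]
      rfl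
    rw [h1]
    simp
  | add p q hp hq =>
    simp only [map_add, hp, hq, add_mul, Finset.sum_add_distrib]
    ring
  | mul_X p i hp =>
    rw [map_mul, Derivation.leibniz, RC_X, hp]
    simp only [Derivation.leibniz, smul_eq_mul, map_add, map_mul, add_mul, mul_add, Finset.sum_add_distrib,
      Finset.mul_sum]
    simp only [mul_assoc]
    ring

end Pool.Agent.LibMX34
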