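import Pool.Agent.LibMX34.RA
import Pool.Agent.LibMX34.RB
import Pool.Agent.LibMX34.RC

set_option autoImplicit false

/-! MX34 RD (assembly of block R, helper34). -/

namespace Pool.Agent.LibMX34

section

variable (k : Type) [Field k] {r : ℕ} (T : Fin 9 → Fin r → ℤ) (σ : Fin 9 → ℤ)

/-- `w_t(0) = ∑_i C_i ∂_s η_{i,t}` -/
noncomputable def w0 {m : ℕ} (η : Fin m → Fin 13 → MvPolynomial (Fin 13) ℤ) (C : Fin m → MvPowerSeries (Fin (r + 4)) k) (t : Fin 9) :
    MvPowerSeries (Fin (r + 4)) k :=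
  ∑ i, C i * ∑ t', (σ t' : MvPowerSeries (Fin (r + 4)) k) * MvPolynomial.aeval (pO0 k T) (MvPolynomial.pderiv (ivO t') (η i (ivO t)))

/-- the vector `∑ f^*(w_t(0)) l_t` of `θ(f)`; its last `r` components are `0` -/
noncomputable def vec0 {m : ℕ} (η : Fin m → Fin 13 → MvPolynomial (Fin 13) ℤ) (C : Fin m → MvPowerSeries (Fin (r + 4)) k) (j : Fin 4) :
    MvPowerSeries (Fin (r + 3)) k :=
  ∑ t, MvPowerSeries.subst (unf k (Phi0 k T)) (w0 k T σ η C t) * MvPolynomial.aeval (pB0 k T) (MvPolynomial.pderiv (ivB t) (FU j))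

private theorem RD_dS_zero {ι : Type} : dS k (0 : MvPowerSeries ι (PowerSeries k)) = 0 := by
  have := dS_add (0 : MvPowerSeries ι (PowerSeries k)) 0
  rw [add_zero] at this
  exact (left_eq_add.1 this)

private theorem RD_dS_sum {ι J : Type} (s : Finset J) (f : J → MvPowerSeries ι (PowerSeries k)) :
    dS k (∑ i ∈ s, f i) = ∑ i ∈ s, dS k (f i) := by
  classical
  induction s using Finset.induction_on with
  | empty => simp [RD_dS_zero]
  | insert a s ha ih => rw [Finset.sum_insert ha, Finset.sum_insert ha, dS_add, ih]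

private theorem RD_dS_neg {ι : Type} (a : MvPowerSeries ι (PowerSeries k)) : dS k (-a) = - dS k a := by
  have h := dS_add a (-a)
  rw [add_neg_cancel, RD_dS_zero] at h
  exact (neg_eq_of_add_eq_zero_right h.symm).symm

private theorem RD_int {ι : Type} (z : ℤ) : (z : MvPowerSeries ι (PowerSeries k)) = lift0 k (z : MvPowerSeries ι k) := by
  rw [map_intCast]

private theorem RD_sum13 {M : Type} [AddCommMonoid M] (f : Fin 13 → M) : ∑ t, f t = ∑ j : Fin 4, f (ijO j) + ∑ t : Fin 9, f (ivO t) := by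
  exact Fin.sum_univ_add (a := 4) (b := 9) f

private theorem RD_sumr {M : Type} [AddCommMonoid M] (f : Fin (r + 4) → M) :
    ∑ j, f j = ∑ j : Fin 4, f (Fin.castLE (by omega) j) + ∑ a : Fin r, f a.succ.succ.succ.succ := by
  rw [Fin.sum_univ_succ, Fin.sum_univ_succ, Fin.sum_univ_succ, Fin.sum_univ_succ]
  rw [Fin.sum_univ_four]
  simp only [add_assoc]
  rfl

theorem R_final [CharZero k] (hFG : FUs GG = 0) (hgeo : Geo k (PhiS k T σ) (GS k T σ)) (hfin : Module.Finite k (T1 k (unf k (Phi0 k T))))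
    {m : ℕ} (η : Fin m → Fin 13 → MvPolynomial (Fin 13) ℤ) (α : Fin m → MvPolynomial (Fin 13) ℤ)
    (hmother : ∀ i, ∑ t, η i t * MvPolynomial.pderiv t GG = α i * GG)
    (C : Fin m → MvPowerSeries (Fin (r + 4)) k) (R0 : Fin r → MvPowerSeries (Fin (r + 4)) k)
    (hN : ∀ t, ∑ i, C i * MvPolynomial.aeval (pO0 k T) (η i (ivO t)) = ∑ a, (T t a : MvPowerSeries (Fin (r + 4)) k) * R0 a)
    (hα : ∑ i, C i * MvPolynomial.aeval (pO0 k T) (α i) = 0)
    (hne : (Fin.cons (vec0 k T σ η C 0) (Fin.cons (vec0 k T σ η C 1) (Fin.cons (vec0 k T σ η C 2) (Fin.cons (vec0 k T σ η C 3)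
      fun _ : Fin r => 0))) : Fin (r + 4) → MvPowerSeries (Fin (r + 3)) k) ∉
      tangentSource k (unf k (Phi0 k T)) ⊔ tangentTarget k (unf k (Phi0 k T))) :
    Module.rank (PowerSeries k) (Localization.Away (Ideal.Quotient.mk
      (Ideal.span (Set.range fun j => MvPowerSeries.pderiv (PowerSeries k) j (GS k T σ))) (GS k T σ))) < Cardinal.aleph0 ∧
    Module.finrank (PowerSeries k) (Localization.Away (Ideal.Quotient.mk
      (Ideal.span (Set.range fun j => MvPowerSeries.pderiv (PowerSeries k) j (GS k T σ))) (GS k T σ))) <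
      Module.finrank k (T1 k (unf k (Phi0 k T))) := by
  classical
  set A := MvPowerSeries (Fin (r + 4)) (PowerSeries k) with hA
  set ev : MvPolynomial (Fin 13) ℤ →ₐ[ℤ] MvPowerSeries (Fin (r + 4)) (PowerSeries k) := MvPolynomial.aeval (pO k T σ) with hev
  set F := unf (PowerSeries k) (PhiS k T σ) with hF
  have hconst : ∀ j, MvPowerSeries.constantCoeff (F j) = 0 := unf_const _ (phi_const k T σ)
  have hS : MvPowerSeries.HasSubst F := MvPowerSeries.hasSubst_of_constantCoeff_zero hconst
  have hG : GS k T σ = ev GG := rfl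
  have hfun : (fun j => atZero k (PhiS k T σ j)) = Phi0 k T := funext fun j => at_phi k T σ j
  -- the remainders
  have hX : ∀ t, ∃ w : MvPowerSeries (Fin (r + 4)) (PowerSeries k), ∑ i, lift0 k (C i) * ev (η i (ivO t)) =
      ∑ a, (T t a : MvPowerSeries (Fin (r + 4)) (PowerSeries k)) * lift0 k (R0 a) + sV k * w := by
    intro t
    obtain ⟨w, hw⟩ := at_ker k _ (∑ i, lift0 k (C i) * ev (η i (ivO t)) -
      ∑ a, (T t a : MvPowerSeries (Fin (r + 4)) (PowerSeries k)) * lift0 k (R0 a)) (by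
        rw [map_sub, map_sum, map_sum, sub_eq_zero]
        have h1 : ∀ i, atZero k (lift0 k (C i) * ev (η i (ivO t))) = C i * MvPolynomial.aeval (pO0 k T) (η i (ivO t)) := by
          intro i
          rw [map_mul, at_lift0, hev, at_aevalO]
        have h2 : ∀ a, atZero k ((T t a : MvPowerSeries (Fin (r + 4)) (PowerSeries k)) * lift0 k (R0 a)) =
            (T t a : MvPowerSeries (Fin (r + 4)) k) * R0 a := by
          intro a
          rw [map_mul, at_lift0, map_intCast]
        rw [Finset.sum_congr rfl fun i _ => h1 i, Finset.sum_congr rfl fun a _ => h2 a, hN])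
    exact ⟨w, by rw [← hw]; ring⟩
  choose w hw using hX
  obtain ⟨β, hβ⟩ := at_ker k _ (∑ i, lift0 k (C i) * ev (α i)) (by
    rw [map_sum, ← hα]
    refine Finset.sum_congr rfl fun i _ => ?_
    rw [map_mul, at_lift0, hev, at_aevalO])
  -- `w_t(0)`
  have hw0 : ∀ t, atZero k (w t) = w0 k T σ η C t := by
    intro t
    rw [← at_dS_sV]
    have h1 : sV k * w t = ∑ i, lift0 k (C i) * ev (η i (ivO t)) +
        -(∑ a, (T t a : MvPowerSeries (Fin (r + 4)) (PowerSeries k)) * lift0 k (R0 a)) := by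
      rw [hw t]; ring
    rw [h1, dS_add, RD_dS_neg, RD_dS_sum, RD_dS_sum]
    have h2 : ∀ a, dS k ((T t a : MvPowerSeries (Fin (r + 4)) (PowerSeries k)) * lift0 k (R0 a)) = 0 := by
      intro a
      rw [dS_mul, dS_lift0, RD_int, dS_lift0, zero_mul, mul_zero, add_zero]
    rw [Finset.sum_congr rfl fun a _ => h2 a, Finset.sum_const_zero, neg_zero, add_zero, map_sum]
    unfold w0
    refine Finset.sum_congr rfl fun i _ => ?_
    rw [dS_mul, dS_lift0, zero_mul, zero_add, map_mul, at_lift0, hev, dS_aeval, map_sum]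
    congr 1
    refine Finset.sum_congr rfl fun t' _ => ?_
    rw [map_mul, at_aevalO, map_intCast]
  -- substitution facts
  have hsub : ∀ h, MvPowerSeries.subst F (ev h) = MvPolynomial.aeval (pB k T σ) (FUs h) := fun h => sub_aeval k T σ h
  have hFG' : MvPowerSeries.subst F (ev GG) = 0 := by rw [hsub, hFG, map_zero]
  have hΓ : ∀ t, MvPowerSeries.subst F (ev (MvPolynomial.pderiv (ivO t) GG)) =
      - ∑ j, MvPowerSeries.subst F (ev (MvPolynomial.pderiv (ijO j) GG)) *
        MvPolynomial.aeval (pB k T σ) (MvPolynomial.pderiv (ivB t) (FU j)) := by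
    intro t
    have h1 := pderiv_FUs t GG
    rw [hFG, map_zero] at h1
    have h2 := congrArg (MvPolynomial.aeval (pB k T σ)) h1
    rw [map_zero, map_add, map_sum] at h2
    rw [hsub, eq_neg_iff_add_eq_zero, h2]
    congr 1
    refine Finset.sum_congr rfl fun j _ => ?_
    rw [map_mul, hsub]
  set N : Fin 4 → MvPowerSeries (Fin (r + 4)) (PowerSeries k) := fun j => ∑ i, lift0 k (C i) * ev (η i (ijO j)) with hNdef
  set R : Fin (r + 4) → MvPowerSeries (Fin (r + 4)) (PowerSeries k) :=
    Fin.cons (N 0) (Fin.cons (N 1) (Fin.cons (N 2) (Fin.cons (N 3) fun a : Fin r => lift0 k (R0 a)))) with hRdef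
  have hRY : ∀ j : Fin 4, R (Fin.castLE (by omega) j) = N j := by
    intro j
    fin_cases j <;> rfl
  have hRu : ∀ a : Fin r, R a.succ.succ.succ.succ = lift0 k (R0 a) := fun a => rfl
  set TT : MvPowerSeries (Fin (r + 4)) (PowerSeries k) :=
    β * ev GG - ∑ t, w t * ev (MvPolynomial.pderiv (ivO t) GG) with hTT
  set ρ' : Fin 4 → MvPowerSeries (Fin (r + 3)) (PowerSeries k) := fun j =>
    ∑ t, MvPowerSeries.subst F (w t) * MvPolynomial.aeval (pB k T σ) (MvPolynomial.pderiv (ivB t) (FU j)) with hρ'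
  set ρ : Fin (r + 4) → MvPowerSeries (Fin (r + 3)) (PowerSeries k) :=
    Fin.cons (ρ' 0) (Fin.cons (ρ' 1) (Fin.cons (ρ' 2) (Fin.cons (ρ' 3) fun _ : Fin r => 0))) with hρ
  have hρY : ∀ j : Fin 4, ρ (Fin.castLE (by omega) j) = ρ' j := by
    intro j
    fin_cases j <;> rfl
  have hρu : ∀ a : Fin r, ρ a.succ.succ.succ.succ = 0 := fun a => rfl
  have hR : sV k * TT = ∑ j, R j * MvPowerSeries.pderiv (PowerSeries k) j (GS k T σ) := by
    rw [RD_sumr, hG]
    have h1 : ∀ j : Fin 4, R (Fin.castLE (by omega) j) * MvPowerSeries.pderiv (PowerSeries k) (Fin.castLE (by omega) j) (ev GG) =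
        ∑ i, lift0 k (C i) * (ev (η i (ijO j)) * ev (MvPolynomial.pderiv (ijO j) GG)) := by
      intro j
      rw [hRY, hev, pderiv_aeval_Y, hNdef, Finset.sum_mul]
      exact Finset.sum_congr rfl fun i _ => by rw [mul_assoc]
    have h2 : ∀ a : Fin r, R a.succ.succ.succ.succ * MvPowerSeries.pderiv (PowerSeries k) a.succ.succ.succ.succ (ev GG) =
        ∑ t, ((T t a : MvPowerSeries (Fin (r + 4)) (PowerSeries k)) * lift0 k (R0 a)) * ev (MvPolynomial.pderiv (ivO t) GG) := by
      intro a
      rw [hRu, hev, pderiv_aeval_u, Finset.mul_sum]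
      exact Finset.sum_congr rfl fun i _ => by ring
    rw [Finset.sum_congr rfl fun j _ => h1 j, Finset.sum_congr rfl fun a _ => h2 a, Finset.sum_comm, Finset.sum_comm (s := Finset.univ (α := Fin r))]
    have h3 : ∀ i, ∑ j : Fin 4, lift0 k (C i) * (ev (η i (ijO j)) * ev (MvPolynomial.pderiv (ijO j) GG)) =
        lift0 k (C i) * ev (α i) * ev GG - ∑ t : Fin 9, lift0 k (C i) * ev (η i (ivO t)) * ev (MvPolynomial.pderiv (ivO t) GG) := by
      intro i
      have h4 := congrArg ev (hmother i)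
      rw [RD_sum13, map_add, map_sum, map_sum, map_mul] at h4
      rw [← Finset.mul_sum, mul_assoc (lift0 k (C i)) (ev (α i)) (ev GG), ← h4]
      simp only [map_mul, mul_add, Finset.mul_sum, mul_assoc]
      ring
    rw [Finset.sum_congr rfl fun i _ => h3 i, Finset.sum_sub_distrib, ← Finset.sum_mul, hβ, Finset.sum_comm]
    have h5 : ∀ t : Fin 9, ∑ i, lift0 k (C i) * ev (η i (ivO t)) * ev (MvPolynomial.pderiv (ivO t) GG) =
        (∑ a, (T t a : MvPowerSeries (Fin (r + 4)) (PowerSeries k)) * lift0 k (R0 a) + sV k * w t) *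
          ev (MvPolynomial.pderiv (ivO t) GG) := by
      intro t
      rw [← Finset.sum_mul, hw t]
    rw [Finset.sum_congr rfl fun t _ => h5 t]
    have h6 : ∀ t : Fin 9, ∑ a, ((T t a : MvPowerSeries (Fin (r + 4)) (PowerSeries k)) * lift0 k (R0 a)) * ev (MvPolynomial.pderiv (ivO t) GG) =
        (∑ a, (T t a : MvPowerSeries (Fin (r + 4)) (PowerSeries k)) * lift0 k (R0 a)) * ev (MvPolynomial.pderiv (ivO t) GG) := by
      intro t
      rw [Finset.sum_mul]
    rw [Finset.sum_congr rfl fun t _ => h6 t, hTT]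
    simp only [add_mul, Finset.sum_add_distrib, mul_sub, Finset.mul_sum]
    simp only [mul_assoc]
    ring
  have hT : MvPowerSeries.subst F TT = ∑ j, MvPowerSeries.subst F (MvPowerSeries.pderiv (PowerSeries k) j (GS k T σ)) * ρ j := by
    rw [RD_sumr, hG]
    have h2 : ∀ a : Fin r, MvPowerSeries.subst F (MvPowerSeries.pderiv (PowerSeries k) a.succ.succ.succ.succ (ev GG)) * ρ a.succ.succ.succ.succ = 0 := by
      intro a
      rw [hρu, mul_zero]
    have h1 : ∀ j : Fin 4, MvPowerSeries.subst F (MvPowerSeries.pderiv (PowerSeries k) (Fin.castLE (by omega) j) (ev GG)) * ρ (Fin.castLE (by omega) j) =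
        ∑ t, MvPowerSeries.subst F (w t) * (MvPowerSeries.subst F (ev (MvPolynomial.pderiv (ijO j) GG)) *
          MvPolynomial.aeval (pB k T σ) (MvPolynomial.pderiv (ivB t) (FU j))) := by
      intro j
      rw [hρY, hev, pderiv_aeval_Y, hρ', Finset.mul_sum]
      exact Finset.sum_congr rfl fun i _ => by ring
    rw [Finset.sum_congr rfl fun j _ => h1 j, Finset.sum_congr rfl fun a _ => h2 a, Finset.sum_const_zero, add_zero, Finset.sum_comm]
    have h3 : MvPowerSeries.subst F TT = - ∑ t, MvPowerSeries.subst F (w t) * MvPowerSeries.subst F (ev (MvPolynomial.pderiv (ivO t) GG)) := by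
      rw [hTT, ← MvPowerSeries.substAlgHom_apply hS, map_sub, map_mul, map_sum]
      rw [MvPowerSeries.substAlgHom_apply hS (ev GG), hFG', mul_zero, zero_sub]
      congr 1
      refine Finset.sum_congr rfl fun t _ => ?_
      rw [map_mul, MvPowerSeries.substAlgHom_apply, MvPowerSeries.substAlgHom_apply]
    rw [h3, ← Finset.sum_neg_distrib]
    refine Finset.sum_congr rfl fun t _ => ?_
    rw [hΓ, mul_neg, neg_neg, Finset.mul_sum]
  have key := mond_lt_T k (PhiS k T σ) (GS k T σ) hgeo (by rw [hfun]; exact hfin) TT ρ hT R hR (by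
    rw [hfun]
    have h1 : (fun j => atZero k (ρ j)) = (Fin.cons (vec0 k T σ η C 0) (Fin.cons (vec0 k T σ η C 1) (Fin.cons (vec0 k T σ η C 2)
        (Fin.cons (vec0 k T σ η C 3) fun _ : Fin r => 0))) : Fin (r + 4) → MvPowerSeries (Fin (r + 3)) k) := by
      have h2 : ∀ j, atZero k (ρ' j) = vec0 k T σ η C j := by
        intro j
        rw [hρ']
        unfold vec0
        rw [map_sum]
        refine Finset.sum_congr rfl fun t _ => ?_
        rw [map_mul, at_aevalB, at_sub k F hconst, hw0]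
        congr 2
        funext i
        rw [hF, at_unf, hfun]
      funext j
      rw [hρ]
      refine Fin.cases ?_ (fun j => ?_) j
      · exact h2 0
      · refine Fin.cases ?_ (fun j => ?_) j
        · exact h2 1
        · refine Fin.cases ?_ (fun j => ?_) j
          · exact h2 2
          · refine Fin.cases ?_ (fun j => ?_) j
            · exact h2 3
            · exact map_zero _
    rw [h1]
    exact hne)
  rw [hfun] at key
  exact key

end

end Pool.Agent.LibMX34
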